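import Mathlib

set_option autoImplicit false

/-!
Cosines of rational angles: basic definitions and the conjugation principle.
-/

namespace Pool.Agent.Helper644.FC

open Polynomial

/-- the cosine of the multiple `k` of `2 π / N` -/
noncomputable def cs (N : ℕ) (k : ℤ) : ℝ := Real.cos (2 * Real.pi * k / N)

/-- `c` is the cosine of an integer multiple of `2 π / N` -/
def NCos (N : ℕ) (c : ℝ) : Prop := ∃ k : ℤ, c = cs N k

/-- the root of unity `exp (2 π i / N)` -/
noncomputable def zt (N : ℕ) : ℂ := Complex.exp (2 * Real.pi * Complex.I / N)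

theorem zt_prim {N : ℕ} (hN : 0 < N) : IsPrimitiveRoot (zt N) N :=
  Complex.isPrimitiveRoot_exp N hN.ne'

theorem zt_zpow {N : ℕ} (hN : 0 < N) (k : ℤ) :
    zt N ^ k = Complex.exp ((2 * Real.pi * k / N : ℝ) * Complex.I) := by
  rw [zt, ← Complex.exp_int_mul]
  congr 1
  push_cast
  ring

theorem two_cs {N : ℕ} (hN : 0 < N) (k : ℤ) :
    ((2 * cs N k : ℝ) : ℂ) = zt N ^ k + zt N ^ (-k) := by
  rw [zt_zpow hN, zt_zpow hN, cs]
  have : ((2 * Real.pi * ((-k : ℤ) : ℝ) / N : ℝ) : ℂ) * Complex.I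
      = -(((2 * Real.pi * k / N : ℝ) : ℂ)) * Complex.I := by
    push_cast; ring
  rw [this]
  push_cast
  rw [Complex.two_cos]

/-- the polynomial `X ^ (k mod N) + X ^ (-k mod N)` -/
noncomputable def cp (N : ℕ) (k : ℤ) : ℤ[X] := X ^ (k % N).toNat + X ^ ((-k) % N).toNat

theorem pow_toNat_emod {N : ℕ} (hN : 0 < N) {z : ℂ} (hz : z ^ N = 1) (k : ℤ) :
    z ^ (k % N).toNat = z ^ k := by
  have hN' : (N : ℤ) ≠ 0 := by exact_mod_cast hN.ne'
  have hz0 : z ≠ 0 := by
    rintro rfl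
    rw [zero_pow hN.ne'] at hz
    exact zero_ne_one hz
  have h0 : 0 ≤ k % N := Int.emod_nonneg _ hN'
  have h1 : z ^ (k % N).toNat = z ^ (k % (N : ℤ)) := by
    rw [← zpow_natCast, Int.toNat_of_nonneg h0]
  rw [h1]
  conv_rhs => rw [← Int.mul_ediv_add_emod k N]
  rw [zpow_add₀ hz0, zpow_mul, zpow_natCast, hz, one_zpow, one_mul]

theorem aeval_cp {N : ℕ} (hN : 0 < N) (t k : ℤ) :
    aeval (zt N ^ t) (cp N k) = ((2 * cs N (t * k) : ℝ) : ℂ) := by
  have hz : (zt N ^ t) ^ N = 1 := by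
    rw [← zpow_natCast, ← zpow_mul, mul_comm, zpow_mul, zpow_natCast, (zt_prim hN).pow_eq_one,
      one_zpow]
  rw [cp, map_add, map_pow, map_pow, aeval_X, pow_toNat_emod hN hz, pow_toNat_emod hN hz,
    two_cs hN, ← zpow_mul, ← zpow_mul, mul_neg]

/-- The conjugation principle: an integral polynomial relation between the numbers
`2 cos (2 π kᵢ / N)` is preserved by `kᵢ ↦ t kᵢ`, `t` coprime to `N`. -/
theorem conj_cs {N : ℕ} (hN : 0 < N) {ι : Type*} (k : ι → ℤ) (Q : MvPolynomial ι ℤ)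
    (h : MvPolynomial.aeval (fun i => 2 * cs N (k i)) Q = 0) (t : ℕ) (ht : Nat.Coprime t N) :
    MvPolynomial.aeval (fun i => 2 * cs N (t * k i)) Q = 0 := by
  set F : ℤ[X] := MvPolynomial.aeval (fun i => cp N (k i)) Q with hF
  have key : ∀ s : ℤ, aeval (zt N ^ s) F
      = ((MvPolynomial.aeval (fun i => 2 * cs N (s * k i)) Q : ℝ) : ℂ) := by
    intro s
    have h1 : aeval (zt N ^ s) F = MvPolynomial.aeval (fun i => aeval (zt N ^ s) (cp N (k i))) Q := by
      rw [hF, ← MvPolynomial.comp_aeval_apply]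
    have h2 : ((MvPolynomial.aeval (fun i => 2 * cs N (s * k i)) Q : ℝ) : ℂ)
        = MvPolynomial.aeval (fun i => ((2 * cs N (s * k i) : ℝ) : ℂ)) Q := by
      have := MvPolynomial.comp_aeval_apply (R := ℤ) (fun i => 2 * cs N (s * k i))
        (Complex.ofRealHom.toIntAlgHom) Q
      exact this
    rw [h1, h2]
    congr 2
    funext i
    exact aeval_cp hN s (k i)
  have h1 : aeval (zt N) F = 0 := by
    have := key 1
    rw [zpow_one] at this
    rw [this]
    simp only [one_mul]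
    rw [h, Complex.ofReal_zero]
  have hprim := zt_prim hN
  have hint : IsIntegral ℤ (zt N) := hprim.isIntegral hN
  have h2 : minpoly ℤ (zt N) ∣ F := minpoly.isIntegrallyClosed_dvd hint h1
  have h3 : minpoly ℤ (zt N) = minpoly ℤ (zt N ^ t) := hprim.minpoly_eq_pow_coprime ht
  have h4 : aeval (zt N ^ t) F = 0 := by
    obtain ⟨G, hG⟩ := h2
    rw [hG, map_mul, h3, minpoly.aeval, zero_mul]
  have h5 := key t
  rw [zpow_natCast, h4] at h5
  have h6 := Complex.ofReal_eq_zero.mp h5.symm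
  simpa using h6

end Pool.Agent.Helper644.FC
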