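import Mathlib

set_option autoImplicit false

/-!
Configurations in the complex plane, with symmetries fixing the origin.
-/

namespace Pool.Agent.Helper644.FC

/-- the line with unit normal `n` at (signed) distance `k` from the origin -/
def ln (n : ℂ) (k : ℝ) : Set ℂ := {z | (z * (starRingEnd ℂ) n).re = k}

/-- 5-configurations in the complex plane -/
structure Conf (P : Set ℂ) (L : Set (Set ℂ)) : Prop where
  finP : P.Finite
  finL : L.Finite
  isLine : ∀ l ∈ L, ∃ n : ℂ, ∃ k : ℝ, ‖n‖ = 1 ∧ 0 ≤ k ∧ l = ln n k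
  five : ∀ p ∈ P, {l ∈ L | p ∈ l}.ncard = 5
  five' : ∀ l ∈ L, {p ∈ P | p ∈ l}.ncard = 5

def rot (a : ℂ) : ℂ → ℂ := fun z => a * z
noncomputable def refl (b : ℂ) : ℂ → ℂ := fun z => b * (starRingEnd ℂ) z

/-- `f` is a symmetry of the configuration -/
def Sym (P : Set ℂ) (L : Set (Set ℂ)) (f : ℂ → ℂ) : Prop := f '' P = P ∧ ∀ l ∈ L, f '' l ∈ L

/-- a rotation or a reflection, fixing the origin, and preserving the configuration -/
def IsSym (P : Set ℂ) (L : Set (Set ℂ)) (f : ℂ → ℂ) : Prop :=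
  Sym P L f ∧ ∃ a : ℂ, ‖a‖ = 1 ∧ (f = rot a ∨ f = refl a)

end Pool.Agent.Helper644.FC
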