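import Mathlib
import Pool.Agent.Helper644.FC0

set_option autoImplicit false

namespace Pool.Agent.Helper644.FC

open Polynomial


/-- E N k = ∏_{t mod N, (t,N)=1} |2 cos (2 π t k / N)| is an integer power product; see hint. -/
noncomputable def Ep (N : ℕ) (k : ℤ) : ℝ :=
  ∏ t ∈ (Finset.range N).filter (fun t => Nat.Coprime t N), |2 * cs N (t * k)|

theorem prod_units_eq {N : ℕ} [NeZero N] (F : ℕ → ℝ) :
    ∏ u : (ZMod N)ˣ, F (u : ZMod N).val =
      ∏ t ∈ (Finset.range N).filter (fun t => Nat.Coprime t N), F t := by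
  refine Finset.prod_bij (fun (u : (ZMod N)ˣ) _ => (u : ZMod N).val) ?_ ?_ ?_ ?_
  · intro u _
    simp only [Finset.mem_filter, Finset.mem_range]
    exact ⟨ZMod.val_lt _, ZMod.val_coe_unit_coprime u⟩
  · intro u _ v _ h
    exact Units.ext (ZMod.val_injective N h)
  · intro t ht
    simp only [Finset.mem_filter, Finset.mem_range] at ht
    refine ⟨ZMod.unitOfCoprime t ht.2, Finset.mem_univ _, ?_⟩
    rw [ZMod.coe_unitOfCoprime, ZMod.val_natCast, Nat.mod_eq_of_lt ht.1]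
  · intro u _
    rfl

theorem prod_coprime_pow {N n : ℕ} [NeZero N] [NeZero n] (hn : n ∣ N) (F : ℕ → ℝ)
    (hF : ∀ t, F (t % n) = F t) :
    ∏ t ∈ (Finset.range N).filter (fun t => Nat.Coprime t N), F t =
      (∏ t ∈ (Finset.range n).filter (fun t => Nat.Coprime t n), F t) ^
        (N.totient / n.totient) := by
  classical
  rw [← prod_units_eq, ← prod_units_eq]
  have h1 : ∀ u : (ZMod N)ˣ, F (u : ZMod N).val =
      (fun v : (ZMod n)ˣ => F (v : ZMod n).val) (ZMod.unitsMap hn u) := by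
    intro u
    simp only
    rw [ZMod.unitsMap_val, ZMod.cast_eq_val, ZMod.val_natCast, hF]
  rw [Finset.prod_congr rfl (fun u _ => h1 u),
    Finset.prod_comp (fun v : (ZMod n)ˣ => F (v : ZMod n).val) (fun u => ZMod.unitsMap hn u)]
  have hsurj := ZMod.unitsMap_surjective hn
  rw [show Finset.image (fun u => ZMod.unitsMap hn u) Finset.univ = Finset.univ from
    Finset.image_univ_of_surjective hsurj]
  have hfib : ∀ v : (ZMod n)ˣ, (Finset.univ.filter (fun u : (ZMod N)ˣ =>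
      ZMod.unitsMap hn u = v)).card = (Finset.univ.filter (fun u : (ZMod N)ˣ =>
      ZMod.unitsMap hn u = 1)).card := fun v =>
    MonoidHom.card_fiber_eq_of_mem_range (ZMod.unitsMap hn) (hsurj v) (hsurj 1)
  have hcard : N.totient = n.totient * (Finset.univ.filter (fun u : (ZMod N)ˣ =>
      ZMod.unitsMap hn u = 1)).card := by
    have h2 := Finset.card_eq_sum_card_fiberwise (f := fun u : (ZMod N)ˣ => ZMod.unitsMap hn u)
      (s := Finset.univ) (t := Finset.univ) (fun _ _ => Finset.mem_coe.2 (Finset.mem_univ _))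
    rw [Finset.card_univ, ZMod.card_units_eq_totient] at h2
    rw [h2, Finset.sum_congr rfl (fun v _ => hfib v), Finset.sum_const, Finset.card_univ,
      ZMod.card_units_eq_totient, smul_eq_mul]
  have hq : N.totient / n.totient = (Finset.univ.filter (fun u : (ZMod N)ˣ =>
      ZMod.unitsMap hn u = 1)).card := by
    rw [hcard, Nat.mul_div_cancel_left _ (Nat.totient_pos.2 (NeZero.pos n))]
  rw [hq, ← Finset.prod_pow]
  refine Finset.prod_congr rfl (fun v _ => ?_)
  rw [hfib v]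

theorem prod_one_sub {n : ℕ} [NeZero n] {η : ℂ} (hη : IsPrimitiveRoot η n) :
    ∏ t ∈ (Finset.range n).filter (fun t => Nat.Coprime t n), ‖1 - η ^ t‖ =
      |((eval 1 (cyclotomic n ℤ) : ℤ) : ℝ)| := by
  classical
  have h1 : ((eval 1 (cyclotomic n ℤ) : ℤ) : ℂ) = ∏ μ ∈ primitiveRoots n ℂ, (1 - μ) := by
    have : eval 1 (cyclotomic n ℂ) = ((eval 1 (cyclotomic n ℤ) : ℤ) : ℂ) := by
      rw [← map_cyclotomic n (Int.castRingHom ℂ)]
      have := eval_intCast_map (Int.castRingHom ℂ) (cyclotomic n ℤ) 1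
      simpa using this
    rw [← this, cyclotomic_eq_prod_X_sub_primitiveRoots hη, eval_prod]
    simp
  have h2 : ∏ μ ∈ primitiveRoots n ℂ, (1 - μ) =
      ∏ t ∈ (Finset.range n).filter (fun t => Nat.Coprime t n), (1 - η ^ t) := by
    symm
    refine Finset.prod_bij (fun t _ => η ^ t) ?_ ?_ ?_ ?_
    · intro t ht
      simp only [Finset.mem_filter, Finset.mem_range] at ht
      rw [mem_primitiveRoots (NeZero.pos n)]
      exact hη.pow_of_coprime t ht.2
    · intro s hs t ht h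
      simp only [Finset.mem_filter, Finset.mem_range] at hs ht
      exact hη.pow_inj hs.1 ht.1 h
    · intro μ hμ
      rw [mem_primitiveRoots (NeZero.pos n), hη.isPrimitiveRoot_iff] at hμ
      obtain ⟨i, hi, hc, he⟩ := hμ
      exact ⟨i, Finset.mem_filter.2 ⟨Finset.mem_range.2 hi, hc⟩, he⟩
    · intro t _
      rfl
  rw [← norm_prod, ← h2, ← h1, ← Real.norm_eq_abs]
  simp

theorem zt_norm {N : ℕ} (hN : 0 < N) (k : ℤ) : ‖zt N ^ k‖ = 1 := by
  rw [zt_zpow hN]
  exact Complex.norm_exp_ofReal_mul_I _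

theorem zt_ne {N : ℕ} (hN : 0 < N) : zt N ≠ 0 := (zt_prim hN).ne_zero hN.ne'

theorem two_cs_factor {N : ℕ} (hN : 0 < N) (k : ℤ) :
    ((2 * cs N k : ℝ) : ℂ) = zt N ^ (-k) * (1 + zt N ^ (2 * k)) := by
  rw [two_cs hN, mul_add, mul_one, ← zpow_add₀ (zt_ne hN)]
  rw [add_comm]
  congr 2
  ring

theorem norm_factor {N : ℕ} (hN : 0 < N) (hev : Even N) (k : ℤ) {t : ℕ} (ht : Nat.Coprime t N) :
    |2 * cs N (t * k)| = ‖1 - (-(zt N ^ (2 * k))) ^ t‖ := by
  have hodd : Odd t := by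
    rw [← Nat.not_even_iff_odd]
    intro he
    have h2 := Nat.dvd_gcd he.two_dvd hev.two_dvd
    rw [ht] at h2
    omega
  rw [hodd.neg_pow, sub_neg_eq_add]
  have h1 : |2 * cs N (t * k)| = ‖((2 * cs N (t * k) : ℝ) : ℂ)‖ := by
    rw [Complex.norm_real, Real.norm_eq_abs]
  rw [h1, two_cs_factor hN, norm_mul, zt_norm hN, one_mul, ← zpow_natCast, ← zpow_mul]
  congr 3
  ring

theorem eta_pow {N : ℕ} (hN : 0 < N) (hev : Even N) (k : ℤ) : (-(zt N ^ (2 * k))) ^ N = 1 := by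
  rw [hev.neg_pow, ← zpow_natCast, ← zpow_mul, mul_comm, zpow_mul, zpow_natCast,
    (zt_prim hN).pow_eq_one, one_zpow]

theorem Ep_formula {N : ℕ} (hN : 0 < N) (hev : Even N) (k : ℤ) :
    Ep N k = (((eval 1 (cyclotomic (orderOf (-(zt N ^ (2 * k)))) ℤ)).natAbs ^
      (N.totient / (orderOf (-(zt N ^ (2 * k)))).totient) : ℕ) : ℝ) := by
  set η : ℂ := -(zt N ^ (2 * k)) with hη
  have hpow : η ^ N = 1 := eta_pow hN hev k
  have hdvd : orderOf η ∣ N := orderOf_dvd_of_pow_eq_one hpow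
  have hpos : 0 < orderOf η := Nat.pos_of_dvd_of_pos hdvd hN
  haveI : NeZero N := ⟨hN.ne'⟩
  haveI : NeZero (orderOf η) := ⟨hpos.ne'⟩
  have h1 : Ep N k = ∏ t ∈ (Finset.range N).filter (fun t => Nat.Coprime t N), ‖1 - η ^ t‖ := by
    rw [Ep]
    refine Finset.prod_congr rfl (fun t ht => ?_)
    exact norm_factor hN hev k (Finset.mem_filter.1 ht).2
  rw [h1, prod_coprime_pow hdvd (fun t => ‖1 - η ^ t‖) (fun t => by
    simp only [pow_mod_orderOf]), prod_one_sub (IsPrimitiveRoot.orderOf η)]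
  rw [Nat.cast_pow, Nat.cast_natAbs, Int.cast_abs]

theorem cyc_val {n : ℕ} (hn : 2 ≤ n) :
    (∃ p j : ℕ, p.Prime ∧ n = p ^ (j + 1) ∧ (eval 1 (cyclotomic n ℤ)).natAbs = p) ∨
      (eval 1 (cyclotomic n ℤ)).natAbs = 1 := by
  by_cases h : ∃ p j : ℕ, p.Prime ∧ p ^ j = n
  · left
    obtain ⟨p, j, hp, hj⟩ := h
    rcases j with _ | j
    · rw [pow_zero] at hj
      omega
    · refine ⟨p, j, hp, hj.symm, ?_⟩
      haveI : Fact p.Prime := ⟨hp⟩
      rw [← hj, eval_one_cyclotomic_prime_pow, Int.natAbs_natCast]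
  · right
    push Not at h
    rw [eval_one_cyclotomic_not_prime_pow (fun {p} hp j => h p j hp), Int.natAbs_one]

theorem v2_bound {N n : ℕ} (hN : 0 < N) (hn : 2 ≤ n) (hn2 : n ≠ 2) :
    2 * padicValNat 2 ((eval 1 (cyclotomic n ℤ)).natAbs ^ (N.totient / n.totient)) ≤ N.totient ∧
    (2 * padicValNat 2 ((eval 1 (cyclotomic n ℤ)).natAbs ^ (N.totient / n.totient)) = N.totient →
      n = 4) := by
  have hφ : 0 < N.totient := Nat.totient_pos.2 hN
  rcases cyc_val hn with ⟨p, j, hp, hj, hv⟩ | hv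
  · rw [hv]
    by_cases hp2 : p = 2
    · subst hp2
      rw [padicValNat.prime_pow]
      have hφn : n.totient = 2 ^ j := by
        rw [hj, Nat.totient_prime_pow Nat.prime_two (Nat.succ_pos j)]
        simp
      rw [hφn]
      rcases j with _ | _ | j
      · simp at hj
        exact absurd hj hn2
      · refine ⟨?_, fun _ => by rw [hj]; norm_num⟩
        rw [zero_add, pow_one]
        exact Nat.mul_div_le _ _
      · have h4 : N.totient / 2 ^ (j + 1 + 1) ≤ N.totient / 4 := by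
          apply Nat.div_le_div_left _ (by norm_num)
          calc 4 = 2 ^ 2 := by norm_num
            _ ≤ 2 ^ (j + 1 + 1) := Nat.pow_le_pow_right (by norm_num) (by omega)
        have h5 := Nat.mul_div_le N.totient 4
        constructor
        · omega
        · intro h6
          omega
    · have h0 : padicValNat 2 (p ^ (N.totient / n.totient)) = 0 := by
        apply padicValNat.eq_zero_of_not_dvd
        intro hd
        have := Nat.prime_two.dvd_of_dvd_pow hd
        exact hp2 ((Nat.prime_dvd_prime_iff_eq Nat.prime_two hp).1 this).symm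
      rw [h0]
      exact ⟨by omega, fun h => by omega⟩
  · rw [hv, one_pow, padicValNat_one_right]
    exact ⟨by omega, fun h => by omega⟩

theorem eta_ne_one {N : ℕ} (hN : 0 < N) {k : ℤ} (h0 : cs N k ≠ 0) : -(zt N ^ (2 * k)) ≠ 1 := by
  intro h
  apply h0
  have h1 : zt N ^ (2 * k) = -1 := by rw [← h, neg_neg]
  have h2 := two_cs_factor hN k
  rw [h1, add_neg_cancel, mul_zero] at h2
  have h3 : 2 * cs N k = 0 := by exact_mod_cast h2
  linarith

theorem order_ge_two {N : ℕ} (hN : 0 < N) (hev : Even N) {k : ℤ} (h0 : cs N k ≠ 0) :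
    2 ≤ orderOf (-(zt N ^ (2 * k))) := by
  have h1 : orderOf (-(zt N ^ (2 * k))) ≠ 1 := fun h => eta_ne_one hN h0 (orderOf_eq_one_iff.1 h)
  have h2 : 0 < orderOf (-(zt N ^ (2 * k))) :=
    Nat.pos_of_dvd_of_pos (orderOf_dvd_of_pow_eq_one (eta_pow hN hev k)) hN
  omega

theorem two_cs_sq {N : ℕ} (hN : 0 < N) (k : ℤ) :
    (((2 * cs N k) ^ 2 : ℝ) : ℂ) = 2 + zt N ^ (2 * k) + (zt N ^ (2 * k))⁻¹ := by
  have h := two_cs hN k
  push_cast at h ⊢
  rw [h, ← zpow_neg]
  have e1 : zt N ^ (2 * k) = zt N ^ k * zt N ^ k := by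
    rw [← zpow_add₀ (zt_ne hN)]; congr 1; ring
  have e2 : zt N ^ (-(2 * k)) = zt N ^ (-k) * zt N ^ (-k) := by
    rw [← zpow_add₀ (zt_ne hN)]; congr 1; ring
  have e3 : zt N ^ k * zt N ^ (-k) = 1 := by
    rw [← zpow_add₀ (zt_ne hN)]; simp
  rw [e1, e2]
  linear_combination 2 * e3

theorem order_ne_two {N : ℕ} (hN : 0 < N) {k : ℤ} (ha0 : 0 < cs N k) (ha1 : cs N k < 1) :
    orderOf (-(zt N ^ (2 * k))) ≠ 2 := by
  intro h
  have h1 := pow_orderOf_eq_one (-(zt N ^ (2 * k)))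
  rw [h] at h1
  have h2 : (-(zt N ^ (2 * k)) - 1) * (-(zt N ^ (2 * k)) + 1) = 0 := by linear_combination h1
  rcases mul_eq_zero.1 h2 with h3 | h3
  · exact eta_ne_one hN ha0.ne' (by linear_combination h3)
  · have h4 : zt N ^ (2 * k) = 1 := by linear_combination -h3
    have h5 := two_cs_sq hN k
    rw [h4, inv_one] at h5
    have h6 : (2 * cs N k) ^ 2 = 4 := by
      have : (((2 * cs N k) ^ 2 : ℝ) : ℂ) = ((4 : ℝ) : ℂ) := by rw [h5]; norm_num
      exact_mod_cast this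
    nlinarith

theorem sq_of_order_four {N : ℕ} (hN : 0 < N) {k : ℤ}
    (h : orderOf (-(zt N ^ (2 * k))) = 4) : cs N k ^ 2 = 1 / 2 := by
  set η : ℂ := -(zt N ^ (2 * k)) with hη
  have h1 : η ^ 4 = 1 := by rw [← h]; exact pow_orderOf_eq_one η
  have h2 : η ^ 2 ≠ 1 := by
    intro h2
    have := orderOf_dvd_of_pow_eq_one h2
    rw [h] at this
    omega
  have h3 : (η ^ 2 - 1) * (η ^ 2 + 1) = 0 := by linear_combination h1
  have h4 : η ^ 2 = -1 := by
    rcases mul_eq_zero.1 h3 with h5 | h5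
    · exact absurd (by linear_combination h5) h2
    · linear_combination h5
  have h5 := two_cs_sq hN k
  have h6 : zt N ^ (2 * k) = -η := by rw [hη, neg_neg]
  have h7 : (zt N ^ (2 * k))⁻¹ = η := by
    rw [h6]
    apply inv_eq_of_mul_eq_one_right
    linear_combination -h4
  rw [h7, h6] at h5
  have h8 : (2 * cs N k) ^ 2 = 2 := by
    have : (((2 * cs N k) ^ 2 : ℝ) : ℂ) = ((2 : ℝ) : ℂ) := by rw [h5]; push_cast; ring
    exact_mod_cast this
  nlinarith

/-- TARGET 1: for `N` even and `2 cos (2πk/N) ≠ 0`, `Ep N k` is a positive integer. -/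
theorem Ep_int {N : ℕ} (hN : 0 < N) (hev : Even N) {k : ℤ} (h0 : cs N k ≠ 0) :
    ∃ e : ℕ, 0 < e ∧ Ep N k = e := by
  refine ⟨_, ?_, Ep_formula hN hev k⟩
  apply Nat.pow_pos
  rcases cyc_val (order_ge_two hN hev h0) with ⟨p, j, hp, hj, hv⟩ | hv
  · rw [hv]; exact hp.pos
  · rw [hv]; norm_num

/-- TARGET 2: rational angles with `cos γ = cos α cos β` in `(0, π/2)`: only `α = β = π/4`. -/
theorem lemmaA {N : ℕ} (hN : 0 < N) (hev : Even N) {a b c : ℝ} (ha : NCos N a) (hb : NCos N b)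
    (hc : NCos N c) (ha0 : 0 < a) (ha1 : a < 1) (hb0 : 0 < b) (hb1 : b < 1) (h : c = a * b) :
    a ^ 2 = 1 / 2 ∧ b ^ 2 = 1 / 2 := by
  obtain ⟨k1, rfl⟩ := ha
  obtain ⟨k2, rfl⟩ := hb
  obtain ⟨k3, rfl⟩ := hc
  have hc0 : cs N k3 ≠ 0 := by rw [h]; positivity
  have hrel : ∀ t : ℕ, Nat.Coprime t N →
      |2 * cs N (t * k1)| * |2 * cs N (t * k2)| = 2 * |2 * cs N (t * k3)| := by
    intro t ht
    have h1 := conj_cs hN (![k1, k2, k3] : Fin 3 → ℤ)
      (MvPolynomial.X 0 * MvPolynomial.X 1 - 2 * MvPolynomial.X 2) (by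
        simp [h]
        ring) t ht
    simp at h1
    have h2 : 2 * cs N (t * k1) * (2 * cs N (t * k2)) = 2 * (2 * cs N (t * k3)) := by linarith
    rw [← abs_mul, h2, abs_mul 2 (2 * cs N (t * k3)), abs_two]
  have hprod : Ep N k1 * Ep N k2 = 2 ^ N.totient * Ep N k3 := by
    rw [Ep, Ep, Ep, ← Finset.prod_mul_distrib]
    rw [Finset.prod_congr rfl (fun t ht => hrel t (Finset.mem_filter.1 ht).2),
      Finset.prod_mul_distrib, Finset.prod_const]
    congr 2
    rw [Nat.totient_eq_card_coprime]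
    congr 1
    ext t
    simp [Nat.coprime_comm]
  rw [Ep_formula hN hev, Ep_formula hN hev, Ep_formula hN hev] at hprod
  have n1 := order_ge_two hN hev ha0.ne'
  have n2 := order_ge_two hN hev hb0.ne'
  have n3 := order_ge_two hN hev hc0
  have b1 := v2_bound hN n1 (order_ne_two hN ha0 ha1)
  have b2 := v2_bound hN n2 (order_ne_two hN hb0 hb1)
  have pos : ∀ n : ℕ, 2 ≤ n → ∀ e : ℕ, (eval 1 (cyclotomic n ℤ)).natAbs ^ e ≠ 0 := by
    intro n hn e
    apply pow_ne_zero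
    rcases cyc_val hn with ⟨p, j, hp, hj, hv⟩ | hv
    · rw [hv]; exact hp.ne_zero
    · rw [hv]; norm_num
  have hp1 := pos _ n1 (N.totient / (orderOf (-(zt N ^ (2 * k1)))).totient)
  have hp2 := pos _ n2 (N.totient / (orderOf (-(zt N ^ (2 * k2)))).totient)
  have hp3 := pos _ n3 (N.totient / (orderOf (-(zt N ^ (2 * k3)))).totient)
  set E1 := (eval 1 (cyclotomic (orderOf (-(zt N ^ (2 * k1)))) ℤ)).natAbs ^
      (N.totient / (orderOf (-(zt N ^ (2 * k1)))).totient) with hE1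
  set E2 := (eval 1 (cyclotomic (orderOf (-(zt N ^ (2 * k2)))) ℤ)).natAbs ^
      (N.totient / (orderOf (-(zt N ^ (2 * k2)))).totient) with hE2
  set E3 := (eval 1 (cyclotomic (orderOf (-(zt N ^ (2 * k3)))) ℤ)).natAbs ^
      (N.totient / (orderOf (-(zt N ^ (2 * k3)))).totient) with hE3
  have hnat : E1 * E2 = 2 ^ N.totient * E3 := by exact_mod_cast hprod
  have hv := congrArg (padicValNat 2) hnat
  rw [padicValNat.mul hp1 hp2, padicValNat.mul (by positivity) hp3, padicValNat.prime_pow] at hv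
  refine ⟨sq_of_order_four hN (b1.2 ?_), sq_of_order_four hN (b2.2 ?_)⟩
  · have := b1.1; have := b2.1; omega
  · have := b1.1; have := b2.1; omega

end Pool.Agent.Helper644.FC
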