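import Mathlib
import Pool.Agent.Helper644.FCA

set_option autoImplicit false

namespace Pool.Agent.Helper644.FC

open Polynomial

/-! ### Ramanujan sums -/

theorem sum_nthRoots {n : ℕ} (hn : 0 < n) :
    ∑ x ∈ nthRootsFinset n (1 : ℂ), x = if n = 1 then 1 else 0 := by
  have hp := zt_prim hn
  have h1 : ∑ x ∈ nthRootsFinset n (1 : ℂ), x = ∑ i ∈ Finset.range n, zt n ^ i := by
    symm
    refine Finset.sum_nbij (fun i => zt n ^ i) ?_ ?_ ?_ ?_
    · intro i _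
      rw [Polynomial.mem_nthRootsFinset hn, ← pow_mul, mul_comm, pow_mul, hp.pow_eq_one, one_pow]
    · intro i hi j hj h
      exact hp.pow_inj (by simpa using hi) (by simpa using hj) h
    · intro x hx
      rw [Finset.mem_coe, Polynomial.mem_nthRootsFinset hn] at hx
      have : NeZero n := ⟨hn.ne'⟩
      obtain ⟨i, hi, rfl⟩ := hp.eq_pow_of_pow_eq_one hx
      exact ⟨i, by simpa using hi, rfl⟩
    · intro i _; rfl
  rw [h1]
  split_ifs with h
  · subst h; simp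
  · exact hp.geom_sum_eq_zero (by omega)

theorem sum_prim {n : ℕ} (hn : 0 < n) :
    ∑ x ∈ primitiveRoots n ℂ, x = ((ArithmeticFunction.moebius n : ℤ) : ℂ) := by
  have key : ∀ n > 0, ∑ i ∈ n.divisors, (∑ x ∈ primitiveRoots i ℂ, x)
      = (fun m : ℕ => if m = 1 then (1 : ℂ) else 0) n := by
    intro n hn
    simp only
    rw [← sum_nthRoots hn, IsPrimitiveRoot.nthRoots_one_eq_biUnion_primitiveRoots,
      Finset.sum_biUnion]
    intro i _ j _ hij
    exact IsPrimitiveRoot.disjoint hij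
  have h2 := (ArithmeticFunction.sum_eq_iff_sum_mul_moebius_eq
    (f := fun i => ∑ x ∈ primitiveRoots i ℂ, x)
    (g := fun m : ℕ => if m = 1 then (1 : ℂ) else 0)).1 key n hn
  rw [← h2, Finset.sum_eq_single (n, 1)]
  · simp
  · rintro ⟨a, b⟩ hab hne
    rw [Nat.mem_divisorsAntidiagonal] at hab
    have : b ≠ 1 := by
      rintro rfl
      apply hne
      simp at hab
      simp [hab]
    simp [this]
  · intro h
    exfalso; apply h
    simp [hn.ne']

theorem zt_pow_re (n : ℕ) (hn : 0 < n) (t : ℕ) : (zt n ^ t).re = cs n t := by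
  rw [← zpow_natCast, zt_zpow hn, Complex.exp_ofReal_mul_I_re]
  rfl

/-- the residues prime to `N` -/
def Lam (N : ℕ) : Finset ℕ := (Finset.range N).filter (fun t => Nat.Coprime t N)

theorem sum_cs_Lam {n : ℕ} (hn : 0 < n) :
    ∑ t ∈ Lam n, cs n t = ((ArithmeticFunction.moebius n : ℤ) : ℝ) := by
  have hp := zt_prim hn
  have h1 : ∑ t ∈ Lam n, zt n ^ t = ∑ x ∈ primitiveRoots n ℂ, x := by
    refine Finset.sum_nbij (fun i => zt n ^ i) ?_ ?_ ?_ ?_
    · intro i hi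
      simp only [Lam, Finset.mem_filter, Finset.mem_range] at hi
      rw [mem_primitiveRoots hn]
      exact hp.pow_of_coprime i hi.2
    · intro i hi j hj h
      simp only [Lam, Finset.coe_filter, Finset.mem_range, Set.mem_ofPred_eq] at hi hj
      exact hp.pow_inj hi.1 hj.1 h
    · intro x hx
      rw [Finset.mem_coe, mem_primitiveRoots hn] at hx
      have : NeZero n := ⟨hn.ne'⟩
      obtain ⟨i, hi, hc, rfl⟩ := (hp.isPrimitiveRoot_iff).1 hx
      exact ⟨i, Finset.mem_coe.2 (Finset.mem_filter.2 ⟨Finset.mem_range.2 hi, hc⟩), rfl⟩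
    · intro i _; rfl
  rw [sum_prim hn] at h1
  have h2 := congrArg Complex.re h1
  rw [Complex.re_sum] at h2
  simp only [zt_pow_re n hn] at h2
  rw [h2]
  simp

theorem cs_congr {n : ℕ} (hn : 0 < n) {k l : ℤ} (h : k ≡ l [ZMOD n]) : cs n k = cs n l := by
  obtain ⟨m, hm⟩ := h.symm.dvd
  have : k = l + n * m := by linarith
  rw [this, cs, cs]
  have h1 : 2 * Real.pi * ((l + n * m : ℤ) : ℝ) / n = 2 * Real.pi * l / n + m * (2 * Real.pi) := by
    have : (n : ℝ) ≠ 0 := by exact_mod_cast hn.ne'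
    push_cast
    field_simp
  rw [h1, Real.cos_add_int_mul_two_pi]

theorem cs_neg (n : ℕ) (k : ℤ) : cs n (-k) = cs n k := by
  rw [cs, cs]
  push_cast
  rw [show 2 * Real.pi * -(k : ℝ) / n = -(2 * Real.pi * k / n) by ring, Real.cos_neg]

/-- scaling -/
theorem cs_scale {n g : ℕ} (hg : 0 < g) (k : ℤ) : cs (n * g) (k * g) = cs n k := by
  have : (g : ℝ) ≠ 0 := by exact_mod_cast hg.ne'
  rw [cs, cs]
  congr 1
  push_cast
  rcases Nat.eq_zero_or_pos n with h | h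
  · subst h; simp
  · have : (n : ℝ) ≠ 0 := by exact_mod_cast h.ne'
    field_simp

theorem sum_Lam_units {N : ℕ} [NeZero N] (f : ℕ → ℝ) :
    ∑ t ∈ Lam N, f t = ∑ u : (ZMod N)ˣ, f ((u : ZMod N).val) := by
  symm
  refine Finset.sum_nbij (fun u => ((u : (ZMod N)ˣ) : ZMod N).val) ?_ ?_ ?_ ?_
  · intro u _
    simp only [Lam, Finset.mem_filter, Finset.mem_range]
    exact ⟨ZMod.val_lt _, ZMod.val_coe_unit_coprime u⟩
  · intro u _ v _ h
    exact Units.ext (ZMod.val_injective N h)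
  · intro t ht
    simp only [Lam, Finset.coe_filter, Finset.mem_range, Set.mem_ofPred_eq] at ht
    refine ⟨ZMod.unitOfCoprime t ht.2, by simp, ?_⟩
    simp only [ZMod.coe_unitOfCoprime]
    exact ZMod.val_natCast_of_lt ht.1
  · intro u _; rfl

theorem avg_surj {U V : Type*} [Group U] [Group V] [Fintype U] [Fintype V] (π : U →* V)
    (hπ : Function.Surjective π) (F : V → ℝ) :
    (Fintype.card V : ℝ) * ∑ u, F (π u) = (Fintype.card U : ℝ) * ∑ v, F v := by
  have h1 : ∀ v : V, ∑ u, F (π u) = ∑ u, F (π u * v) := by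
    intro v
    obtain ⟨w, rfl⟩ := hπ v
    rw [← Equiv.sum_comp (Equiv.mulRight w) (fun u => F (π u))]
    simp
  have h2 : ∑ v : V, ∑ u, F (π u) = ∑ v : V, ∑ u, F (π u * v) :=
    Finset.sum_congr rfl fun v _ => h1 v
  rw [Finset.sum_comm (f := fun v u => F (π u * v))] at h2
  have h3 : ∀ u, ∑ v, F (π u * v) = ∑ v, F v := by
    intro u
    rw [← Equiv.sum_comp (Equiv.mulLeft (π u)) (fun v => F v)]
    simp
  simp only [h3] at h2
  simpa using h2

theorem unitsMap_val_mod {n N : ℕ} [NeZero N] (h : n ∣ N) (u : (ZMod N)ˣ) :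
    ((ZMod.unitsMap h u : (ZMod n)ˣ) : ZMod n).val = ((u : ZMod N).val) % n := by
  rw [ZMod.unitsMap_val, ← ZMod.natCast_val, ZMod.val_natCast]

/-- Ramanujan sum average -/
theorem ramanujan {n g c : ℕ} (hn : 0 < n) (hg : 0 < g) (hc : c.Coprime n) :
    (Nat.totient n : ℝ) * ∑ t ∈ Lam (n * g), cs (n * g) (t * ((c * g : ℕ) : ℤ)) =
      (Nat.totient (n * g) : ℝ) * ((ArithmeticFunction.moebius n : ℤ) : ℝ) := by
  have hN : 0 < n * g := Nat.mul_pos hn hg
  have i1 : NeZero n := ⟨hn.ne'⟩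
  have i2 : NeZero (n * g) := ⟨hN.ne'⟩
  have h1 : ∀ t : ℕ, cs (n * g) (t * ((c * g : ℕ) : ℤ)) = cs n (t * c) := by
    intro t
    rw [← cs_scale hg (t * c)]
    congr 1
    push_cast; ring
  simp only [h1]
  rw [sum_Lam_units (fun t => cs n (t * c))]
  set F : (ZMod n)ˣ → ℝ := fun v => cs n (((v : ZMod n).val : ℤ) * c) with hF
  have h2 : ∀ u : (ZMod (n * g))ˣ, cs n ((((u : ZMod (n * g)).val : ℕ) : ℤ) * c) =
      F (ZMod.unitsMap (Dvd.intro g rfl) u) := by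
    intro u
    simp only [hF]
    rw [unitsMap_val_mod]
    apply cs_congr hn
    push_cast
    exact (Int.ModEq.mul_right _ (Int.mod_modEq _ _)).symm
  simp only [h2]
  have h3 := avg_surj (ZMod.unitsMap (Dvd.intro g rfl : n ∣ n * g))
    (ZMod.unitsMap_surjective _) F
  rw [ZMod.card_units_eq_totient, ZMod.card_units_eq_totient] at h3
  rw [h3]
  congr 1
  rw [← sum_cs_Lam hn, sum_Lam_units (fun t => cs n t),
    ← Equiv.sum_comp (Equiv.mulRight (ZMod.unitOfCoprime c hc))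
      (fun u : (ZMod n)ˣ => cs n (((u : ZMod n).val : ℕ) : ℤ))]
  apply Finset.sum_congr rfl
  intro v _
  simp only [hF]
  apply cs_congr hn
  simp only [Equiv.coe_mulRight, Units.val_mul, ZMod.coe_unitOfCoprime]
  rw [ZMod.val_mul, ZMod.val_natCast]
  push_cast
  have e1 : ((v : ZMod n).val : ℤ) * c ≡ ((v : ZMod n).val : ℤ) * (c % n) [ZMOD n] :=
    Int.ModEq.mul_left _ (Int.mod_modEq _ _).symm
  exact e1.trans (Int.mod_modEq _ _).symm


theorem dvd120_of_totient_le {n : ℕ} (hn : 0 < n) (h : Nat.totient n ≤ 4) : n ∣ 120 := by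
  rw [Nat.dvd_iff_prime_pow_dvd_dvd]
  intro p k hp hk
  rcases Nat.eq_zero_or_pos k with rfl | hk0
  · simp
  have h1 : Nat.totient (p ^ k) ≤ 4 :=
    (Nat.le_of_dvd (Nat.totient_pos.2 hn) (Nat.totient_dvd_of_dvd hk)).trans h
  rw [Nat.totient_prime_pow hp hk0] at h1
  have hp2 := hp.two_le
  have hpk : 1 ≤ p ^ (k - 1) := Nat.one_le_pow _ _ hp.pos
  have hp5 : p ≤ 5 := by
    have : 1 * (p - 1) ≤ p ^ (k - 1) * (p - 1) := Nat.mul_le_mul_right _ hpk
    omega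
  have hk3 : k ≤ 3 := by
    by_contra hcon
    have h2 : 2 ^ 3 ≤ p ^ (k - 1) :=
      (Nat.pow_le_pow_left hp2 3).trans (Nat.pow_le_pow_right hp.pos (by omega))
    have : p ^ (k - 1) * 1 ≤ p ^ (k - 1) * (p - 1) := Nat.mul_le_mul_left _ (by omega)
    omega
  interval_cases p <;> interval_cases k <;> revert h1 <;> revert hp <;> decide

theorem mu_tot_aux : ∀ n ∈ Nat.divisors 120, n ≠ 1 → n ≠ 6 →
    4 * ArithmeticFunction.moebius n ≤ Nat.totient n ∧
      (4 * ArithmeticFunction.moebius n = Nat.totient n → n = 10) := by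
  decide +kernel

theorem mu_tot {n : ℕ} (hn : 0 < n) (h1 : n ≠ 1) (h6 : n ≠ 6) :
    4 * ArithmeticFunction.moebius n ≤ Nat.totient n ∧
      (4 * ArithmeticFunction.moebius n = Nat.totient n → n = 10) := by
  rcases Nat.lt_or_ge 4 (Nat.totient n) with h | h
  · have h2 : ArithmeticFunction.moebius n ≤ 1 := by
      have := ArithmeticFunction.abs_moebius_le_one (n := n)
      exact (abs_le.1 this).2
    have h3 : (4 : ℤ) < Nat.totient n := by exact_mod_cast h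
    constructor
    · linarith
    · intro h4
      linarith
  · have h2 := dvd120_of_totient_le hn h
    exact mu_tot_aux n (by simp [h2]) h1 h6

/-- a residue prime to `n` in `(n/3, n/2]` -/
theorem exists_mid {n : ℕ} (hn : 0 < n) (h1 : n ≠ 1) (h3 : n ≠ 3) (h4 : n ≠ 4) (h6 : n ≠ 6)
    (h10 : n ≠ 10) : ∃ s : ℕ, s.Coprime n ∧ n < 3 * s ∧ 2 * s ≤ n := by
  rcases Nat.even_or_odd' n with ⟨m, hm | hm⟩
  · rcases Nat.even_or_odd' m with ⟨r, hr | hr⟩
    · -- n = 4 r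
      refine ⟨2 * r - 1, ?_, by omega, by omega⟩
      have : n = 2 + (2 * r - 1) * 2 := by omega
      rw [this, Nat.coprime_add_mul_left_right]
      rw [Nat.coprime_two_right]
      exact ⟨r - 1, by omega⟩
    · -- n = 4 r + 2
      rcases Nat.eq_zero_or_pos r with h0 | h0
      · subst h0
        refine ⟨1, ?_, by omega, by omega⟩
        simp
      · refine ⟨2 * r - 1, ?_, by omega, by omega⟩
        have : n = 4 + (2 * r - 1) * 2 := by omega
        rw [this, Nat.coprime_add_mul_left_right]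
        rw [show (4 : ℕ) = 2 ^ 2 by norm_num]
        apply Nat.Coprime.pow_right
        rw [Nat.coprime_two_right]
        exact ⟨r - 1, by omega⟩
  · refine ⟨m, ?_, by omega, by omega⟩
    rw [hm, add_comm, mul_comm, Nat.coprime_add_mul_left_right]
    simp

theorem cs_lt_neg_half {n s : ℕ} (hn : 0 < n) (h1 : n < 3 * s) (h2 : 2 * s ≤ n) :
    cs n s < - (1 / 2) := by
  have h3 : -(1 / 2 : ℝ) = Real.cos (Real.pi - Real.pi / 3) := by
    rw [Real.cos_pi_sub, Real.cos_pi_div_three]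
  rw [h3, cs]
  have hn' : (0 : ℝ) < n := by exact_mod_cast hn
  have e1 : (n : ℝ) < 3 * s := by exact_mod_cast h1
  have e2 : 2 * (s : ℝ) ≤ n := by exact_mod_cast h2
  have hpi := Real.pi_pos
  apply Real.cos_lt_cos_of_nonneg_of_le_pi
  · linarith
  · rw [div_le_iff₀ hn']
    push_cast
    nlinarith
  · rw [lt_div_iff₀ hn']
    push_cast
    nlinarith

/-- lifting a residue prime to `n` -/
theorem exists_lift {n g c : ℕ} (hn : 0 < n) (hg : 0 < g) (hc : c.Coprime n) {s : ℕ}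
    (hs : s.Coprime n) : ∃ t : ℕ, t.Coprime (n * g) ∧
      cs (n * g) (t * ((c * g : ℕ) : ℤ)) = cs n s := by
  have hN : 0 < n * g := Nat.mul_pos hn hg
  have i1 : NeZero n := ⟨hn.ne'⟩
  have i2 : NeZero (n * g) := ⟨hN.ne'⟩
  obtain ⟨u, hu⟩ := ZMod.unitsMap_surjective (Dvd.intro g rfl : n ∣ n * g)
    (ZMod.unitOfCoprime s hs * (ZMod.unitOfCoprime c hc)⁻¹)
  refine ⟨(u : ZMod (n * g)).val, ZMod.val_coe_unit_coprime u, ?_⟩
  have h1 : ∀ t : ℕ, cs (n * g) (t * ((c * g : ℕ) : ℤ)) = cs n (t * c) := by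
    intro t
    rw [← cs_scale hg (t * c)]
    congr 1
    push_cast; ring
  rw [h1]
  apply cs_congr hn
  have h2 : ZMod.unitsMap (Dvd.intro g rfl : n ∣ n * g) u * ZMod.unitOfCoprime c hc =
      ZMod.unitOfCoprime s hs := by
    rw [hu]; simp
  have h3 := congrArg (fun v : (ZMod n)ˣ => (v : ZMod n)) h2
  simp only [Units.val_mul, ZMod.coe_unitOfCoprime, ZMod.unitsMap_val] at h3
  rw [← ZMod.natCast_val] at h3
  rw [← ZMod.intCast_eq_intCast_iff]
  push_cast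
  exact h3

/-- reduced representative -/
theorem exists_rep {N : ℕ} (hN : 0 < N) {k : ℤ} (h0 : 0 < cs N k) (h1 : cs N k < 1) :
    ∃ m : ℕ, 0 < m ∧ 4 * m < N ∧ ∀ t : ℤ, cs N (t * k) = cs N (t * m) := by
  have hN' : (0 : ℤ) < N := by exact_mod_cast hN
  have hNR : (0 : ℝ) < N := by exact_mod_cast hN
  -- first get m with 0 ≤ m, 2 m ≤ N
  obtain ⟨m, hm2, hm⟩ : ∃ m : ℕ, 2 * m ≤ N ∧ (k ≡ m [ZMOD N] ∨ k ≡ -m [ZMOD N]) := by
    have e0 : 0 ≤ k % N := Int.emod_nonneg _ hN'.ne'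
    have e1 : k % N < N := Int.emod_lt_of_pos _ hN'
    have e2 : k ≡ k % N [ZMOD N] := (Int.mod_modEq _ _).symm
    rcases le_or_gt (2 * (k % N)) N with h | h
    · refine ⟨(k % N).toNat, by omega, Or.inl ?_⟩
      rw [Int.toNat_of_nonneg e0]; exact e2
    · refine ⟨(N - k % N).toNat, by omega, Or.inr ?_⟩
      rw [Int.toNat_of_nonneg (by omega)]
      refine e2.trans ?_
      rw [show -((N : ℤ) - k % N) = k % N - N by ring]
      exact (Int.modEq_iff_dvd.2 ⟨-1, by ring⟩)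
  have hall : ∀ t : ℤ, cs N (t * k) = cs N (t * m) := by
    intro t
    rcases hm with hm | hm
    · exact cs_congr hN (hm.mul_left t)
    · rw [cs_congr hN (hm.mul_left t), mul_neg, cs_neg]
  have hk := hall 1
  rw [one_mul, one_mul] at hk
  rw [hk] at h0 h1
  have hpi := Real.pi_pos
  have hmR : 2 * (m : ℝ) ≤ N := by exact_mod_cast hm2
  refine ⟨m, ?_, ?_, hall⟩
  · rcases Nat.eq_zero_or_pos m with h | h
    · subst h
      simp [cs] at h1
    · exact h
  · by_contra hcon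
    rw [not_lt] at hcon
    have hcR : (N : ℝ) ≤ 4 * m := by exact_mod_cast hcon
    have : cs N m ≤ 0 := by
      rw [cs]
      apply Real.cos_nonpos_of_pi_div_two_le_of_le
      · rw [le_div_iff₀ hNR]; push_cast; nlinarith
      · rw [div_le_iff₀ hNR]; push_cast; nlinarith
    linarith


theorem amgm_one {S : Finset ℕ} {x : ℕ → ℝ} (h0 : ∀ t ∈ S, 0 ≤ x t) (h1 : 1 ≤ ∏ t ∈ S, x t) :
    (S.card : ℝ) ≤ ∑ t ∈ S, x t := by
  have hpos : ∀ t ∈ S, 0 < x t := by
    intro t ht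
    refine lt_of_le_of_ne (h0 t ht) ?_
    intro h
    rw [Finset.prod_eq_zero ht h.symm] at h1
    linarith
  have h2 : Real.log (∏ t ∈ S, x t) = ∑ t ∈ S, Real.log (x t) :=
    Real.log_prod (fun t ht => (hpos t ht).ne')
  have h3 : 0 ≤ ∑ t ∈ S, Real.log (x t) := by
    rw [← h2]; exact Real.log_nonneg h1
  have h4 : ∑ t ∈ S, Real.log (x t) ≤ ∑ t ∈ S, (x t - 1) :=
    Finset.sum_le_sum fun t ht => Real.log_le_sub_one_of_pos (hpos t ht)
  rw [Finset.sum_sub_distrib] at h4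
  simp at h4
  linarith

theorem card_Lam (N : ℕ) : (Lam N).card = Nat.totient N := by
  rw [Nat.totient_eq_card_coprime, Lam]
  congr 1
  ext t
  simp only [Finset.mem_filter, Finset.mem_range, Nat.coprime_comm]

theorem prod_to_sum (N : ℕ) (k l : ℤ) : 2 * (cs N k * cs N l) = cs N (k + l) + cs N (k - l) := by
  rw [cs, cs, cs, cs]
  have e1 : 2 * Real.pi * ((k + l : ℤ) : ℝ) / N = 2 * Real.pi * k / N + 2 * Real.pi * l / N := by
    push_cast; ring
  have e2 : 2 * Real.pi * ((k - l : ℤ) : ℝ) / N = 2 * Real.pi * k / N - 2 * Real.pi * l / N := by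
    push_cast; ring
  rw [e1, e2, Real.cos_add, Real.cos_sub]
  ring

theorem sq_sum (N : ℕ) (k l : ℤ) :
    cs N k ^ 2 + cs N l ^ 2 = 1 + cs N (k + l) * cs N (k - l) := by
  rw [cs, cs, cs, cs]
  have e1 : 2 * Real.pi * ((k + l : ℤ) : ℝ) / N = 2 * Real.pi * k / N + 2 * Real.pi * l / N := by
    push_cast; ring
  have e2 : 2 * Real.pi * ((k - l : ℤ) : ℝ) / N = 2 * Real.pi * k / N - 2 * Real.pi * l / N := by
    push_cast; ring
  rw [e1, e2, Real.cos_add, Real.cos_sub]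
  have h1 := Real.sin_sq_add_cos_sq (2 * Real.pi * k / N)
  have h2 := Real.sin_sq_add_cos_sq (2 * Real.pi * l / N)
  have h3 : Real.sin (2 * Real.pi * k / N) ^ 2 = 1 - Real.cos (2 * Real.pi * k / N) ^ 2 := by
    linarith
  have h4 : Real.sin (2 * Real.pi * l / N) ^ 2 = 1 - Real.cos (2 * Real.pi * l / N) ^ 2 := by
    linarith
  have h5 : (Real.cos (2 * Real.pi * k / N) * Real.cos (2 * Real.pi * l / N) -
      Real.sin (2 * Real.pi * k / N) * Real.sin (2 * Real.pi * l / N)) *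
      (Real.cos (2 * Real.pi * k / N) * Real.cos (2 * Real.pi * l / N) +
      Real.sin (2 * Real.pi * k / N) * Real.sin (2 * Real.pi * l / N)) =
      Real.cos (2 * Real.pi * k / N) ^ 2 * Real.cos (2 * Real.pi * l / N) ^ 2 -
      Real.sin (2 * Real.pi * k / N) ^ 2 * Real.sin (2 * Real.pi * l / N) ^ 2 := by ring
  rw [h5, h3, h4]
  ring

/-- the averaged inequality -/
theorem avg_ineq {N : ℕ} (hN : 0 < N) {k l : ℤ} (hk : 1 ≤ Ep N k) (hl : 1 ≤ Ep N l)
    (hpos : ∀ t : ℕ, t.Coprime N → 0 ≤ cs N (t * k) * cs N (t * l))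
    {nA gA cA nB gB cB : ℕ} (hNA : N = nA * gA) (hNB : N = nB * gB)
    (hcA : cA.Coprime nA) (hcB : cB.Coprime nB)
    (hA : k + l = ((cA * gA : ℕ) : ℤ)) (hB : k - l = ((cB * gB : ℕ) : ℤ)) :
    (1 / 2 : ℝ) ≤ ((ArithmeticFunction.moebius nA : ℤ) : ℝ) / Nat.totient nA +
      ((ArithmeticFunction.moebius nB : ℤ) : ℝ) / Nat.totient nB := by
  have hnA : 0 < nA := Nat.pos_of_ne_zero (by rintro rfl; simp at hNA; omega)
  have hgA : 0 < gA := Nat.pos_of_ne_zero (by rintro rfl; simp at hNA; omega)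
  have hnB : 0 < nB := Nat.pos_of_ne_zero (by rintro rfl; simp at hNB; omega)
  have hgB : 0 < gB := Nat.pos_of_ne_zero (by rintro rfl; simp at hNB; omega)
  have rA := ramanujan hnA hgA hcA
  have rB := ramanujan hnB hgB hcB
  rw [← hNA, ← hA] at rA
  rw [← hNB, ← hB] at rB
  have hφA : (0 : ℝ) < Nat.totient nA := by exact_mod_cast Nat.totient_pos.2 hnA
  have hφB : (0 : ℝ) < Nat.totient nB := by exact_mod_cast Nat.totient_pos.2 hnB
  have hφ : (0 : ℝ) < Nat.totient N := by exact_mod_cast Nat.totient_pos.2 hN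
  have h1 : (Nat.totient N : ℝ) ≤ ∑ t ∈ Lam N, |2 * cs N (t * k)| * |2 * cs N (t * l)| := by
    rw [← card_Lam]
    apply amgm_one
    · intro t _; positivity
    · rw [Finset.prod_mul_distrib]
      exact one_le_mul_of_one_le_of_one_le hk hl
  have h2 : ∀ t ∈ Lam N, |2 * cs N (t * k)| * |2 * cs N (t * l)| =
      2 * cs N (t * (k + l)) + 2 * cs N (t * (k - l)) := by
    intro t ht
    simp only [Lam, Finset.mem_filter] at ht
    rw [← abs_mul, abs_of_nonneg (by have := hpos t ht.2; nlinarith)]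
    have := prod_to_sum N (t * k) (t * l)
    rw [mul_add, mul_sub]
    linarith
  rw [Finset.sum_congr rfl h2, Finset.sum_add_distrib, ← Finset.mul_sum, ← Finset.mul_sum] at h1
  have h3 : ∑ t ∈ Lam N, cs N (t * (k + l)) =
      Nat.totient N * (((ArithmeticFunction.moebius nA : ℤ) : ℝ) / Nat.totient nA) := by
    field_simp
    linarith
  have h4 : ∑ t ∈ Lam N, cs N (t * (k - l)) =
      Nat.totient N * (((ArithmeticFunction.moebius nB : ℤ) : ℝ) / Nat.totient nB) := by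
    field_simp
    linarith
  rw [h3, h4] at h1
  have h5 : (Nat.totient N : ℝ) * (1 / 2) ≤ Nat.totient N *
      (((ArithmeticFunction.moebius nA : ℤ) : ℝ) / Nat.totient nA +
      ((ArithmeticFunction.moebius nB : ℤ) : ℝ) / Nat.totient nB) := by linarith
  exact le_of_mul_le_mul_left h5 hφ

theorem six_or_ten {nA nB : ℕ} (hA : 0 < nA) (hB : 0 < nB) (hA1 : nA ≠ 1) (hB1 : nB ≠ 1)
    (h : (1 / 2 : ℝ) ≤ ((ArithmeticFunction.moebius nA : ℤ) : ℝ) / Nat.totient nA +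
      ((ArithmeticFunction.moebius nB : ℤ) : ℝ) / Nat.totient nB) :
    nA = 6 ∨ nB = 6 ∨ (nA = 10 ∧ nB = 10) := by
  by_cases hA6 : nA = 6
  · exact Or.inl hA6
  by_cases hB6 : nB = 6
  · exact Or.inr (Or.inl hB6)
  right; right
  obtain ⟨a1, a2⟩ := mu_tot hA hA1 hA6
  obtain ⟨b1, b2⟩ := mu_tot hB hB1 hB6
  have hφA : (0 : ℝ) < Nat.totient nA := by exact_mod_cast Nat.totient_pos.2 hA
  have hφB : (0 : ℝ) < Nat.totient nB := by exact_mod_cast Nat.totient_pos.2 hB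
  have a1' : 4 * ((ArithmeticFunction.moebius nA : ℤ) : ℝ) ≤ Nat.totient nA := by exact_mod_cast a1
  have b1' : 4 * ((ArithmeticFunction.moebius nB : ℤ) : ℝ) ≤ Nat.totient nB := by exact_mod_cast b1
  have a3 : ((ArithmeticFunction.moebius nA : ℤ) : ℝ) / Nat.totient nA ≤ 1 / 4 := by
    rw [div_le_iff₀ hφA]; linarith
  have b3 : ((ArithmeticFunction.moebius nB : ℤ) : ℝ) / Nat.totient nB ≤ 1 / 4 := by
    rw [div_le_iff₀ hφB]; linarith
  have a4 : ((ArithmeticFunction.moebius nA : ℤ) : ℝ) / Nat.totient nA = 1 / 4 := by linarith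
  have b4 : ((ArithmeticFunction.moebius nB : ℤ) : ℝ) / Nat.totient nB = 1 / 4 := by linarith
  rw [div_eq_iff hφA.ne'] at a4
  rw [div_eq_iff hφB.ne'] at b4
  constructor
  · apply a2
    have : 4 * ((ArithmeticFunction.moebius nA : ℤ) : ℝ) = Nat.totient nA := by linarith
    exact_mod_cast this
  · apply b2
    have : 4 * ((ArithmeticFunction.moebius nB : ℤ) : ℝ) = Nat.totient nB := by linarith
    exact_mod_cast this

theorem cs_4_1 : cs 4 1 = 0 := by
  rw [cs]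
  push_cast
  rw [show 2 * Real.pi * 1 / 4 = Real.pi / 2 by ring, Real.cos_pi_div_two]

theorem cs_6_1 : cs 6 1 = 1 / 2 := by
  rw [cs]
  push_cast
  rw [show 2 * Real.pi * 1 / 6 = Real.pi / 3 by ring, Real.cos_pi_div_three]

theorem cs_10_1 : cs 10 1 = (1 + Real.sqrt 5) / 4 := by
  rw [cs]
  push_cast
  rw [show 2 * Real.pi * 1 / 10 = Real.pi / 5 by ring, Real.cos_pi_div_five]

theorem cs_10_3 : cs 10 3 = (1 - Real.sqrt 5) / 4 := by
  rw [cs]
  push_cast
  rw [show 2 * Real.pi * 3 / 10 = Real.pi - 2 * (Real.pi / 5) by ring, Real.cos_pi_sub,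
    Real.cos_two_mul, Real.cos_pi_div_five]
  have := Real.sq_sqrt (show (0 : ℝ) ≤ 5 by norm_num)
  nlinarith

/-- the four possible types -/
def Typ (a b : ℝ) : Prop :=
  (4 * (a * b) = 1 ∧ (a ^ 2 + b ^ 2 = 1 ∨ a ^ 2 + b ^ 2 = 3 / 4)) ∨
  (8 * (a * b) = 3 - Real.sqrt 5 ∧ 8 * (a ^ 2 + b ^ 2) = 9 - Real.sqrt 5) ∨
  (8 * (a * b) = 3 + Real.sqrt 5 ∧ 8 * (a ^ 2 + b ^ 2) = 9 + Real.sqrt 5)

theorem Typ.symm {a b : ℝ} (h : Typ a b) : Typ b a := by
  unfold Typ at *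
  rw [mul_comm b a, add_comm (b ^ 2)]
  exact h

theorem typ_of_values {N : ℕ} {k l : ℤ} (x y : ℝ) (hx : cs N (k + l) = x) (hy : cs N (k - l) = y)
    (h : (x = 0 ∧ y = 1 / 2) ∨ (x = (1 - Real.sqrt 5) / 4 ∧ y = 1 / 2) ∨
      (x = 1 / 2 ∧ y = (1 + Real.sqrt 5) / 4) ∨
      (x = (1 - Real.sqrt 5) / 4 ∧ y = (1 + Real.sqrt 5) / 4)) : Typ (cs N k) (cs N l) := by
  have h1 := prod_to_sum N k l
  have h2 := sq_sum N k l
  rw [hx, hy] at h1 h2
  have h5 := Real.sq_sqrt (show (0 : ℝ) ≤ 5 by norm_num)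
  unfold Typ
  rcases h with ⟨rfl, rfl⟩ | ⟨rfl, rfl⟩ | ⟨rfl, rfl⟩ | ⟨rfl, rfl⟩
  · left; exact ⟨by linarith, Or.inl (by linarith)⟩
  · right; left; exact ⟨by linarith, by linarith⟩
  · right; right; exact ⟨by linarith, by linarith⟩
  · left; exact ⟨by linarith, Or.inr (by nlinarith)⟩

theorem no_six {N : ℕ} (hN : 0 < N) {C g6 : ℤ} {n g c : ℕ} (hNn : N = n * g)
    (hc : c.Coprime n) (hC : C = ((c * g : ℕ) : ℤ)) (h6 : (N : ℤ) = 6 * g6)
    (hpos : ∀ t : ℕ, t.Coprime N → 0 ≤ cs N (t * C) + cs N (t * g6)) :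
    n = 1 ∨ n = 3 ∨ n = 4 ∨ n = 6 ∨ n = 10 := by
  by_contra hcon
  push Not at hcon
  obtain ⟨n1, n3, n4, n6, n10⟩ := hcon
  have hn : 0 < n := Nat.pos_of_ne_zero (by rintro rfl; simp at hNn; omega)
  have hg : 0 < g := Nat.pos_of_ne_zero (by rintro rfl; simp at hNn; omega)
  obtain ⟨s, hs1, hs2, hs3⟩ := exists_mid hn n1 n3 n4 n6 n10
  obtain ⟨t, ht1, ht2⟩ := exists_lift hn hg hc hs1
  rw [← hNn, ← hC] at ht2
  rw [← hNn] at ht1
  have h1 := hpos t ht1
  rw [ht2] at h1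
  have h2 := cs_lt_neg_half hn hs2 hs3
  have h3 : cs N (t * g6) = 1 / 2 := by
    have hg6 : 0 < g6 := by omega
    obtain ⟨g', rfl⟩ : ∃ g' : ℕ, (g' : ℤ) = g6 := ⟨g6.toNat, by omega⟩
    have hN6 : N = 6 * g' := by omega
    have e1 : cs N (t * g') = cs 6 t := by
      rw [hN6]; exact cs_scale (by omega) _
    rw [e1]
    have ht6 : t.Coprime 6 := Nat.Coprime.coprime_dvd_right ⟨g', hN6⟩ ht1
    have ht2 : t % 6 = 1 ∨ t % 6 = 5 := by
      have hh2 : ¬ 2 ∣ t := fun h => by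
        have := Nat.dvd_gcd h (show 2 ∣ 6 by norm_num)
        rw [ht6] at this; omega
      have hh3 : ¬ 3 ∣ t := fun h => by
        have := Nat.dvd_gcd h (show 3 ∣ 6 by norm_num)
        rw [ht6] at this; omega
      omega
    rcases ht2 with h | h
    · rw [← cs_6_1]
      apply cs_congr (by norm_num)
      exact (Int.emod_emod_of_dvd _ (dvd_refl _)).symm.trans (by omega)
    · rw [← cs_6_1, ← cs_neg 6 1]
      apply cs_congr (by norm_num)
      change (t : ℤ) % 6 = (-1) % 6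
      omega
  rw [h3] at h1
  linarith


theorem coprime10 {c : ℕ} (hc : c.Coprime 10) : c ≠ 2 ∧ c ≠ 4 := by
  constructor <;> rintro rfl <;> revert hc <;> decide

theorem pair_nat {N : ℕ} (hN : 0 < N) {k l : ℕ} (hl0 : 0 < l) (hlk : l < k) (hkN : 4 * k < N)
    (hk : 1 ≤ Ep N k) (hl : 1 ≤ Ep N l)
    (hpos : ∀ t : ℕ, t.Coprime N → 0 ≤ cs N (t * (k : ℤ)) * cs N (t * (l : ℤ))) :
    Typ (cs N k) (cs N l) := by
  obtain ⟨gA, nA, cA, hgA, hNA, hA, hcA⟩ : ∃ gA nA cA : ℕ, 0 < gA ∧ N = nA * gA ∧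
      k + l = cA * gA ∧ cA.Coprime nA := by
    refine ⟨Nat.gcd (k + l) N, N / Nat.gcd (k + l) N, (k + l) / Nat.gcd (k + l) N,
      Nat.gcd_pos_of_pos_right _ hN, ?_, ?_, ?_⟩
    · rw [Nat.div_mul_cancel (Nat.gcd_dvd_right _ _)]
    · rw [Nat.div_mul_cancel (Nat.gcd_dvd_left _ _)]
    · exact Nat.coprime_div_gcd_div_gcd (Nat.gcd_pos_of_pos_right _ hN)
  obtain ⟨gB, nB, cB, hgB, hNB, hB, hcB⟩ : ∃ gB nB cB : ℕ, 0 < gB ∧ N = nB * gB ∧
      k - l = cB * gB ∧ cB.Coprime nB := by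
    refine ⟨Nat.gcd (k - l) N, N / Nat.gcd (k - l) N, (k - l) / Nat.gcd (k - l) N,
      Nat.gcd_pos_of_pos_right _ hN, ?_, ?_, ?_⟩
    · rw [Nat.div_mul_cancel (Nat.gcd_dvd_right _ _)]
    · rw [Nat.div_mul_cancel (Nat.gcd_dvd_left _ _)]
    · exact Nat.coprime_div_gcd_div_gcd (Nat.gcd_pos_of_pos_right _ hN)
  have hAz : (k : ℤ) + l = ((cA * gA : ℕ) : ℤ) := by omega
  have hBz : (k : ℤ) - l = ((cB * gB : ℕ) : ℤ) := by omega
  have hcA0 : 0 < cA := Nat.pos_of_ne_zero (by rintro rfl; simp at hA; omega)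
  have hcB0 : 0 < cB := Nat.pos_of_ne_zero (by rintro rfl; simp at hB; omega)
  have hA2 : 2 * cA < nA := by
    have h1 : (2 * cA) * gA < nA * gA := by
      rw [← hNA, mul_assoc, ← hA]; omega
    exact Nat.lt_of_mul_lt_mul_right h1
  have hB4 : 4 * cB < nB := by
    have h1 : (4 * cB) * gB < nB * gB := by
      rw [← hNB, mul_assoc, ← hB]; omega
    exact Nat.lt_of_mul_lt_mul_right h1
  have havg := avg_ineq hN hk hl hpos hNA hNB hcA hcB hAz hBz
  have h610 := six_or_ten (by omega) (by omega) (by omega) (by omega) havg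
  have hsum : ∀ t : ℕ, t.Coprime N →
      0 ≤ cs N (t * ((k : ℤ) + l)) + cs N (t * ((k : ℤ) - l)) := by
    intro t ht
    have h1 := prod_to_sum N (t * k) (t * l)
    rw [mul_add, mul_sub]
    have := hpos t ht
    linarith
  have csA : cs N ((k : ℤ) + l) = cs nA cA := by
    rw [hAz, hNA]; push_cast; exact cs_scale hgA _
  have csB : cs N ((k : ℤ) - l) = cs nB cB := by
    rw [hBz, hNB]; push_cast; exact cs_scale hgB _
  rcases h610 with h | h | ⟨h, h'⟩
  · subst h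
    have hcA1 : cA = 1 := by
      have : cA = 1 ∨ cA = 2 := by omega
      rcases this with h | h
      · exact h
      · subst h; revert hcA; decide
    subst hcA1
    have h5 := no_six hN (C := (k : ℤ) - l) (g6 := (k : ℤ) + l) hNB hcB hBz (by omega)
      (fun t ht => by have := hsum t ht; linarith)
    have hB6 : 6 * cB < nB := by
      have h1 : (6 * cB) * gB < nB * gB := by
        rw [← hNB, mul_assoc, ← hB]; omega
      exact Nat.lt_of_mul_lt_mul_right h1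
    have hnB : nB = 10 := by omega
    subst hnB
    have hcB1 : cB = 1 := by omega
    subst hcB1
    refine typ_of_values _ _ csA csB (Or.inr (Or.inr (Or.inl ⟨?_, ?_⟩)))
    · exact_mod_cast cs_6_1
    · exact_mod_cast cs_10_1
  · subst h
    have hcB1 : cB = 1 := by omega
    subst hcB1
    have h5 := no_six hN (C := (k : ℤ) + l) (g6 := (k : ℤ) - l) hNA hcA hAz (by omega)
      (fun t ht => hsum t ht)
    have hA6 : nA < 6 * cA := by
      have h1 : nA * gA < (6 * cA) * gA := by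
        rw [← hNA, mul_assoc, ← hA]; omega
      exact Nat.lt_of_mul_lt_mul_right h1
    have hA3 : 3 * cA < nA := by
      have h1 : (3 * cA) * gA < nA * gA := by
        rw [← hNA, mul_assoc, ← hA]; omega
      exact Nat.lt_of_mul_lt_mul_right h1
    have h7 : (nA = 4 ∧ cA = 1) ∨ (nA = 10 ∧ (cA = 2 ∨ cA = 3)) := by omega
    rcases h7 with ⟨rfl, rfl⟩ | ⟨rfl, h8⟩
    · refine typ_of_values _ _ csA csB (Or.inl ⟨?_, ?_⟩)
      · exact_mod_cast cs_4_1
      · exact_mod_cast cs_6_1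
    · have hcA3 : cA = 3 := by
        have := (coprime10 hcA).1
        omega
      subst hcA3
      refine typ_of_values _ _ csA csB (Or.inr (Or.inl ⟨?_, ?_⟩))
      · exact_mod_cast cs_10_3
      · exact_mod_cast cs_6_1
  · subst h; subst h'
    have hg : gA = gB := by omega
    have hcB1 : cB = 1 := by
      have := (coprime10 hcB).1
      omega
    subst hcB1
    have hBA : 1 < cA := by
      have h1 : 1 * gA < cA * gA := by
        rw [← hA]; omega
      exact Nat.lt_of_mul_lt_mul_right h1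
    have hcA3 : cA = 3 := by
      have := coprime10 hcA
      omega
    subst hcA3
    refine typ_of_values _ _ csA csB (Or.inr (Or.inr (Or.inr ⟨?_, ?_⟩)))
    · exact_mod_cast cs_10_3
    · exact_mod_cast cs_10_1

theorem Ep_ge_one {N : ℕ} (hN : 0 < N) (hev : Even N) {k : ℤ} (h0 : cs N k ≠ 0) :
    1 ≤ Ep N k := by
  obtain ⟨e, he, h⟩ := Ep_int hN hev h0
  rw [h]
  exact_mod_cast he

theorem Ep_congr {N : ℕ} {k l : ℤ} (h : ∀ t : ℤ, cs N (t * k) = cs N (t * l)) :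
    Ep N k = Ep N l := by
  unfold Ep
  apply Finset.prod_congr rfl
  intro t _
  rw [h t]

theorem pair_class {N : ℕ} (hN : 0 < N) (hev : Even N) {k l : ℤ}
    (hk : 0 < cs N k ∧ cs N k < 1) (hl : 0 < cs N l ∧ cs N l < 1) (hne : cs N k ≠ cs N l)
    (hpos : ∀ t : ℕ, t.Coprime N → 0 ≤ cs N (t * k) * cs N (t * l)) :
    Typ (cs N k) (cs N l) := by
  obtain ⟨k', hk0, hk4, hkk⟩ := exists_rep hN hk.1 hk.2
  obtain ⟨l', hl0, hl4, hll⟩ := exists_rep hN hl.1 hl.2
  have e1 : cs N k = cs N k' := by simpa using hkk 1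
  have e2 : cs N l = cs N l' := by simpa using hll 1
  have E1 : 1 ≤ Ep N k' := by
    rw [← Ep_congr hkk]; exact Ep_ge_one hN hev hk.1.ne'
  have E2 : 1 ≤ Ep N l' := by
    rw [← Ep_congr hll]; exact Ep_ge_one hN hev hl.1.ne'
  have hpos' : ∀ t : ℕ, t.Coprime N → 0 ≤ cs N (t * (k' : ℤ)) * cs N (t * (l' : ℤ)) := by
    intro t ht
    rw [← hkk, ← hll]; exact hpos t ht
  rw [e1, e2]
  rcases lt_trichotomy l' k' with h | h | h
  · exact pair_nat hN hl0 h hk4 E1 E2 hpos'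
  · exfalso; apply hne; rw [e1, e2, h]
  · refine (pair_nat hN hk0 h hl4 E2 E1 ?_).symm
    intro t ht
    rw [mul_comm]
    exact hpos' t ht

theorem conj_e1 {N : ℕ} (hN : 0 < N) {a b c d : ℤ} (h : cs N a * cs N b = cs N c * cs N d)
    (t : ℕ) (ht : t.Coprime N) :
    cs N (t * a) * cs N (t * b) = cs N (t * c) * cs N (t * d) := by
  have h1 := conj_cs hN (ι := Fin 4) ![a, b, c, d]
    (MvPolynomial.X 0 * MvPolynomial.X 1 - MvPolynomial.X 2 * MvPolynomial.X 3)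
    (by simp; linarith) t ht
  simp at h1
  linarith

theorem conj_e4 {N : ℕ} (hN : 0 < N) {a b c d : ℤ}
    (h : (cs N a * cs N b * cs N c) ^ 2 = (cs N a * cs N d) ^ 3)
    (t : ℕ) (ht : t.Coprime N) :
    (cs N (t * a) * cs N (t * b) * cs N (t * c)) ^ 2 = (cs N (t * a) * cs N (t * d)) ^ 3 := by
  have h1 := conj_cs hN (ι := Fin 4) ![a, b, c, d]
    ((MvPolynomial.X 0 * MvPolynomial.X 1 * MvPolynomial.X 2) ^ 2 -
      (MvPolynomial.X 0 * MvPolynomial.X 3) ^ 3)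
    (by simp; nlinarith) t ht
  simp at h1
  nlinarith

theorem same_contra {a12 a21 a13 a31 a23 a32 : ℝ}
    (p12 : 0 < a12) (p21 : 0 < a21) (p13 : 0 < a13) (p31 : 0 < a31)
    (p23 : 0 < a23) (p32 : 0 < a32)
    (e1 : a12 * a21 = a13 * a31) (e2 : a12 * a21 = a23 * a32)
    (f1 : a12 ^ 2 + a21 ^ 2 = a13 ^ 2 + a31 ^ 2) (f2 : a12 ^ 2 + a21 ^ 2 = a23 ^ 2 + a32 ^ 2)
    (e3 : a12 * a23 * a31 = a13 * a32 * a21) (n12 : a12 ≠ a21) : False := by
  have key : ∀ x y : ℝ, 0 < x → 0 < y → a12 * a21 = x * y → a12 ^ 2 + a21 ^ 2 = x ^ 2 + y ^ 2 →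
      (x = a12 ∧ y = a21) ∨ (x = a21 ∧ y = a12) := by
    intro x y hx hy h1 h2
    have h3 : (x ^ 2 - a12 ^ 2) * (x ^ 2 - a21 ^ 2) = 0 := by
      have : (x ^ 2 - a12 ^ 2) * (x ^ 2 - a21 ^ 2) =
        x ^ 4 - (a12 ^ 2 + a21 ^ 2) * x ^ 2 + (a12 * a21) ^ 2 := by ring
      rw [this, h1, h2]; ring
    rcases mul_eq_zero.1 h3 with h | h
    · have hx1 : x = a12 := by
        have : (x - a12) * (x + a12) = 0 := by linarith
        rcases mul_eq_zero.1 this with h | h <;> linarith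
      left
      refine ⟨hx1, ?_⟩
      rw [hx1] at h1
      exact (mul_left_cancel₀ p12.ne' h1).symm
    · have hx1 : x = a21 := by
        have : (x - a21) * (x + a21) = 0 := by linarith
        rcases mul_eq_zero.1 this with h | h <;> linarith
      right
      refine ⟨hx1, ?_⟩
      rw [hx1, mul_comm] at h1
      exact (mul_left_cancel₀ p21.ne' h1).symm
  have hd : a12 - a21 ≠ 0 := sub_ne_zero.2 n12
  have hpp : 0 < a12 * a21 := mul_pos p12 p21
  rcases key a13 a31 p13 p31 e1 f1 with ⟨rfl, rfl⟩ | ⟨rfl, rfl⟩ <;>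
  rcases key a23 a32 p23 p32 e2 f2 with ⟨h1, h2⟩ | ⟨h1, h2⟩ <;> rw [h1, h2] at e3
  · have : (a13 * a31) * (a13 - a31) = 0 := by linarith
    rcases mul_eq_zero.1 this with h | h
    · exact hpp.ne' h
    · exact hd h
  · have : (a13 * a31) * (a13 - a31) = 0 := by linarith
    rcases mul_eq_zero.1 this with h | h
    · exact hpp.ne' h
    · exact hd h
  · have : (a31 ^ 2 + a31 * a13 + a13 ^ 2) * (a31 - a13) = 0 := by linarith
    rcases mul_eq_zero.1 this with h | h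
    · nlinarith
    · exact hd h
  · have : (a31 * a13) * (a31 - a13) = 0 := by linarith
    rcases mul_eq_zero.1 this with h | h
    · exact hpp.ne' h
    · exact hd h

theorem band {w Q : ℝ} (hQ : Q = 1 ∨ Q = 3 / 4) (h : w ^ 2 - Q * w + 1 / 16 = 0) :
    (0.65 ≤ w ∧ w ≤ 0.94) ∨ (0.0665 ≤ w ∧ w ≤ 0.096) := by
  rcases le_or_gt 0.4 w with hw | hw
  · left
    rcases hQ with rfl | rfl
    · constructor <;> by_contra hcon <;> rw [not_le] at hcon <;> nlinarith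
    · constructor <;> by_contra hcon <;> rw [not_le] at hcon <;> nlinarith
  · right
    rcases hQ with rfl | rfl
    · constructor <;> by_contra hcon <;> rw [not_le] at hcon <;> nlinarith
    · constructor <;> by_contra hcon <;> rw [not_le] at hcon <;> nlinarith

theorem bigbig {x y z : ℝ} (hx : 0.65 ≤ x) (hy : 0.65 ≤ y) (hz : 0.0665 ≤ z) :
    1 / 64 < x * y * z := by
  have h1 : (0.65 : ℝ) * 0.65 ≤ x * y := mul_le_mul hx hy (by norm_num) (by linarith)
  have h2 : (0.65 : ℝ) * 0.65 * 0.0665 ≤ x * y * z :=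
    mul_le_mul h1 hz (by norm_num) (by nlinarith)
  refine lt_of_lt_of_le (by norm_num) h2

theorem smallsmall {x y z : ℝ} (hx0 : 0 ≤ x) (hy0 : 0 ≤ y) (hz0 : 0 ≤ z) (hx : x ≤ 0.096)
    (hy : y ≤ 0.096) (hz : z ≤ 0.94) : x * y * z < 1 / 64 := by
  have h1 : x * y ≤ (0.096 : ℝ) * 0.096 := mul_le_mul hx hy hy0 (by norm_num)
  have h2 : x * y * z ≤ (0.096 : ℝ) * 0.096 * 0.94 :=
    mul_le_mul h1 hz hz0 (by norm_num)
  refine lt_of_le_of_lt h2 (by norm_num)

theorem quarter_contra {a12 a21 a13 a31 a23 a32 : ℝ}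
    (e0 : 4 * (a12 * a21) = 1) (e1 : a12 * a21 = a13 * a31) (e2 : a12 * a21 = a23 * a32)
    (q1 : a12 ^ 2 + a21 ^ 2 = 1 ∨ a12 ^ 2 + a21 ^ 2 = 3 / 4)
    (q2 : a13 ^ 2 + a31 ^ 2 = 1 ∨ a13 ^ 2 + a31 ^ 2 = 3 / 4)
    (q3 : a23 ^ 2 + a32 ^ 2 = 1 ∨ a23 ^ 2 + a32 ^ 2 = 3 / 4)
    (e4 : (a12 * a23 * a31) ^ 2 = (a12 * a21) ^ 3) : False := by
  have hP : a12 * a21 = 1 / 4 := by linarith
  have key : ∀ x y : ℝ, x * y = 1 / 4 → (x ^ 2) ^ 2 - (x ^ 2 + y ^ 2) * x ^ 2 + 1 / 16 = 0 := by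
    intro x y h
    have : (x ^ 2) ^ 2 - (x ^ 2 + y ^ 2) * x ^ 2 + 1 / 16 = 1 / 16 - (x * y) ^ 2 := by ring
    rw [this, h]; norm_num
  have w1 := band q1 (key a12 a21 hP)
  have w2 := band (Q := a31 ^ 2 + a13 ^ 2) (by rw [add_comm]; exact q2)
    (key a31 a13 (by rw [mul_comm]; linarith))
  have w3 := band q3 (key a23 a32 (by linarith))
  have hW : a12 ^ 2 * a23 ^ 2 * a31 ^ 2 = 1 / 64 := by
    have : a12 ^ 2 * a23 ^ 2 * a31 ^ 2 = (a12 * a23 * a31) ^ 2 := by ring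
    rw [this, e4, hP]; norm_num
  have s1 := sq_nonneg a12
  have s2 := sq_nonneg a31
  have s3 := sq_nonneg a23
  rcases w1 with ⟨l1, u1⟩ | ⟨l1, u1⟩ <;> rcases w2 with ⟨l2, u2⟩ | ⟨l2, u2⟩ <;>
    rcases w3 with ⟨l3, u3⟩ | ⟨l3, u3⟩
  · have := bigbig l1 l3 (by linarith : (0.0665 : ℝ) ≤ a31 ^ 2); linarith
  · have := bigbig l1 l2 l3
    have h : a12 ^ 2 * a31 ^ 2 * a23 ^ 2 = a12 ^ 2 * a23 ^ 2 * a31 ^ 2 := by ring
    linarith
  · have := bigbig l1 l3 l2; linarith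
  · have := smallsmall s3 s2 s1 u3 u2 u1
    have h : a23 ^ 2 * a31 ^ 2 * a12 ^ 2 = a12 ^ 2 * a23 ^ 2 * a31 ^ 2 := by ring
    linarith
  · have := bigbig l3 l2 l1
    have h : a23 ^ 2 * a31 ^ 2 * a12 ^ 2 = a12 ^ 2 * a23 ^ 2 * a31 ^ 2 := by ring
    linarith
  · have := smallsmall s1 s3 s2 u1 u3 u2; linarith
  · have := smallsmall s1 s2 s3 u1 u2 u3
    have h : a12 ^ 2 * a31 ^ 2 * a23 ^ 2 = a12 ^ 2 * a23 ^ 2 * a31 ^ 2 := by ring
    linarith
  · have := smallsmall s1 s3 s2 u1 u3 (by linarith); linarith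

/-- TARGET. -/
theorem lemmaD {N : ℕ} (hN : 0 < N) (hev : Even N) {a12 a21 a13 a31 a23 a32 : ℝ}
    (h12 : NCos N a12) (h21 : NCos N a21) (h13 : NCos N a13) (h31 : NCos N a31)
    (h23 : NCos N a23) (h32 : NCos N a32)
    (p12 : 0 < a12 ∧ a12 < 1) (p21 : 0 < a21 ∧ a21 < 1) (p13 : 0 < a13 ∧ a13 < 1)
    (p31 : 0 < a31 ∧ a31 < 1) (p23 : 0 < a23 ∧ a23 < 1) (p32 : 0 < a32 ∧ a32 < 1)
    (e1 : a12 * a21 = a13 * a31) (e2 : a12 * a21 = a23 * a32)
    (e3 : a12 * a23 * a31 = a13 * a32 * a21) (e4 : (a12 * a23 * a31) ^ 2 = (a12 * a21) ^ 3)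
    (n12 : a12 ≠ a21) (n13 : a13 ≠ a31) (n23 : a23 ≠ a32) : False := by
  obtain ⟨k12, rfl⟩ := h12
  obtain ⟨k21, rfl⟩ := h21
  obtain ⟨k13, rfl⟩ := h13
  obtain ⟨k31, rfl⟩ := h31
  obtain ⟨k23, rfl⟩ := h23
  obtain ⟨k32, rfl⟩ := h32
  have pos12 : ∀ t : ℕ, t.Coprime N → 0 ≤ cs N (t * k12) * cs N (t * k21) := by
    intro t ht
    have h := conj_e4 hN e4 t ht
    by_contra hcon
    rw [not_le] at hcon
    have h1 : (cs N (t * k12) * cs N (t * k21)) ^ 3 < 0 := Odd.pow_neg (by decide) hcon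
    have h2 := sq_nonneg (cs N (t * k12) * cs N (t * k23) * cs N (t * k31))
    linarith
  have pos13 : ∀ t : ℕ, t.Coprime N → 0 ≤ cs N (t * k13) * cs N (t * k31) := by
    intro t ht
    rw [← conj_e1 hN e1 t ht]; exact pos12 t ht
  have pos23 : ∀ t : ℕ, t.Coprime N → 0 ≤ cs N (t * k23) * cs N (t * k32) := by
    intro t ht
    rw [← conj_e1 hN e2 t ht]; exact pos12 t ht
  have T1 := pair_class hN hev p12 p21 n12 pos12
  have T2 := pair_class hN hev p13 p31 n13 pos13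
  have T3 := pair_class hN hev p23 p32 n23 pos23
  have s5 : (2.2 : ℝ) < Real.sqrt 5 := by
    rw [Real.lt_sqrt (by norm_num)]; norm_num
  have s5' : Real.sqrt 5 < 2.3 := by
    rw [Real.sqrt_lt' (by norm_num)]; norm_num
  rcases T1 with ⟨t1, u1⟩ | ⟨t1, u1⟩ | ⟨t1, u1⟩ <;>
  rcases T2 with ⟨t2, u2⟩ | ⟨t2, u2⟩ | ⟨t2, u2⟩ <;>
  rcases T3 with ⟨t3, u3⟩ | ⟨t3, u3⟩ | ⟨t3, u3⟩ <;>
  first
  | exact quarter_contra t1 e1 e2 u1 u2 u3 e4
  | exact same_contra p12.1 p21.1 p13.1 p31.1 p23.1 p32.1 e1 e2 (by linarith) (by linarith) e3 n12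
  | (exfalso; linarith)

end Pool.Agent.Helper644.FC
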