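import Mathlib
import Pool.Agent.Helper644.FC0

set_option autoImplicit false

namespace Pool.Agent.Helper644.FC

open Polynomial


/-- real elements of the `N`-th cyclotomic field -/
def InK (N : ℕ) (x : ℝ) : Prop := (x : ℂ) ∈ IntermediateField.adjoin ℚ {zt N}


/-- The cyclotomic field. -/
noncomputable abbrev KN (N : ℕ) : IntermediateField ℚ ℂ := IntermediateField.adjoin ℚ {zt N}

theorem zt_mem (N : ℕ) : zt N ∈ KN N :=
  IntermediateField.mem_adjoin_simple_self ℚ (zt N)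

/-- Kronecker's theorem in the cyclotomic field. -/
theorem key {N : ℕ} (hN : 0 < N) (hev : Even N) {u : ℂ} (hu : u ∈ KN N) (hint : IsIntegral ℤ u)
    (hnorm : ‖u‖ = 1) : u ^ N = 1 := by
  have hNz : NeZero N := ⟨hN.ne'⟩
  have hprim := zt_prim hN
  have hz1 : zt N ^ N = 1 := hprim.pow_eq_one
  have hzint : IsIntegral ℚ (zt N) := (hprim.isIntegral hN).tower_top
  have hfd : FiniteDimensional ℚ (KN N) := IntermediateField.adjoin.finiteDimensional hzint
  have hnf : NumberField (KN N) := ⟨⟩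
  have hcyc : IsCyclotomicExtension {N} ℚ (KN N) := by
    change IsCyclotomicExtension {N} ℚ (KN N).toSubalgebra
    rw [IntermediateField.adjoin_simple_toSubalgebra_of_isAlgebraic hzint.isAlgebraic]
    exact hprim.adjoin_isCyclotomicExtension ℚ
  set u' : KN N := ⟨u, hu⟩ with hu'
  set z' : KN N := ⟨zt N, zt_mem N⟩ with hz'
  have hz'N : z' ^ N = 1 := by
    apply Subtype.ext
    exact hz1
  have hint' : IsIntegral ℤ u' := by
    rw [← isIntegral_algebraMap_iff (B := ℂ) (FaithfulSMul.algebraMap_injective (KN N) ℂ)]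
    exact hint
  -- polynomial expression
  obtain ⟨p, hp⟩ : ∃ p : ℚ[X], aeval (zt N) p = u := by
    have h1 : u ∈ (KN N).toSubalgebra := hu
    rw [IntermediateField.adjoin_simple_toSubalgebra_of_isAlgebraic hzint.isAlgebraic,
      Algebra.adjoin_singleton_eq_range_aeval] at h1
    exact h1
  have hp' : aeval z' p = u' := by
    apply Subtype.ext
    have : ((aeval z' p : KN N) : ℂ) = aeval (zt N) p := by
      have := Polynomial.aeval_algHom_apply (KN N).val z' p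
      exact this.symm
    rw [this, hp]
  have hznorm : ‖zt N‖ = 1 := by
    exact Complex.norm_eq_one_of_pow_eq_one hz1 hN.ne'
  have hconj : aeval (zt N)⁻¹ p = (starRingEnd ℂ) u := by
    rw [← hp, Complex.inv_eq_conj hznorm]
    have := Polynomial.aeval_algHom_apply (Complex.conjAe.toAlgHom.restrictScalars ℚ) (zt N) p
    exact this
  have huu : aeval z' p * aeval z'⁻¹ p = 1 := by
    apply Subtype.ext
    have h1 : ((aeval z' p : KN N) : ℂ) = aeval (zt N) p :=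
      (Polynomial.aeval_algHom_apply (KN N).val z' p).symm
    have h2 : ((aeval z'⁻¹ p : KN N) : ℂ) = aeval (zt N)⁻¹ p :=
      (Polynomial.aeval_algHom_apply (KN N).val z'⁻¹ p).symm
    show ((aeval z' p : KN N) : ℂ) * ((aeval z'⁻¹ p : KN N) : ℂ) = 1
    rw [h1, h2, hp, hconj, Complex.mul_conj, Complex.normSq_eq_norm_sq, hnorm]
    simp
  have hemb : ∀ φ : KN N →+* ℂ, ‖φ u'‖ = 1 := by
    intro φ
    have h1 : (φ z') ^ N = 1 := by rw [← map_pow, hz'N, map_one]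
    have h2 : ‖φ z'‖ = 1 := Complex.norm_eq_one_of_pow_eq_one h1 hN.ne'
    have h3 := congrArg φ huu
    rw [map_mul, map_one] at h3
    have h4 : ∀ x : KN N, φ (aeval x p) = aeval (φ x) p := fun x =>
      (Polynomial.aeval_algHom_apply (φ.toRatAlgHom) x p).symm
    rw [h4 z'⁻¹, map_inv₀, Complex.inv_eq_conj h2] at h3
    have h5 : aeval ((starRingEnd ℂ) (φ z')) p = (starRingEnd ℂ) (aeval (φ z') p) := by
      exact Polynomial.aeval_algHom_apply (Complex.conjAe.toAlgHom.restrictScalars ℚ) (φ z') p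
    rw [h5, ← h4, hp', Complex.mul_conj, Complex.normSq_eq_norm_sq] at h3
    have h6 : ‖φ u'‖ ^ 2 = 1 := by exact_mod_cast h3
    nlinarith [norm_nonneg (φ u')]
  obtain ⟨n, hn, hun⟩ := NumberField.Embeddings.pow_eq_one_of_norm_eq_one (KN N) ℂ hint' hemb
  have hord : 0 < orderOf u' := orderOf_pos_iff.2 (isOfFinOrder_iff_pow_eq_one.2 ⟨n, hn, hun⟩)
  have hord' : NeZero (orderOf u') := ⟨hord.ne'⟩
  have h1 := NumberField.Units.dvd_torsionOrder_of_isPrimitiveRoot (IsPrimitiveRoot.orderOf u')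
  rw [IsCyclotomicExtension.Rat.torsionOrder_eq (n := N) (K := KN N), if_pos hev] at h1
  have h2 : u' ^ N = 1 := orderOf_dvd_iff_pow_eq_one.1 h1
  exact congrArg Subtype.val h2

/-- Integrality of the solutions of `y + 1 / y = s`. -/
theorem isIntegral_of_add_inv {y s : ℂ} (hs : IsIntegral ℤ s) (h : y ^ 2 = s * y - 1) :
    IsIntegral ℤ y := by
  have h1 : IsIntegral (integralClosure ℤ ℂ) y := by
    refine ⟨X ^ 2 + (- C (⟨s, hs⟩ : integralClosure ℤ ℂ) * X + 1), ?_, ?_⟩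
    · monicity!
    · have e : (algebraMap (integralClosure ℤ ℂ) ℂ) ⟨s, hs⟩ = s := rfl
      simp only [eval₂_add, eval₂_pow, eval₂_X, eval₂_mul, eval₂_neg, eval₂_C, eval₂_one, e, h]
      ring
  exact isIntegral_trans y h1

theorem add_inv_eq {w : ℂ} (hw : ‖w‖ = 1) : w + w⁻¹ = 2 * (w.re : ℂ) := by
  rw [Complex.inv_eq_conj hw, Complex.add_conj]
  push_cast; ring

theorem ncos_mem {N : ℕ} (hN : 0 < N) {c : ℝ} (hc : NCos N c) :
    (2 * (c : ℂ)) ∈ KN N ∧ IsIntegral ℤ (2 * (c : ℂ)) := by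
  obtain ⟨k, rfl⟩ := hc
  have h := two_cs hN k
  push_cast at h
  rw [h]
  have hint : ∀ j : ℤ, IsIntegral ℤ (zt N ^ j) := by
    intro j
    apply IsIntegral.of_pow hN
    rw [← zpow_natCast, ← zpow_mul, mul_comm, zpow_mul, zpow_natCast, (zt_prim hN).pow_eq_one,
      one_zpow]
    exact isIntegral_one
  exact ⟨add_mem (zpow_mem (zt_mem N) _) (zpow_mem (zt_mem N) _), (hint _).add (hint _)⟩

theorem root_mem {N : ℕ} (hN : 0 < N) {e : ℂ} (he : e ^ N = 1) : e ∈ KN N ∧ IsIntegral ℤ e := by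
  have hNz : NeZero N := ⟨hN.ne'⟩
  constructor
  · obtain ⟨i, -, hi⟩ := (zt_prim hN).eq_pow_of_pow_eq_one he
    rw [← hi]
    exact pow_mem (zt_mem N) i
  · apply IsIntegral.of_pow hN
    rw [he]
    exact isIntegral_one

theorem ne_zero_of_norm {w : ℂ} (hw : ‖w‖ = 1) : w ≠ 0 := by
  rintro rfl
  simp at hw

theorem sq_eq_one_case {w1 w2 e : ℂ} (he : w2 = e * w1) (h : e ^ 2 = 1) (q1 : 0 < w1.re)
    (q2 : 0 < w2.re) : w1.re = w2.re := by
  have h0 : (e - 1) * (e + 1) = 0 := by linear_combination h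
  rcases mul_eq_zero.1 h0 with h1 | h1
  · have h1 : e = 1 := by linear_combination h1
    rw [he, h1, one_mul]
  have h1 : e = -1 := by linear_combination h1
  rw [he, h1] at q2
  simp at q2
  linarith

/-- TARGET 1 -/
theorem lemmaI {N : ℕ} (hN : 0 < N) (hev : Even N) {x1 x2 : ℝ} (hx1 : InK N x1) (hx2 : InK N x2)
    (h1 : 0 < x1) (h2 : 0 < x2) {c c' : ℝ} (hc : NCos N c) (hc' : NCos N c')
    (hprod : x1 * x2 = c * c') {w1 w2 κ : ℂ} (n1 : ‖w1‖ = 1) (n2 : ‖w2‖ = 1)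
    (p1 : w1 ^ N = κ) (p2 : w2 ^ N = κ) (hκ : κ ≠ 1) (r1 : w1.re = x1) (r2 : w2.re = x2) :
    x1 = x2 := by
  have w10 := ne_zero_of_norm n1
  have w20 := ne_zero_of_norm n2
  set e := w2 / w1 with he
  have hw2 : w2 = e * w1 := by rw [he]; field_simp
  have heN : e ^ N = 1 := by
    rw [he, div_pow, p1, p2, div_self]
    rw [← p1]; exact pow_ne_zero _ w10
  have e0 : e ≠ 0 := div_ne_zero w20 w10
  obtain ⟨heK, heI⟩ := root_mem hN heN
  have heN' : e⁻¹ ^ N = 1 := by rw [inv_pow, heN, inv_one]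
  obtain ⟨heK', heI'⟩ := root_mem hN heN'
  by_cases he2 : e ^ 2 = 1
  · rw [← r1, ← r2]
    exact sq_eq_one_case hw2 he2 (by rw [r1]; exact h1) (by rw [r2]; exact h2)
  exfalso
  have a1 : w1 + w1⁻¹ = 2 * (x1 : ℂ) := by rw [add_inv_eq n1, r1]
  have a2 : e * w1 + (e * w1)⁻¹ = 2 * (x2 : ℂ) := by rw [← hw2, add_inv_eq n2, r2]
  have hK : w1 ∈ KN N := by
    have h3 : (e ^ 2 - 1) * w1 = e * (2 * (x2 : ℂ)) - 2 * (x1 : ℂ) := by
      rw [← a1, ← a2]
      field_simp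
      ring
    have h4 : e ^ 2 - 1 ≠ 0 := sub_ne_zero.2 he2
    have h5 : w1 = (e * (2 * (x2 : ℂ)) - 2 * (x1 : ℂ)) / (e ^ 2 - 1) := by
      rw [← h3]; field_simp
    have h2K : (2 : ℂ) ∈ KN N := by
      have := natCast_mem (KN N) 2
      exact_mod_cast this
    rw [h5]
    exact div_mem (sub_mem (mul_mem heK (mul_mem h2K hx2)) (mul_mem h2K hx1))
      (sub_mem (pow_mem heK 2) (one_mem _))
  obtain ⟨-, hcI⟩ := ncos_mem hN hc
  obtain ⟨-, hcI'⟩ := ncos_mem hN hc'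
  have hI : IsIntegral ℤ w1 := by
    have hs : IsIntegral ℤ ((2 * (c : ℂ)) * (2 * (c' : ℂ)) - e - e⁻¹) :=
      ((hcI.mul hcI').sub heI).sub heI'
    have hprod' : (x1 : ℂ) * x2 = c * c' := by exact_mod_cast hprod
    have hs' : (2 * (c : ℂ)) * (2 * (c' : ℂ)) = (w1 + w1⁻¹) * (e * w1 + (e * w1)⁻¹) := by
      rw [a1, a2]
      linear_combination (-4) * hprod'
    have hy : IsIntegral ℤ (e * w1 ^ 2) := by
      apply isIntegral_of_add_inv hs
      rw [hs']
      field_simp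
      ring
    have hw : IsIntegral ℤ (w1 ^ 2) := by
      have : w1 ^ 2 = e * w1 ^ 2 * e⁻¹ := by field_simp
      rw [this]
      exact hy.mul heI'
    exact IsIntegral.of_pow (by norm_num) hw
  exact hκ (by rw [← p1]; exact key hN hev hK hI n1)

/-- Roots of unity have real parts of the form `cs M k`. -/
theorem ncos_of_pow {M : ℕ} (hM : 0 < M) {w : ℂ} (hw : w ^ M = 1) : NCos M w.re := by
  have hNz : NeZero M := ⟨hM.ne'⟩
  obtain ⟨i, -, hi⟩ := (zt_prim hM).eq_pow_of_pow_eq_one hw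
  refine ⟨(i : ℤ), ?_⟩
  have h1 := zt_zpow hM (i : ℤ)
  rw [zpow_natCast, hi] at h1
  rw [h1, Complex.exp_ofReal_mul_I_re]
  rfl

/-- TARGET 2 (the conclusion: either equal, or the angles of `w1 w2 w3` are rational) -/
theorem lemmaC {N : ℕ} (hN : 0 < N) (hev : Even N) {c c' : ℝ} (hc : NCos N c) (hc' : NCos N c')
    {w1 w2 w3 κ : ℂ} (n1 : ‖w1‖ = 1) (n2 : ‖w2‖ = 1) (n3 : ‖w3‖ = 1)
    (p1 : w1 ^ N = κ) (p2 : w2 ^ N = κ) (p3 : w3 ^ N = κ)
    (q1 : 0 < w1.re) (q2 : 0 < w2.re)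
    (e1 : w1.re * w3.re = c) (e2 : w2.re * w3.re = c') :
    w1.re = w2.re ∨ ∃ M : ℕ, 0 < M ∧ Even M ∧ N ∣ M ∧ NCos M w1.re ∧ NCos M w2.re ∧ NCos M w3.re := by
  have w10 := ne_zero_of_norm n1
  have w20 := ne_zero_of_norm n2
  have w30 := ne_zero_of_norm n3
  have hκ0 : κ ≠ 0 := by rw [← p1]; exact pow_ne_zero _ w10
  set e := w2 / w1 with he
  have hw2 : w2 = e * w1 := by rw [he]; field_simp
  have heN : e ^ N = 1 := by rw [he, div_pow, p1, p2, div_self hκ0]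
  have e0 : e ≠ 0 := div_ne_zero w20 w10
  obtain ⟨heK, heI⟩ := root_mem hN heN
  by_cases he2 : e ^ 2 = 1
  · left
    exact sq_eq_one_case hw2 he2 q1 q2
  right
  set f := w1 / w3 with hf
  have hfN : f ^ N = 1 := by rw [hf, div_pow, p1, p3, div_self hκ0]
  have f0 : f ≠ 0 := div_ne_zero w10 w30
  obtain ⟨hfK, hfI⟩ := root_mem hN hfN
  have hfN' : f⁻¹ ^ N = 1 := by rw [inv_pow, hfN, inv_one]
  obtain ⟨hfK', hfI'⟩ := root_mem hN hfN'
  have hefN : (e * f) ^ N = 1 := by rw [mul_pow, heN, hfN, one_mul]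
  obtain ⟨hefK, hefI⟩ := root_mem hN hefN
  have hefN' : (e * f)⁻¹ ^ N = 1 := by rw [inv_pow, hefN, inv_one]
  obtain ⟨hefK', hefI'⟩ := root_mem hN hefN'
  obtain ⟨hcK, hcI⟩ := ncos_mem hN hc
  obtain ⟨hcK', hcI'⟩ := ncos_mem hN hc'
  set u := w1 * w3 with hu
  have u0 : u ≠ 0 := mul_ne_zero w10 w30
  have a1 := add_inv_eq n1
  have a2 := add_inv_eq n2
  have a3 := add_inv_eq n3
  have e1' : (w1.re : ℂ) * w3.re = c := by exact_mod_cast e1
  have e2' : (w2.re : ℂ) * w3.re = c' := by exact_mod_cast e2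
  set s1 : ℂ := 2 * (2 * (c : ℂ)) - f - f⁻¹ with hs1
  set s2 : ℂ := 2 * (2 * (c' : ℂ)) - e * f - (e * f)⁻¹ with hs2
  have b1 : s1 = u + u⁻¹ := by
    have h1 : 2 * (2 * (c : ℂ)) = (w1 + w1⁻¹) * (w3 + w3⁻¹) := by
      rw [a1, a3]; linear_combination (-4) * e1'
    rw [hs1, h1, hu, hf]
    field_simp
    ring
  have b2 : s2 = e * u + (e * u)⁻¹ := by
    have h1 : 2 * (2 * (c' : ℂ)) = (w2 + w2⁻¹) * (w3 + w3⁻¹) := by
      rw [a2, a3]; linear_combination (-4) * e2'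
    rw [hs2, h1, hu, hf, hw2]
    field_simp
    ring
  have h2K : (2 : ℂ) ∈ KN N := by
    have := natCast_mem (KN N) 2
    exact_mod_cast this
  have h2I : IsIntegral ℤ (2 : ℂ) := by
    have := isIntegral_algebraMap (R := ℤ) (A := ℂ) (x := 2)
    simpa using this
  have hs1K : s1 ∈ KN N := sub_mem (sub_mem (mul_mem h2K hcK) hfK) hfK'
  have hs2K : s2 ∈ KN N := sub_mem (sub_mem (mul_mem h2K hcK') hefK) hefK'
  have hs1I : IsIntegral ℤ s1 := ((h2I.mul hcI).sub hfI).sub hfI'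
  have huK : u ∈ KN N := by
    have h3 : (e ^ 2 - 1) * u = e * s2 - s1 := by
      rw [b1, b2]
      field_simp
      ring
    have h4 : e ^ 2 - 1 ≠ 0 := sub_ne_zero.2 he2
    have h5 : u = (e * s2 - s1) / (e ^ 2 - 1) := by
      rw [← h3]; field_simp
    rw [h5]
    exact div_mem (sub_mem (mul_mem heK hs2K) hs1K) (sub_mem (pow_mem heK 2) (one_mem _))
  have huI : IsIntegral ℤ u := by
    apply isIntegral_of_add_inv hs1I
    rw [b1]
    field_simp
    ring
  have hun : ‖u‖ = 1 := by rw [hu, norm_mul, n1, n3, one_mul]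
  have huN : u ^ N = 1 := key hN hev huK huI hun
  have k1 : w1 ^ (2 * N) = 1 := by
    have : w1 ^ 2 = u * f := by rw [hu, hf]; field_simp
    rw [pow_mul, this, mul_pow, huN, hfN, one_mul]
  have k3 : w3 ^ (2 * N) = 1 := by
    have : w3 ^ 2 = u * f⁻¹ := by rw [hu, hf]; field_simp
    rw [pow_mul, this, mul_pow, huN, hfN', one_mul]
  have k2 : w2 ^ (2 * N) = 1 := by
    rw [hw2, mul_pow, k1, mul_comm 2 N, pow_mul, heN]; simp
  have hM : 0 < 2 * N := by omega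
  exact ⟨2 * N, hM, even_two_mul N, Dvd.intro_left 2 rfl, ncos_of_pow hM k1, ncos_of_pow hM k2,
    ncos_of_pow hM k3⟩

end Pool.Agent.Helper644.FC
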