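import Mathlib
import Pool.Agent.Helper644.FCN

set_option autoImplicit false

/-!
The two matrix systems have no solution.
-/

namespace Pool.Agent.Helper644.FC

theorem NCos_mul_dvd {N M : ℕ} (hN : 0 < N) (hM : 0 < M) (h : N ∣ M) {c : ℝ} (hc : NCos N c) :
    NCos M c := by
  obtain ⟨k, hk⟩ := hc
  obtain ⟨d, rfl⟩ := h
  have hd : (d : ℝ) ≠ 0 := by
    have : d ≠ 0 := by rintro rfl; simp at hM
    exact_mod_cast this
  have hN' : (N : ℝ) ≠ 0 := by exact_mod_cast hN.ne'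
  refine ⟨k * d, ?_⟩
  rw [hk, cs, cs]
  congr 1
  push_cast
  field_simp

theorem InK_of_NCos {N : ℕ} (hN : 0 < N) {c : ℝ} (hc : NCos N c) : InK N c := by
  obtain ⟨k, rfl⟩ := hc
  unfold InK
  have h2 := two_cs hN k
  have hz : zt N ∈ IntermediateField.adjoin ℚ {zt N} :=
    IntermediateField.mem_adjoin_simple_self ℚ (zt N)
  have h3 : ((2 * cs N k : ℝ) : ℂ) ∈ IntermediateField.adjoin ℚ {zt N} := by
    rw [h2]
    exact add_mem (zpow_mem hz k) (zpow_mem hz (-k))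
  have h4 : (cs N k : ℂ) = ((2 * cs N k : ℝ) : ℂ) / 2 := by
    push_cast; ring
  rw [h4]
  exact div_mem h3 (by
    have : (2 : ℂ) = ((2 : ℚ) : ℂ) := by norm_num
    rw [this]
    exact (IntermediateField.adjoin ℚ {zt N}).algebraMap_mem 2)

theorem InK_mul {N : ℕ} {x y : ℝ} (hx : InK N x) (hy : InK N y) : InK N (x * y) := by
  unfold InK at *
  push_cast
  exact mul_mem hx hy

theorem InK_div {N : ℕ} {x y : ℝ} (hx : InK N x) (hy : InK N y) : InK N (x / y) := by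
  unfold InK at *
  push_cast
  exact div_mem hx hy

/-- Lemma A in the form used: two products with a common factor. -/
theorem lemmaA' {N : ℕ} (hN : 0 < N) (hev : Even N) {a b c : ℝ} (ha : NCos N a) (hb : NCos N b)
    (hc : NCos N c) (ha0 : 0 < a) (ha1 : a < 1) (hb0 : 0 < b) (hb1 : b < 1) (h : c = a * b) :
    a = Real.sqrt (1 / 2) ∧ b = Real.sqrt (1 / 2) := by
  obtain ⟨h1, h2⟩ := lemmaA hN hev ha hb hc ha0 ha1 hb0 hb1 h
  constructor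
  · rw [← h1, Real.sqrt_sq ha0.le]
  · rw [← h2, Real.sqrt_sq hb0.le]

/-- the system without special classes, three explicit indices, no foot -/
theorem sys_nofoot {N : ℕ} (hN : 0 < N) (hev : Even N) {r1 r2 r3 s1 s2 s3 : ℝ}
    (hr1 : 0 < r1) (hr2 : 0 < r2) (hr3 : 0 < r3) (hs1 : 0 < s1) (hs2 : 0 < s2) (hs3 : 0 < s3)
    (r12 : r1 ≠ r2) (r13 : r1 ≠ r3) (r23 : r2 ≠ r3)
    {κ : ℂ} (hκ : κ ≠ 1)
    (m12 : 1 < r1 * s2 ∧ NCos N (1 / (r1 * s2))) (m21 : 1 < r2 * s1 ∧ NCos N (1 / (r2 * s1)))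
    (m13 : 1 < r1 * s3 ∧ NCos N (1 / (r1 * s3))) (m31 : 1 < r3 * s1 ∧ NCos N (1 / (r3 * s1)))
    (m23 : 1 < r2 * s3 ∧ NCos N (1 / (r2 * s3))) (m32 : 1 < r3 * s2 ∧ NCos N (1 / (r3 * s2)))
    (d1 : ∃ w : ℂ, ‖w‖ = 1 ∧ w.re = 1 / (r1 * s1) ∧ w ^ N = κ)
    (d2 : ∃ w : ℂ, ‖w‖ = 1 ∧ w.re = 1 / (r2 * s2) ∧ w ^ N = κ)
    (d3 : ∃ w : ℂ, ‖w‖ = 1 ∧ w.re = 1 / (r3 * s3) ∧ w ^ N = κ) : False := by
  obtain ⟨w1, a1, b1, c1⟩ := d1
  obtain ⟨w2, a2, b2, c2⟩ := d2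
  obtain ⟨w3, a3, b3, c3⟩ := d3
  have K12 := InK_of_NCos hN m12.2
  have K21 := InK_of_NCos hN m21.2
  have K13 := InK_of_NCos hN m13.2
  have K31 := InK_of_NCos hN m31.2
  have K23 := InK_of_NCos hN m23.2
  have K32 := InK_of_NCos hN m32.2
  have x1 : InK N (1 / (r1 * s1)) := by
    have : 1 / (r1 * s1) = (1 / (r2 * s1)) * (1 / (r1 * s3)) / (1 / (r2 * s3)) := by
      field_simp
    rw [this]; exact InK_div (InK_mul K21 K13) K23
  have x2 : InK N (1 / (r2 * s2)) := by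
    have : 1 / (r2 * s2) = (1 / (r1 * s2)) * (1 / (r2 * s3)) / (1 / (r1 * s3)) := by
      field_simp
    rw [this]; exact InK_div (InK_mul K12 K23) K13
  have x3 : InK N (1 / (r3 * s3)) := by
    have : 1 / (r3 * s3) = (1 / (r1 * s3)) * (1 / (r3 * s2)) / (1 / (r1 * s2)) := by
      field_simp
    rw [this]; exact InK_div (InK_mul K13 K32) K12
  have p1 : 0 < 1 / (r1 * s1) := by positivity
  have p2 : 0 < 1 / (r2 * s2) := by positivity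
  have p3 : 0 < 1 / (r3 * s3) := by positivity
  have e12 : 1 / (r1 * s1) = 1 / (r2 * s2) :=
    lemmaI hN hev x1 x2 p1 p2 m12.2 m21.2 (by field_simp) a1 a2 c1 c2 hκ b1 b2
  have e13 : 1 / (r1 * s1) = 1 / (r3 * s3) :=
    lemmaI hN hev x1 x3 p1 p3 m13.2 m31.2 (by field_simp) a1 a3 c1 c3 hκ b1 b3
  have e12' : r1 * s1 = r2 * s2 := by
    field_simp at e12; linarith
  have e13' : r1 * s1 = r3 * s3 := by
    field_simp at e13; linarith
  have lt1 : ∀ {a b : ℝ}, 0 < a → 0 < b → 1 < a * b → 0 < 1 / (a * b) ∧ 1 / (a * b) < 1 := by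
    intro a b ha hb hab
    exact ⟨by positivity, by rw [div_lt_one (by positivity)]; exact hab⟩
  have neq : ∀ {ra rb sa sb : ℝ}, 0 < ra → 0 < rb → 0 < sa → 0 < sb → ra ≠ rb →
      ra * sa = rb * sb → 1 / (ra * sb) ≠ 1 / (rb * sa) := by
    intro ra rb sa sb h1 h2 h3 h4 hne heq h
    apply hne
    have h5 : ra * sb = rb * sa := by
      field_simp at h; linarith
    have h6 : (ra - rb) * (sa + sb) = 0 := by linarith
    rcases mul_eq_zero.mp h6 with h7 | h7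
    · linarith
    · linarith
  refine lemmaD hN hev m12.2 m21.2 m13.2 m31.2 m23.2 m32.2 (lt1 hr1 hs2 m12.1) (lt1 hr2 hs1 m21.1)
    (lt1 hr1 hs3 m13.1) (lt1 hr3 hs1 m31.1) (lt1 hr2 hs3 m23.1) (lt1 hr3 hs2 m32.1)
    ?_ ?_ ?_ ?_ (neq hr1 hr2 hs1 hs2 r12 e12') (neq hr1 hr3 hs1 hs3 r13 e13')
    (neq hr2 hr3 hs2 hs3 r23 (e12'.symm.trans e13'))
  · have : (r1 * s1) * (r2 * s2) = (r1 * s1) * (r3 * s3) := by rw [← e12', ← e13']
    field_simp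
    nlinarith
  · have : (r1 * s1) * (r2 * s2) = (r2 * s2) * (r3 * s3) := by rw [← e12', ← e13']
    field_simp
    nlinarith
  · field_simp
  · have hx : r2 * s2 = r1 * s1 := e12'.symm
    have hy : r3 * s3 = r1 * s1 := e13'.symm
    have h1 : (1 / (r1 * s2) * (1 / (r2 * s3)) * (1 / (r3 * s1))) = 1 / ((r1 * s1) * (r2 * s2) * (r3 * s3)) := by
      field_simp
    have h2 : (1 / (r1 * s2) * (1 / (r2 * s1))) = 1 / ((r1 * s1) * (r2 * s2)) := by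
      field_simp
    rw [h1, h2, hx, hy]
    field_simp

/-- one foot at index 3 -/
theorem sys_foot {N : ℕ} (hN : 0 < N) (hev : Even N) {r1 r2 r3 s1 s2 s3 : ℝ}
    (hr1 : 0 < r1) (hr2 : 0 < r2) (hr3 : 0 < r3) (hs1 : 0 < s1) (hs2 : 0 < s2) (hs3 : 0 < s3)
    (r12 : r1 ≠ r2)
    (m12 : 1 < r1 * s2 ∧ NCos N (1 / (r1 * s2))) (m21 : 1 < r2 * s1 ∧ NCos N (1 / (r2 * s1)))
    (m13 : 1 < r1 * s3 ∧ NCos N (1 / (r1 * s3))) (m31 : 1 < r3 * s1 ∧ NCos N (1 / (r3 * s1)))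
    (m23 : 1 < r2 * s3 ∧ NCos N (1 / (r2 * s3))) (m32 : 1 < r3 * s2 ∧ NCos N (1 / (r3 * s2)))
    (f3 : r3 * s3 = 1) : False := by
  have lt1 : ∀ {a b : ℝ}, 0 < a → 0 < b → 1 < a * b → 0 < 1 / (a * b) ∧ 1 / (a * b) < 1 := by
    intro a b ha hb hab
    exact ⟨by positivity, by rw [div_lt_one (by positivity)]; exact hab⟩
  have h1 := lemmaA' hN hev m13.2 m32.2 m12.2 (lt1 hr1 hs3 m13.1).1 (lt1 hr1 hs3 m13.1).2
    (lt1 hr3 hs2 m32.1).1 (lt1 hr3 hs2 m32.1).2 (by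
      have : r1 * s3 * (r3 * s2) = r1 * s2 := by
        calc r1 * s3 * (r3 * s2) = r1 * s2 * (r3 * s3) := by ring
          _ = r1 * s2 := by rw [f3, mul_one]
      rw [one_div_mul_one_div, this])
  have h2 := lemmaA' hN hev m23.2 m31.2 m21.2 (lt1 hr2 hs3 m23.1).1 (lt1 hr2 hs3 m23.1).2
    (lt1 hr3 hs1 m31.1).1 (lt1 hr3 hs1 m31.1).2 (by
      have : r2 * s3 * (r3 * s1) = r2 * s1 := by
        calc r2 * s3 * (r3 * s1) = r2 * s1 * (r3 * s3) := by ring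
          _ = r2 * s1 := by rw [f3, mul_one]
      rw [one_div_mul_one_div, this])
  have h3 : 1 / (r1 * s3) = 1 / (r2 * s3) := h1.1.trans h2.1.symm
  apply r12
  field_simp at h3
  linarith

/-- the system with one special class on each side, at index 3 -/
theorem sys_special {N : ℕ} (hN : 0 < N) (hev : Even N) {r1 r2 r3 s1 s2 s3 : ℝ}
    (hr1 : 0 < r1) (hr2 : 0 < r2) (hr3 : 0 < r3) (hs1 : 0 < s1) (hs2 : 0 < s2) (hs3 : 0 < s3)
    (s12 : s1 ≠ s2) {κ : ℂ}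
    (m11 : 1 < r1 * s1 ∧ NCos N (1 / (r1 * s1))) (m12 : 1 < r1 * s2 ∧ NCos N (1 / (r1 * s2)))
    (l13 : 1 < r1 * s3) (l31 : 1 < r3 * s1) (l32 : 1 < r3 * s2)
    (f3 : r3 * s3 = 1)
    (d13 : ∃ w : ℂ, ‖w‖ = 1 ∧ w.re = 1 / (r1 * s3) ∧ w ^ N = κ)
    (d31 : ∃ w : ℂ, ‖w‖ = 1 ∧ w.re = 1 / (r3 * s1) ∧ w ^ N = κ)
    (d32 : ∃ w : ℂ, ‖w‖ = 1 ∧ w.re = 1 / (r3 * s2) ∧ w ^ N = κ) : False := by
  obtain ⟨w3, a3, b3, c3⟩ := d13
  obtain ⟨w1, a1, b1, c1⟩ := d31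
  obtain ⟨w2, a2, b2, c2⟩ := d32
  have lt1 : ∀ {a b : ℝ}, 0 < a → 0 < b → 1 < a * b → 0 < 1 / (a * b) ∧ 1 / (a * b) < 1 := by
    intro a b ha hb hab
    exact ⟨by positivity, by rw [div_lt_one (by positivity)]; exact hab⟩
  have e1 : w1.re * w3.re = 1 / (r1 * s1) := by
    rw [b1, b3]
    have : r3 * s1 * (r1 * s3) = r1 * s1 := by
      calc r3 * s1 * (r1 * s3) = r1 * s1 * (r3 * s3) := by ring
        _ = r1 * s1 := by rw [f3, mul_one]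
    rw [one_div_mul_one_div, this]
  have e2 : w2.re * w3.re = 1 / (r1 * s2) := by
    rw [b2, b3]
    have : r3 * s2 * (r1 * s3) = r1 * s2 := by
      calc r3 * s2 * (r1 * s3) = r1 * s2 * (r3 * s3) := by ring
        _ = r1 * s2 := by rw [f3, mul_one]
    rw [one_div_mul_one_div, this]
  have hne : 1 / (r3 * s1) ≠ 1 / (r3 * s2) := by
    intro h
    apply s12
    field_simp at h
    linarith
  rcases lemmaC hN hev m11.2 m12.2 a1 a2 a3 c1 c2 c3 (by rw [b1]; exact (lt1 hr3 hs1 l31).1)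
    (by rw [b2]; exact (lt1 hr3 hs2 l32).1) e1 e2 with h | ⟨M, hM, hMe, hNM, g1, g2, g3⟩
  · rw [b1, b2] at h
    exact hne h
  · have k1 := lemmaA' hM hMe g1 g3 (NCos_mul_dvd hN hM hNM m11.2)
      (by rw [b1]; exact (lt1 hr3 hs1 l31).1) (by rw [b1]; exact (lt1 hr3 hs1 l31).2)
      (by rw [b3]; exact (lt1 hr1 hs3 l13).1) (by rw [b3]; exact (lt1 hr1 hs3 l13).2) e1.symm
    have k2 := lemmaA' hM hMe g2 g3 (NCos_mul_dvd hN hM hNM m12.2)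
      (by rw [b2]; exact (lt1 hr3 hs2 l32).1) (by rw [b2]; exact (lt1 hr3 hs2 l32).2)
      (by rw [b3]; exact (lt1 hr1 hs3 l13).1) (by rw [b3]; exact (lt1 hr1 hs3 l13).2) e2.symm
    apply hne
    rw [← b1, ← b2, k1.1, k2.1]

end Pool.Agent.Helper644.FC
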