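import Mathlib
import Pool.Agent.Helper644.FC1

set_option autoImplicit false

/-!
Points and poles: the self-dual form of the configuration.
-/

namespace Pool.Agent.Helper644.FC

open ComplexConjugate

/-- incidence of a point and (the polar line of) a pole -/
def Inc (p q : ℂ) : Prop := (p * conj q).re = 1

/-- a symmetry of the pair of point sets -/
def IsG (P Q : Set ℂ) (f : ℂ → ℂ) : Prop :=
  (f '' P = P ∧ f '' Q = Q) ∧ ∃ a : ℂ, ‖a‖ = 1 ∧ (f = rot a ∨ f = refl a)

/-- the mirror image of `p` in the line through `0` and `q` -/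
noncomputable def sp (p q : ℂ) : ℂ := (q / conj q) * conj p

/-- the number of points of `P` of norm `ρ` incident with `q` -/
noncomputable def nn (P : Set ℂ) (q : ℂ) (ρ : ℝ) : ℕ := {p ∈ P | ‖p‖ = ρ ∧ Inc p q}.ncard

/-- one half of the data -/
structure HC (P Q : Set ℂ) (x : Fin 3 → ℂ) : Prop where
  fin : P.Finite
  zero : (0 : ℂ) ∉ P
  five : ∀ q ∈ Q, {p ∈ P | Inc p q}.ncard = 5
  mem : ∀ i, x i ∈ P
  orb : ∀ p ∈ P, ∃ i, ∃ f, IsG P Q f ∧ f (x i) = p

end Pool.Agent.Helper644.FC
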