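import Mathlib
import Pool.Agent.Helper644.FC3

set_option autoImplicit false

/-!
Basic facts on incidences, mirror images, and the symmetry group.
-/

namespace Pool.Agent.Helper644.FC

open ComplexConjugate

theorem Inc_comm {p q : ℂ} : Inc p q ↔ Inc q p := by
  unfold Inc
  have : (p * conj q).re = (q * conj p).re := by
    simp [Complex.mul_re]; ring
  rw [this]

theorem Inc_ne_left {p q : ℂ} (h : Inc p q) : p ≠ 0 := by
  rintro rfl
  simp [Inc] at h

theorem Inc_ne_right {p q : ℂ} (h : Inc p q) : q ≠ 0 := Inc_ne_left (Inc_comm.1 h)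

theorem conj_ne {q : ℂ} (h : q ≠ 0) : conj q ≠ 0 := by
  simpa using h

theorem norm_sp {p q : ℂ} (hq : q ≠ 0) : ‖sp p q‖ = ‖p‖ := by
  unfold sp
  rw [norm_mul, norm_div, Complex.norm_conj, Complex.norm_conj, div_self (norm_ne_zero_iff.2 hq),
    one_mul]

theorem Inc_sp {p q : ℂ} (hq : q ≠ 0) (h : Inc p q) : Inc (sp p q) q := by
  have hq' := conj_ne hq
  have h1 : sp p q * conj q = conj (p * conj q) := by
    unfold sp
    rw [map_mul, Complex.conj_conj]
    field_simp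
  unfold Inc at *
  rw [h1, Complex.conj_re, h]

theorem re_norm_eq {w w1 : ℂ} (h1 : w.re = w1.re) (h2 : ‖w‖ = ‖w1‖) : w1 = w ∨ w1 = conj w := by
  have h3 : Complex.normSq w = Complex.normSq w1 := by
    rw [Complex.normSq_eq_norm_sq, Complex.normSq_eq_norm_sq, h2]
  rw [Complex.normSq_apply, Complex.normSq_apply, h1] at h3
  have h4 : (w1.im - w.im) * (w1.im + w.im) = 0 := by linarith
  rcases mul_eq_zero.1 h4 with h | h
  · left
    apply Complex.ext h1.symm
    linarith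
  · right
    apply Complex.ext
    · rw [Complex.conj_re]; exact h1.symm
    · rw [Complex.conj_im]; linarith

theorem two_on_circle {p p1 q : ℂ} (h : Inc p q) (h1 : Inc p1 q) (hn : ‖p1‖ = ‖p‖) :
    p1 = p ∨ p1 = sp p q := by
  have hq := Inc_ne_right h
  have hq' := conj_ne hq
  have h2 : ‖p * conj q‖ = ‖p1 * conj q‖ := by rw [norm_mul, norm_mul, hn]
  have h3 : (p * conj q).re = (p1 * conj q).re := by
    rw [h, h1]
  rcases re_norm_eq h3 h2 with h4 | h4
  · left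
    exact mul_right_cancel₀ hq' h4
  · right
    apply mul_right_cancel₀ hq'
    rw [h4]
    unfold sp
    rw [map_mul, Complex.conj_conj]
    field_simp

section counts

variable {P : Set ℂ}

theorem fin_sub (hP : P.Finite) (q : ℂ) (ρ : ℝ) : {p ∈ P | ‖p‖ = ρ ∧ Inc p q}.Finite :=
  hP.subset (fun _ h => h.1)

theorem nn_le (P : Set ℂ) (q : ℂ) (ρ : ℝ) : nn P q ρ ≤ 2 := by
  unfold nn
  by_cases he : {p ∈ P | ‖p‖ = ρ ∧ Inc p q} = ∅
  · rw [he, Set.ncard_empty]; norm_num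
  · obtain ⟨p, hp, hn, hi⟩ := Set.nonempty_iff_ne_empty.2 he
    have hsub : {p ∈ P | ‖p‖ = ρ ∧ Inc p q} ⊆ {p, sp p q} := by
      rintro p1 ⟨_, hn1, hi1⟩
      rcases two_on_circle hi hi1 (by rw [hn, hn1]) with h | h
      · exact Or.inl h
      · exact Or.inr h
    refine (Set.ncard_le_ncard hsub (Set.toFinite _)).trans ?_
    have := Set.ncard_insert_le p {sp p q}
    rw [Set.ncard_singleton] at this
    exact this

theorem nn_two (hP : P.Finite) {p q : ℂ} (hp : p ∈ P) (hi : Inc p q) :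
    nn P q ‖p‖ = 2 ↔ sp p q ∈ P ∧ sp p q ≠ p := by
  have hq := Inc_ne_right hi
  constructor
  · intro h
    have h1 : 1 < {p' ∈ P | ‖p'‖ = ‖p‖ ∧ Inc p' q}.ncard := by
      unfold nn at h
      omega
    obtain ⟨p1, hp1, hne⟩ := Set.exists_ne_of_one_lt_ncard h1 p
    obtain ⟨a1, a2, a3⟩ := hp1
    rcases two_on_circle hi a3 a2 with h2 | h2
    · exact absurd h2 hne
    · rw [← h2]
      exact ⟨a1, hne⟩
  · rintro ⟨h1, h2⟩
    apply le_antisymm (nn_le P q ‖p‖)
    have hsub : {p, sp p q} ⊆ {p' ∈ P | ‖p'‖ = ‖p‖ ∧ Inc p' q} := by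
      rintro z (rfl | hz)
      · exact ⟨hp, rfl, hi⟩
      · rw [Set.mem_singleton_iff.1 hz]
        exact ⟨h1, norm_sp hq, Inc_sp hq hi⟩
    have := Set.ncard_le_ncard hsub (fin_sub hP q ‖p‖)
    rw [Set.ncard_pair (Ne.symm h2)] at this
    exact this

theorem nn_pos (hP : P.Finite) {p q : ℂ} (hp : p ∈ P) (hi : Inc p q) : 1 ≤ nn P q ‖p‖ := by
  unfold nn
  rw [Nat.one_le_iff_ne_zero]
  intro h
  rw [Set.ncard_eq_zero (fin_sub hP q ‖p‖)] at h
  have : p ∈ {p' ∈ P | ‖p'‖ = ‖p‖ ∧ Inc p' q} := ⟨hp, rfl, hi⟩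
  rw [h] at this
  exact this

end counts

section group

variable {P Q : Set ℂ}

theorem IsG.swap {f : ℂ → ℂ} (h : IsG P Q f) : IsG Q P f := ⟨⟨h.1.2, h.1.1⟩, h.2⟩

theorem IsG.norm {f : ℂ → ℂ} (h : IsG P Q f) (z : ℂ) : ‖f z‖ = ‖z‖ := by
  obtain ⟨a, ha, rfl | rfl⟩ := h.2
  · simp [rot, ha]
  · simp [refl, ha]

theorem IsG.inc {f : ℂ → ℂ} (h : IsG P Q f) (p q : ℂ) : Inc (f p) (f q) ↔ Inc p q := by
  obtain ⟨a, ha, rfl | rfl⟩ := h.2
  · have h1 : a * conj a = 1 := by
      rw [Complex.mul_conj, Complex.normSq_eq_norm_sq, ha]; norm_num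
    have h2 : rot a p * conj (rot a q) = p * conj q := by
      unfold rot
      rw [map_mul]
      linear_combination (p * conj q) * h1
    unfold Inc
    rw [h2]
  · have h1 : a * conj a = 1 := by
      rw [Complex.mul_conj, Complex.normSq_eq_norm_sq, ha]; norm_num
    have h2 : refl a p * conj (refl a q) = conj (p * conj q) := by
      unfold refl
      rw [map_mul, map_mul, Complex.conj_conj]
      linear_combination (conj p * q) * h1
    unfold Inc
    rw [h2, Complex.conj_re]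

theorem rot_comp (a b : ℂ) : rot a ∘ rot b = rot (a * b) := by
  funext z; simp [rot]; ring
theorem rot_refl (a b : ℂ) : rot a ∘ refl b = refl (a * b) := by
  funext z; simp [rot, refl]; ring
theorem refl_rot (a b : ℂ) : refl a ∘ rot b = refl (a * conj b) := by
  funext z; simp [rot, refl]; ring
theorem refl_refl (a b : ℂ) : refl a ∘ refl b = rot (a * conj b) := by
  funext z; simp [rot, refl]; ring

theorem IsG.comp {f g : ℂ → ℂ} (hf : IsG P Q f) (hg : IsG P Q g) : IsG P Q (f ∘ g) := by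
  refine ⟨⟨?_, ?_⟩, ?_⟩
  · rw [Set.image_comp, hg.1.1, hf.1.1]
  · rw [Set.image_comp, hg.1.2, hf.1.2]
  · obtain ⟨a, ha, h1 | h1⟩ := hf.2 <;> obtain ⟨b, hb, h2 | h2⟩ := hg.2
    · exact ⟨a * b, by rw [norm_mul, ha, hb, one_mul], Or.inl (by rw [h1, h2, rot_comp])⟩
    · exact ⟨a * b, by rw [norm_mul, ha, hb, one_mul], Or.inr (by rw [h1, h2, rot_refl])⟩
    · exact ⟨a * conj b, by rw [norm_mul, Complex.norm_conj, ha, hb, one_mul],
        Or.inr (by rw [h1, h2, refl_rot])⟩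
    · exact ⟨a * conj b, by rw [norm_mul, Complex.norm_conj, ha, hb, one_mul],
        Or.inl (by rw [h1, h2, refl_refl])⟩

theorem IsG.inv {f : ℂ → ℂ} (hf : IsG P Q f) :
    ∃ g, IsG P Q g ∧ (∀ z, g (f z) = z) ∧ (∀ z, f (g z) = z) := by
  have key : ∀ g : ℂ → ℂ, (∀ z, g (f z) = z) → (∃ a : ℂ, ‖a‖ = 1 ∧ (g = rot a ∨ g = refl a)) →
      IsG P Q g := by
    intro g hg h
    refine ⟨⟨?_, ?_⟩, h⟩
    · conv_lhs => rw [← hf.1.1, ← Set.image_comp]
      have : g ∘ f = id := funext hg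
      rw [this, Set.image_id]
    · conv_lhs => rw [← hf.1.2, ← Set.image_comp]
      have : g ∘ f = id := funext hg
      rw [this, Set.image_id]
  obtain ⟨a, ha, h | h⟩ := hf.2
  · have h1 : a * conj a = 1 := by
      rw [Complex.mul_conj, Complex.normSq_eq_norm_sq, ha]; norm_num
    have h2 : ∀ z, rot (conj a) (f z) = z := by
      intro z
      rw [h]; unfold rot
      linear_combination z * h1
    refine ⟨rot (conj a), key _ h2 ⟨conj a, by rw [Complex.norm_conj, ha], Or.inl rfl⟩, h2, ?_⟩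
    intro z
    rw [h]; unfold rot
    linear_combination z * h1
  · have h1 : a * conj a = 1 := by
      rw [Complex.mul_conj, Complex.normSq_eq_norm_sq, ha]; norm_num
    have h2 : ∀ z, refl a (f z) = z := by
      intro z
      rw [h]; unfold refl
      rw [map_mul, Complex.conj_conj]
      linear_combination z * h1
    refine ⟨refl a, key _ h2 ⟨a, ha, Or.inr rfl⟩, h2, ?_⟩
    intro z
    rw [h]; unfold refl
    rw [map_mul, Complex.conj_conj]
    linear_combination z * h1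

theorem IsG.inj {f : ℂ → ℂ} (hf : IsG P Q f) : Function.Injective f := by
  obtain ⟨g, _, h, _⟩ := hf.inv
  exact Function.LeftInverse.injective h

theorem IsG.memP {f : ℂ → ℂ} (hf : IsG P Q f) {p : ℂ} (hp : p ∈ P) : f p ∈ P := by
  rw [← hf.1.1]; exact ⟨p, hp, rfl⟩

theorem IsG.memP_iff {f : ℂ → ℂ} (hf : IsG P Q f) {p : ℂ} : f p ∈ P ↔ p ∈ P := by
  constructor
  · intro h
    obtain ⟨g, hg, h1, _⟩ := hf.inv
    rw [← h1 p]
    exact hg.memP h
  · exact hf.memP

theorem nn_inv {f : ℂ → ℂ} (hf : IsG P Q f) (q : ℂ) (ρ : ℝ) : nn P (f q) ρ = nn P q ρ := by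
  unfold nn
  rw [← Set.ncard_image_of_injective {p ∈ P | ‖p‖ = ρ ∧ Inc p q} hf.inj]
  congr 1
  ext z
  obtain ⟨g, hg, h1, h2⟩ := hf.inv
  constructor
  · rintro ⟨a1, a2, a3⟩
    refine ⟨g z, ⟨hg.memP a1, by rw [hg.norm, a2], ?_⟩, h2 z⟩
    rw [← hf.inc, h2]
    exact a3
  · rintro ⟨p, ⟨a1, a2, a3⟩, rfl⟩
    exact ⟨hf.memP a1, by rw [hf.norm, a2], (hf.inc p q).2 a3⟩

end group

end Pool.Agent.Helper644.FC
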