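import Mathlib
import Pool.Agent.Helper644.FC3

set_option autoImplicit false

namespace Pool.Agent.Helper644.FC

open ComplexConjugate

namespace Grp

theorem rot_comp (a b : ℂ) : rot a ∘ rot b = rot (a * b) := by
  funext z; simp [rot, mul_assoc]

theorem rot_one' : rot 1 = id := by
  funext z; simp [rot]

theorem refl_comp (b c : ℂ) : refl b ∘ refl c = rot (b * conj c) := by
  funext z; simp [rot, refl, mul_assoc]

theorem rot_comp_refl (a b : ℂ) : rot a ∘ refl b = refl (a * b) := by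
  funext z; simp [rot, refl, mul_assoc]

/-- the group of rotations -/
def rotGrp (P Q : Set ℂ) : Subgroup ℂˣ where
  carrier := {u | ‖(u : ℂ)‖ = 1 ∧ rot (u : ℂ) '' P = P ∧ rot (u : ℂ) '' Q = Q}
  one_mem' := by
    refine ⟨by simp, ?_, ?_⟩ <;> simp [rot_one']
  mul_mem' := by
    rintro u v ⟨h1, h2, h3⟩ ⟨k1, k2, k3⟩
    refine ⟨by simp [h1, k1], ?_, ?_⟩
    · rw [Units.val_mul, ← rot_comp, Set.image_comp, k2, h2]
    · rw [Units.val_mul, ← rot_comp, Set.image_comp, k3, h3]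
  inv_mem' := by
    rintro u ⟨h1, h2, h3⟩
    refine ⟨by simp [h1], ?_, ?_⟩
    · conv_lhs => rw [← h2]
      rw [← Set.image_comp, rot_comp, ← Units.val_mul, inv_mul_cancel, Units.val_one, rot_one',
        Set.image_id]
    · conv_lhs => rw [← h3]
      rw [← Set.image_comp, rot_comp, ← Units.val_mul, inv_mul_cancel, Units.val_one, rot_one',
        Set.image_id]

/-- TARGET: the rotations form the group of `m`-th roots of unity, and the reflections are empty or a coset -/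
theorem grp (P Q : Set ℂ) (hP : P.Finite) (hne : P.Nonempty) (h0 : (0 : ℂ) ∉ P) :
    ∃ (m : ℕ) (c : ℂ), 0 < m ∧ ‖c‖ = 1 ∧ (∀ a : ℂ, ‖a‖ = 1 → (IsG P Q (rot a) ↔ a ^ m = 1)) ∧
      ((∀ b : ℂ, ‖b‖ = 1 → ¬ IsG P Q (refl b)) ∨ (∀ b : ℂ, ‖b‖ = 1 → (IsG P Q (refl b) ↔ b ^ m = c))) := by
  classical
  obtain ⟨p0, hp0⟩ := hne
  have hp0' : p0 ≠ 0 := fun h => h0 (h ▸ hp0)
  have : Finite P := hP.to_subtype
  have hfin : Finite (rotGrp P Q) := by
    refine Finite.of_injective (fun u : rotGrp P Q => (⟨((u : ℂˣ) : ℂ) * p0, by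
      have h := u.2.2.1
      have : rot ((u : ℂˣ) : ℂ) p0 ∈ rot ((u : ℂˣ) : ℂ) '' P := ⟨p0, hp0, rfl⟩
      rw [h] at this
      exact this⟩ : P)) ?_
    intro u v huv
    have h1 : ((u : ℂˣ) : ℂ) * p0 = ((v : ℂˣ) : ℂ) * p0 := congrArg Subtype.val huv
    have h2 := mul_right_cancel₀ hp0' h1
    exact Subtype.ext (Units.ext h2)
  set m := Nat.card (rotGrp P Q) with hm
  have hmpos : 0 < m := Nat.card_pos
  have : NeZero m := ⟨hmpos.ne'⟩
  have hle : rotGrp P Q ≤ rootsOfUnity m ℂ := by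
    intro u hu
    rw [mem_rootsOfUnity]
    have h := pow_card_eq_one' (x := (⟨u, hu⟩ : rotGrp P Q))
    have h2 := congrArg (Subtype.val) h
    exact h2
  have heq : rotGrp P Q = rootsOfUnity m ℂ := by
    apply Subgroup.eq_of_le_of_card_ge hle
    rw [← hm, Complex.card_rootsOfUnity]
  have hrot : ∀ a : ℂ, ‖a‖ = 1 → (IsG P Q (rot a) ↔ a ^ m = 1) := by
    intro a ha
    have ha0 : a ≠ 0 := by
      intro h; rw [h] at ha; simp at ha
    have h1 : Units.mk0 a ha0 ∈ rotGrp P Q ↔ Units.mk0 a ha0 ∈ rootsOfUnity m ℂ := by rw [heq]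
    have h2 : Units.mk0 a ha0 ∈ rootsOfUnity m ℂ ↔ a ^ m = 1 := by
      rw [mem_rootsOfUnity, Units.ext_iff]; simp
    rw [← h2, ← h1]
    constructor
    · rintro ⟨⟨h3, h4⟩, -⟩
      exact ⟨ha, h3, h4⟩
    · rintro ⟨-, h3, h4⟩
      exact ⟨⟨h3, h4⟩, a, ha, Or.inl rfl⟩
  by_cases hex : ∃ b0 : ℂ, ‖b0‖ = 1 ∧ IsG P Q (refl b0)
  · obtain ⟨b0, hb0, hG0⟩ := hex
    have hbb : b0 * conj b0 = 1 := by
      rw [Complex.mul_conj, Complex.normSq_eq_norm_sq, hb0]; simp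
    refine ⟨m, b0 ^ m, hmpos, by rw [norm_pow, hb0, one_pow], hrot, Or.inr ?_⟩
    intro b hb
    have hn : ‖b * conj b0‖ = 1 := by
      rw [norm_mul, hb, RCLike.norm_conj, hb0, one_mul]
    have hb1 : (b * conj b0) * b0 = b := by
      rw [mul_assoc, mul_comm (conj b0) b0, hbb, mul_one]
    have h1 : IsG P Q (refl b) ↔ IsG P Q (rot (b * conj b0)) := by
      constructor
      · rintro ⟨⟨h3, h4⟩, -⟩
        refine ⟨⟨?_, ?_⟩, b * conj b0, hn, Or.inl rfl⟩
        · rw [← refl_comp, Set.image_comp, hG0.1.1, h3]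
        · rw [← refl_comp, Set.image_comp, hG0.1.2, h4]
      · rintro ⟨⟨h3, h4⟩, -⟩
        refine ⟨⟨?_, ?_⟩, b, hb, Or.inr rfl⟩
        · rw [← hb1, ← rot_comp_refl, Set.image_comp, hG0.1.1, h3]
        · rw [← hb1, ← rot_comp_refl, Set.image_comp, hG0.1.2, h4]
    rw [h1, hrot _ hn]
    constructor
    · intro h
      rw [← hb1, mul_pow, h, one_mul]
    · intro h
      rw [mul_pow, h, ← mul_pow, hbb, one_pow]
  · refine ⟨m, 1, hmpos, by simp, hrot, Or.inl ?_⟩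
    intro b hb hG
    exact hex ⟨b, hb, hG⟩

end Grp

end Pool.Agent.Helper644.FC
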