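import Mathlib
import Pool.Agent.Helper644.FC4
import Pool.Agent.Helper644.FCG

set_option autoImplicit false

/-!
Classes, the character `chi`, special classes.
-/

namespace Pool.Agent.Helper644.FC

open ComplexConjugate

section cls

variable {P Q : Set ℂ} {x : Fin 3 → ℂ}

theorem HC.norm_mem (h : HC P Q x) {p : ℂ} (hp : p ∈ P) : ∃ i, ‖p‖ = ‖x i‖ := by
  obtain ⟨i, f, hf, rfl⟩ := h.orb p hp
  exact ⟨i, hf.norm _⟩

theorem HC.cardsum (h : HC P Q x) {q : ℂ} (hq : q ∈ Q) :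
    ∑ b ∈ Finset.univ.image (fun i => ‖x i‖), nn P q b = 5 := by
  classical
  have hfin : {p ∈ P | Inc p q}.Finite := h.fin.subset (fun _ h => h.1)
  have h5 := h.five q hq
  rw [Set.ncard_eq_toFinset_card _ hfin] at h5
  rw [Finset.card_eq_sum_card_fiberwise (f := fun z : ℂ => ‖z‖)
    (t := Finset.univ.image (fun i => ‖x i‖))] at h5
  · rw [← h5]
    refine Finset.sum_congr rfl (fun b _ => ?_)
    unfold nn
    rw [Set.ncard_eq_toFinset_card _ (fin_sub h.fin q b)]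
    congr 1
    ext z
    simp
    tauto
  · intro z hz
    have hz' : z ∈ P := by
      have := hfin.mem_toFinset.1 hz
      exact this.1
    obtain ⟨i, hi⟩ := h.norm_mem hz'
    exact Finset.mem_image.2 ⟨i, Finset.mem_univ _, hi.symm⟩

theorem HC.inj (h : HC P Q x) (hne : Q.Nonempty) : Function.Injective (fun i => ‖x i‖) := by
  classical
  obtain ⟨q, hq⟩ := hne
  have h1 := h.cardsum hq
  have h2 : ∑ b ∈ Finset.univ.image (fun i => ‖x i‖), nn P q b ≤
      (Finset.univ.image (fun i => ‖x i‖)).card * 2 := by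
    rw [← smul_eq_mul, ← Finset.sum_const]
    exact Finset.sum_le_sum (fun b _ => nn_le P q b)
  have h3 : (Finset.univ.image (fun i => ‖x i‖)).card = (Finset.univ : Finset (Fin 3)).card := by
    apply le_antisymm Finset.card_image_le
    rw [Finset.card_univ, Fintype.card_fin]
    omega
  rw [Finset.card_image_iff] at h3
  intro i j hij
  exact h3 (Finset.mem_coe.2 (Finset.mem_univ i)) (Finset.mem_coe.2 (Finset.mem_univ j)) hij

theorem HC.sum5 (h : HC P Q x) {q : ℂ} (hq : q ∈ Q) : ∑ i, nn P q ‖x i‖ = 5 := by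
  classical
  rw [← h.cardsum hq, Finset.sum_image]
  intro i _ j _ hij
  exact h.inj ⟨q, hq⟩ hij

theorem HC.trans (h : HC P Q x) (hne : Q.Nonempty) {p p1 : ℂ} (hp : p ∈ P) (hp1 : p1 ∈ P)
    (hn : ‖p‖ = ‖p1‖) : ∃ f, IsG P Q f ∧ f p = p1 := by
  obtain ⟨i, f, hf, rfl⟩ := h.orb p hp
  obtain ⟨j, g, hg, rfl⟩ := h.orb p1 hp1
  rw [hf.norm, hg.norm] at hn
  have hij : i = j := h.inj hne hn
  subst hij
  obtain ⟨f', hf', h1, _⟩ := hf.inv
  refine ⟨g ∘ f', hg.comp hf', ?_⟩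
  simp [h1]

theorem HC.inc_ex (h : HC P Q x) {q : ℂ} (hq : q ∈ Q) (i : Fin 3) :
    ∃ p ∈ P, ‖p‖ = ‖x i‖ ∧ Inc p q := by
  have h1 := h.sum5 hq
  have h2 : ∀ j, nn P q ‖x j‖ ≤ 2 := fun j => nn_le P q _
  have h3 : 1 ≤ nn P q ‖x i‖ := by
    have h0 := h2 0
    have h1' := h2 1
    have h2' := h2 2
    rw [Fin.sum_univ_three] at h1
    fin_cases i
    · show 1 ≤ nn P q ‖x 0‖; omega
    · show 1 ≤ nn P q ‖x 1‖; omega
    · show 1 ≤ nn P q ‖x 2‖; omega
  unfold nn at h3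
  have h4 : {p ∈ P | ‖p‖ = ‖x i‖ ∧ Inc p q}.Nonempty := by
    apply Set.nonempty_of_ncard_ne_zero
    omega
  obtain ⟨p, a, b, c⟩ := h4
  exact ⟨p, a, b, c⟩

end cls

section chi

/-- the character -/
noncomputable def chi (m : ℕ) (z : ℂ) : ℂ := (z / conj z) ^ m

theorem norm_div_conj {z : ℂ} (hz : z ≠ 0) : ‖z / conj z‖ = 1 := by
  rw [norm_div, Complex.norm_conj, div_self (norm_ne_zero_iff.2 hz)]

theorem norm_chi {m : ℕ} {z : ℂ} (hz : z ≠ 0) : ‖chi m z‖ = 1 := by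
  unfold chi
  rw [norm_pow, norm_div_conj hz, one_pow]

theorem chi_ne {m : ℕ} {z : ℂ} (hz : z ≠ 0) : chi m z ≠ 0 := by
  rw [← norm_ne_zero_iff, norm_chi hz]; norm_num

theorem mul_conj_one {a : ℂ} (ha : ‖a‖ = 1) : a * conj a = 1 := by
  rw [Complex.mul_conj, Complex.normSq_eq_norm_sq, ha]; norm_num

theorem chi_rot {m : ℕ} {a z : ℂ} (ha : ‖a‖ = 1) (ham : a ^ m = 1) (hz : z ≠ 0) :
    chi m (rot a z) = chi m z := by
  unfold chi rot
  have h1 := mul_conj_one ha
  have ha0 : a ≠ 0 := by rintro rfl; simp at ha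
  have hz' := conj_ne hz
  have ha' := conj_ne ha0
  have h2 : a * z / conj (a * z) = a ^ 2 * (z / conj z) := by
    rw [map_mul]
    field_simp
    linear_combination (-1) * h1
  rw [h2, mul_pow, ← pow_mul, mul_comm 2 m, pow_mul, ham]
  ring

theorem chi_refl {m : ℕ} {b z c : ℂ} (hb : ‖b‖ = 1) (hbm : b ^ m = c) (hz : z ≠ 0) :
    chi m (refl b z) = c ^ 2 / chi m z := by
  unfold chi refl
  have h1 := mul_conj_one hb
  have hb0 : b ≠ 0 := by rintro rfl; simp at hb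
  have hz' := conj_ne hz
  have hb' := conj_ne hb0
  have h2 : b * conj z / conj (b * conj z) = b ^ 2 / (z / conj z) := by
    rw [map_mul, Complex.conj_conj]
    field_simp
    linear_combination (-1) * h1
  rw [h2, div_pow, ← hbm]
  ring

/-- special points -/
def Spec (P Q : Set ℂ) (z : ℂ) : Prop := IsG P Q (refl (z / conj z))

/-- data describing the symmetry group -/
structure GD (P Q : Set ℂ) (m : ℕ) (c : ℂ) : Prop where
  m0 : 0 < m
  c1 : ‖c‖ = 1
  A : ∀ a : ℂ, ‖a‖ = 1 → (IsG P Q (rot a) ↔ a ^ m = 1)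
  B : (∀ b : ℂ, ‖b‖ = 1 → ¬ IsG P Q (refl b)) ∨ (∀ b : ℂ, ‖b‖ = 1 → (IsG P Q (refl b) ↔ b ^ m = c))

variable {P Q : Set ℂ} {m : ℕ} {c : ℂ}

theorem GD.swap (h : GD P Q m c) : GD Q P m c := by
  refine ⟨h.m0, h.c1, ?_, ?_⟩
  · intro a ha
    rw [← h.A a ha]
    exact ⟨IsG.swap, IsG.swap⟩
  · rcases h.B with hB | hB
    · left
      intro b hb hb'
      exact hB b hb hb'.swap
    · right
      intro b hb
      rw [← hB b hb]
      exact ⟨IsG.swap, IsG.swap⟩

theorem Spec_swap {z : ℂ} : Spec P Q z ↔ Spec Q P z := ⟨IsG.swap, IsG.swap⟩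

theorem GD.spec_congr (h : GD P Q m c) {z z1 : ℂ} (hz : z ≠ 0) (hz1 : z1 ≠ 0)
    (he : chi m z = chi m z1) : Spec P Q z ↔ Spec P Q z1 := by
  unfold Spec
  rcases h.B with hB | hB
  · exact ⟨fun h => absurd h (hB _ (norm_div_conj hz)), fun h => absurd h (hB _ (norm_div_conj hz1))⟩
  · rw [hB _ (norm_div_conj hz), hB _ (norm_div_conj hz1)]
    unfold chi at he
    rw [he]

theorem GD.spec_chi (h : GD P Q m c) {z : ℂ} (hz : z ≠ 0) (hs : Spec P Q z) : chi m z = c := by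
  rcases h.B with hB | hB
  · exact absurd hs (hB _ (norm_div_conj hz))
  · exact (hB _ (norm_div_conj hz)).1 hs

theorem GD.chi_cases (h : GD P Q m c) {f : ℂ → ℂ} (hf : IsG P Q f) {z : ℂ} (hz : z ≠ 0) :
    chi m (f z) = chi m z ∨ ((∀ b : ℂ, ‖b‖ = 1 → (IsG P Q (refl b) ↔ b ^ m = c)) ∧
      chi m (f z) = c ^ 2 / chi m z) := by
  obtain ⟨a, ha, h1 | h1⟩ := hf.2
  · left
    rw [h1] at hf ⊢
    exact chi_rot ha ((h.A a ha).1 hf) hz
  · right
    rw [h1] at hf ⊢
    rcases h.B with hB | hB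
    · exact absurd hf (hB _ ha)
    · exact ⟨hB, chi_refl ha ((hB a ha).1 hf) hz⟩

theorem GD.c_ne (h : GD P Q m c) : c ≠ 0 := by
  rw [← norm_ne_zero_iff, h.c1]; norm_num

theorem IsG.ne_zero {f : ℂ → ℂ} (hf : IsG P Q f) {z : ℂ} (hz : z ≠ 0) : f z ≠ 0 := by
  rw [← norm_ne_zero_iff, hf.norm]; exact norm_ne_zero_iff.2 hz

theorem GD.spec_inv' (h : GD P Q m c) {f : ℂ → ℂ} (hf : IsG P Q f) {z : ℂ} (hz : z ≠ 0)
    (hs : Spec P Q z) : Spec P Q (f z) := by
  have hc := h.c_ne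
  have h1 := h.spec_chi hz hs
  rcases h.chi_cases hf hz with h2 | ⟨hB, h2⟩
  · exact (h.spec_congr (hf.ne_zero hz) hz h2).2 hs
  · refine (h.spec_congr (hf.ne_zero hz) hz ?_).2 hs
    rw [h2, h1]
    field_simp

theorem GD.spec_inv (h : GD P Q m c) {f : ℂ → ℂ} (hf : IsG P Q f) {z : ℂ} (hz : z ≠ 0) :
    Spec P Q (f z) ↔ Spec P Q z := by
  constructor
  · intro hs
    obtain ⟨g, hg, h1, _⟩ := hf.inv
    rw [← h1 z]
    exact h.spec_inv' hg (hf.ne_zero hz) hs
  · exact h.spec_inv' hf hz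

/-- the criterion for the mirror image to belong to `P` -/
theorem mirror {x : Fin 3 → ℂ} (hd : HC P Q x) (h : GD P Q m c) {p q : ℂ} (hp : p ∈ P) (hq : q ∈ Q)
    (hi : Inc p q) : sp p q ∈ P ↔ chi m p = chi m q ∨ Spec P Q q := by
  have hp0 := Inc_ne_left hi
  have hq0 := Inc_ne_right hi
  have hp0' := conj_ne hp0
  have hq0' := conj_ne hq0
  have hA : chi m p = chi m q ↔ IsG P Q (rot ((q / conj q) / (p / conj p))) := by
    have hn : ‖(q / conj q) / (p / conj p)‖ = 1 := by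
      rw [norm_div, norm_div_conj hq0, norm_div_conj hp0, div_one]
    rw [h.A _ hn, div_pow]
    unfold chi
    rw [div_eq_one_iff_eq (pow_ne_zero _ (div_ne_zero hp0 hp0'))]
    exact ⟨fun h => h.symm, fun h => h.symm⟩
  have hr1 : rot ((q / conj q) / (p / conj p)) p = sp p q := by
    unfold rot sp
    field_simp
  have hr2 : refl (q / conj q) p = sp p q := rfl
  constructor
  · intro h1
    obtain ⟨f, hf, hfp⟩ := hd.trans ⟨q, hq⟩ hp h1 (norm_sp hq0).symm
    obtain ⟨a, ha, h2 | h2⟩ := hf.2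
    · left
      rw [hA]
      have : a = (q / conj q) / (p / conj p) := by
        apply mul_right_cancel₀ hp0
        rw [h2] at hfp
        have h3 := hfp.trans hr1.symm
        exact h3
      rw [← this, ← h2]
      exact hf
    · right
      unfold Spec
      have : a = q / conj q := by
        apply mul_right_cancel₀ hp0'
        rw [h2] at hfp
        exact hfp
      rw [← this, ← h2]
      exact hf
  · rintro (h1 | h1)
    · rw [hA] at h1
      rw [← hr1]
      exact h1.memP hp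
    · rw [← hr2]
      exact h1.memP hp

/-- a foot: `‖p‖ * ‖q‖ = 1` -/
theorem foot_iff {p q : ℂ} (hi : Inc p q) : ‖p‖ * ‖q‖ = 1 ↔ sp p q = p := by
  have hp0 := Inc_ne_left hi
  have hq0 := Inc_ne_right hi
  have hp0' := conj_ne hp0
  have hq0' := conj_ne hq0
  have h1 : sp p q = p ↔ (p * conj q).im = 0 := by
    rw [← Complex.conj_eq_iff_im]
    unfold sp
    rw [map_mul, Complex.conj_conj]
    constructor
    · intro h
      field_simp at h
      linear_combination h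
    · intro h
      field_simp
      linear_combination h
  rw [h1]
  have h2 : ‖p‖ * ‖q‖ = ‖p * conj q‖ := by rw [norm_mul, Complex.norm_conj]
  rw [h2]
  have h3 : ‖p * conj q‖ ^ 2 = 1 + (p * conj q).im ^ 2 := by
    rw [← Complex.normSq_eq_norm_sq, Complex.normSq_apply, hi]
    ring
  constructor
  · intro h
    rw [h] at h3
    have : (p * conj q).im ^ 2 = 0 := by linarith
    exact pow_eq_zero_iff (two_ne_zero) |>.1 this
  · intro h
    rw [h] at h3
    have h4 : ‖p * conj q‖ ^ 2 = 1 := by rw [h3]; ring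
    nlinarith [norm_nonneg (p * conj q)]

theorem foot_chi {p q : ℂ} (hi : Inc p q) (hf : ‖p‖ * ‖q‖ = 1) : chi m p = chi m q := by
  have hp0 := Inc_ne_left hi
  have hq0 := Inc_ne_right hi
  have hp0' := conj_ne hp0
  have hq0' := conj_ne hq0
  have h1 := (foot_iff hi).1 hf
  unfold chi
  congr 1
  unfold sp at h1
  rw [← h1]
  simp only [map_mul, map_div₀, Complex.conj_conj]
  field_simp
  unfold sp at *
  field_simp at h1
  first
    | done
    | linear_combination h1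
    | linear_combination (-1) * h1

theorem one_le_of_Inc {p q : ℂ} (hi : Inc p q) : 1 ≤ ‖p‖ * ‖q‖ := by
  have h2 : ‖p‖ * ‖q‖ = ‖p * conj q‖ := by rw [norm_mul, Complex.norm_conj]
  rw [h2, ← hi]
  exact Complex.re_le_norm _

/-- the unit complex number attached to an incident pair -/
theorem unit_of_Inc {p q : ℂ} (hi : Inc p q) :
    ∃ w : ℂ, ‖w‖ = 1 ∧ w.re = 1 / (‖p‖ * ‖q‖) ∧ w ^ (2 * m) = chi m p / chi m q := by
  have hp0 := Inc_ne_left hi
  have hq0 := Inc_ne_right hi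
  have hp0' := conj_ne hp0
  have hq0' := conj_ne hq0
  have hnp : (‖p‖ : ℝ) ≠ 0 := norm_ne_zero_iff.2 hp0
  have hnq : (‖q‖ : ℝ) ≠ 0 := norm_ne_zero_iff.2 hq0
  have hnp' : ((‖p‖ : ℝ) : ℂ) ≠ 0 := by exact_mod_cast hnp
  have hnq' : ((‖q‖ : ℝ) : ℂ) ≠ 0 := by exact_mod_cast hnq
  refine ⟨p * conj q / ((‖p‖ * ‖q‖ : ℝ) : ℂ), ?_, ?_, ?_⟩
  · rw [norm_div, norm_mul, Complex.norm_conj, Complex.norm_real, norm_mul, norm_norm, norm_norm]
    exact div_self (mul_ne_zero hnp hnq)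
  · rw [Complex.div_ofReal_re, hi]
  · have h1 : (p * conj q / ((‖p‖ * ‖q‖ : ℝ) : ℂ)) ^ 2 = (p / conj p) / (q / conj q) := by
      have e1 : ((‖p‖ : ℝ) : ℂ) ^ 2 = p * conj p := by
        rw [Complex.mul_conj, Complex.normSq_eq_norm_sq]; push_cast; ring
      have e2 : ((‖q‖ : ℝ) : ℂ) ^ 2 = q * conj q := by
        rw [Complex.mul_conj, Complex.normSq_eq_norm_sq]; push_cast; ring
      push_cast
      rw [div_pow, mul_pow, mul_pow, e1, e2]
      field_simp
    rw [pow_mul, h1, div_pow]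
    rfl

end chi

end Pool.Agent.Helper644.FC
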