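import Mathlib

set_option autoImplicit false

namespace Pool.Agent.Helper644.FC

theorem sum3 (f : Fin 3 → ℕ) (h2 : ∀ i, f i ≤ 2) (h5 : ∑ i, f i = 5) :
    (∀ i, f i = 1 ∨ f i = 2) ∧ (∃ i, f i = 1) ∧ (∀ i i', f i = 1 → f i' = 1 → i = i') := by
  rw [Fin.sum_univ_three] at h5
  have h0 := h2 0
  have h1 := h2 1
  have h2' := h2 2
  refine ⟨?_, ?_, ?_⟩
  · intro i
    fin_cases i
    · change f 0 = 1 ∨ f 0 = 2; omega
    · change f 1 = 1 ∨ f 1 = 2; omega
    · change f 2 = 1 ∨ f 2 = 2; omega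
  · by_contra hc
    push Not at hc
    have c0 := hc 0
    have c1 := hc 1
    have c2 := hc 2
    omega
  · intro i i' hi hi'
    fin_cases i <;> fin_cases i' <;> first
      | rfl
      | (exfalso; simp only [Fin.zero_eta, Fin.mk_one, Fin.reduceFinMk] at hi hi'; omega)

/-- TARGET: the combinatorial case analysis -/
theorem comb (A B : Fin 3 → Fin 3 → ℕ) (F E : Fin 3 → Fin 3 → Prop) (T S : Fin 3 → Prop)
    (a2 : ∀ i j, A i j ≤ 2) (a5 : ∀ j, ∑ i, A i j = 5)
    (b2 : ∀ i j, B i j ≤ 2) (b5 : ∀ i, ∑ j, B i j = 5)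
    (f1 : ∀ i j, F i j → A i j = 1 ∧ B i j = 1 ∧ E i j)
    (f2 : ∀ i j, ¬ F i j → (A i j = 2 ↔ E i j ∨ S j) ∧ (B i j = 2 ↔ E i j ∨ T i))
    (e1 : ∀ i j, E i j → (T i ↔ S j)) (e2 : ∀ i j, T i → S j → E i j)
    (f3 : ∀ i j i' j', F i j → F i' j' → i = i' ∧ j = j') :
    (∃ σ : Fin 3 → Fin 3, Function.Injective σ ∧ (∀ i, ¬ T i) ∧ (∀ j, ¬ S j) ∧
      (∀ i j, j ≠ σ i → E i j ∧ ¬ F i j) ∧ (∀ i, F i (σ i) ∨ ¬ E i (σ i))) ∨
    (∃ i₀ j₀, (∀ i, T i ↔ i = i₀) ∧ (∀ j, S j ↔ j = j₀) ∧ F i₀ j₀ ∧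
      (∀ i j, i ≠ i₀ → j ≠ j₀ → E i j)) := by
  have cA := fun j => sum3 (fun i => A i j) (fun i => a2 i j) (a5 j)
  have cB := fun i => sum3 (fun j => B i j) (fun j => b2 i j) (b5 i)
  have vA : ∀ i j, A i j = 1 ∨ A i j = 2 := fun i j => (cA j).1 i
  have vB : ∀ i j, B i j = 1 ∨ B i j = 2 := fun i j => (cB i).1 j
  have exA : ∀ j, ∃ i, A i j = 1 := fun j => (cA j).2.1
  have exB : ∀ i, ∃ j, B i j = 1 := fun i => (cB i).2.1
  have unA : ∀ j i i', A i j = 1 → A i' j = 1 → i = i' := fun j => (cA j).2.2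
  have unB : ∀ i j j', B i j = 1 → B i j' = 1 → j = j' := fun i => (cB i).2.2
  -- facts
  have g1 : ∀ i j, T i → ¬ S j → A i j = 1 ∧ B i j = 2 := by
    intro i j hT hS
    have hE : ¬ E i j := fun h => hS ((e1 i j h).1 hT)
    have hF : ¬ F i j := fun h => hE (f1 i j h).2.2
    obtain ⟨k1, k2⟩ := f2 i j hF
    refine ⟨?_, k2.2 (Or.inr hT)⟩
    rcases vA i j with h | h
    · exact h
    · rcases k1.1 h with h | h
      · exact absurd h hE
      · exact absurd h hS
  have g2 : ∀ i j, ¬ T i → S j → A i j = 2 ∧ B i j = 1 := by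
    intro i j hT hS
    have hE : ¬ E i j := fun h => hT ((e1 i j h).2 hS)
    have hF : ¬ F i j := fun h => hE (f1 i j h).2.2
    obtain ⟨k1, k2⟩ := f2 i j hF
    refine ⟨k1.2 (Or.inr hS), ?_⟩
    rcases vB i j with h | h
    · exact h
    · rcases k2.1 h with h | h
      · exact absurd h hE
      · exact absurd h hT
  have g3 : ∀ i j, T i → S j → ¬ F i j → A i j = 2 ∧ B i j = 2 := by
    intro i j hT hS hF
    obtain ⟨k1, k2⟩ := f2 i j hF
    exact ⟨k1.2 (Or.inr hS), k2.2 (Or.inr hT)⟩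
  have g4 : ∀ i j, ¬ T i → ¬ S j → A i j = B i j := by
    intro i j hT hS
    by_cases hF : F i j
    · obtain ⟨h1, h2, _⟩ := f1 i j hF
      rw [h1, h2]
    · obtain ⟨k1, k2⟩ := f2 i j hF
      by_cases hE : E i j
      · rw [k1.2 (Or.inl hE), k2.2 (Or.inl hE)]
      · have h1 : A i j ≠ 2 := fun h => by
          rcases k1.1 h with h | h
          · exact hE h
          · exact hS h
        have h2 : B i j ≠ 2 := fun h => by
          rcases k2.1 h with h | h
          · exact hE h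
          · exact hT h
        rcases vA i j with h | h
        · rcases vB i j with h' | h'
          · rw [h, h']
          · exact absurd h' h2
        · exact absurd h h1
  by_cases hT : ∀ i, T i
  · exfalso
    have hS : ∀ j, S j := by
      intro j
      by_contra hj
      have := unA j 0 1 (g1 0 j (hT 0) hj).1 (g1 1 j (hT 1) hj).1
      exact absurd this (by decide)
    have hF : ∀ j, ∃ i, F i j := by
      intro j
      obtain ⟨i, hi⟩ := exA j
      refine ⟨i, ?_⟩
      by_contra hF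
      have := (g3 i j (hT i) (hS j) hF).1
      omega
    obtain ⟨i, hi⟩ := hF 0
    obtain ⟨i', hi'⟩ := hF 1
    exact absurd (f3 _ _ _ _ hi hi').2 (by decide)
  push Not at hT
  obtain ⟨i1, hi1⟩ := hT
  by_cases hS : ∀ j, S j
  · exfalso
    have := unB i1 0 1 (g2 i1 0 hi1 (hS 0)).2 (g2 i1 1 hi1 (hS 1)).2
    exact absurd this (by decide)
  push Not at hS
  obtain ⟨j1, hj1⟩ := hS
  by_cases hnT : ∀ i, ¬ T i
  · left
    have hnS : ∀ j, ¬ S j := by
      intro j hj
      have hjj : j1 ≠ j := fun h => hj1 (h ▸ hj)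
      -- the column `j1` of `A` is all `2`
      obtain ⟨i, hi⟩ := exA j1
      have h1 : B i j1 = 1 := by rw [← g4 i j1 (hnT i) hj1]; exact hi
      exact hjj (unB i j1 j h1 (g2 i j (hnT i) hj).2)
    choose σ hσ using exB
    refine ⟨σ, ?_, hnT, hnS, ?_, ?_⟩
    · intro i i' h
      refine unA (σ i) i i' ?_ ?_
      · rw [g4 _ _ (hnT i) (hnS _)]; exact hσ i
      · rw [g4 _ _ (hnT i') (hnS _), h]; exact hσ i'
    · intro i j hj
      have hB : B i j = 2 := by
        rcases vB i j with h | h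
        · exact absurd (unB i _ _ h (hσ i)) hj
        · exact h
      have hF : ¬ F i j := fun h => by
        have := (f1 i j h).2.1
        omega
      refine ⟨?_, hF⟩
      rcases ((f2 i j hF).2).1 hB with h | h
      · exact h
      · exact absurd h (hnT i)
    · intro i
      by_cases hF : F i (σ i)
      · exact Or.inl hF
      · right
        intro hE
        have := ((f2 i (σ i) hF).2).2 (Or.inl hE)
        have := hσ i
        omega
  push Not at hnT
  obtain ⟨i0, hi0⟩ := hnT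
  by_cases hnS : ∀ j, ¬ S j
  · exfalso
    have hii : i1 ≠ i0 := fun h => hi1 (h ▸ hi0)
    obtain ⟨j, hj⟩ := exB i1
    have h1 : A i1 j = 1 := by rw [g4 i1 j hi1 (hnS j)]; exact hj
    exact hii (unA j i1 i0 h1 (g1 i0 j hi0 (hnS j)).1)
  push Not at hnS
  obtain ⟨j0, hj0⟩ := hnS
  have uT : ∀ i, T i ↔ i = i0 := by
    intro i
    constructor
    · intro h
      exact unA j1 i i0 (g1 i j1 h hj1).1 (g1 i0 j1 hi0 hj1).1
    · rintro rfl; exact hi0
  have uS : ∀ j, S j ↔ j = j0 := by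
    intro j
    constructor
    · intro h
      exact unB i1 j j0 (g2 i1 j hi1 h).2 (g2 i1 j0 hi1 hj0).2
    · rintro rfl; exact hj0
  right
  refine ⟨i0, j0, uT, uS, ?_, ?_⟩
  · obtain ⟨i, hi⟩ := exA j0
    by_cases hii : i = i0
    · rw [hii] at hi
      by_contra hF
      have := (g3 i0 j0 hi0 hj0 hF).1
      omega
    · have hTi : ¬ T i := fun h => hii ((uT i).1 h)
      have := (g2 i j0 hTi hj0).1
      omega
  · intro i j hi hj
    have hTi : ¬ T i := fun h => hi ((uT i).1 h)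
    have hSj : ¬ S j := fun h => hj ((uS j).1 h)
    by_cases hF : F i j
    · exact (f1 i j hF).2.2
    · have h2 : A i j = 2 := by
        rcases vA i j with h | h
        · exact absurd (unA j i i0 h (g1 i0 j hi0 hSj).1) hi
        · exact h
      rcases ((f2 i j hF).1).1 h2 with h | h
      · exact h
      · exact absurd h hSj

end Pool.Agent.Helper644.FC
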