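import Mathlib
import Pool.Agent.Helper644.FC5
import Pool.Agent.Helper644.FC2
import Pool.Agent.Helper644.FCC

set_option autoImplicit false

/-!
The main geometric theorem, in the self-dual form.
-/

namespace Pool.Agent.Helper644.FC

open ComplexConjugate

theorem two_other {α : Type*} (σ : Fin 3 → α) (i j : Fin 3) (hσ : Function.Injective σ) :
    ∃ k, σ k ≠ σ i ∧ σ k ≠ σ j := by
  have : ∃ k : Fin 3, k ≠ i ∧ k ≠ j := by
    revert i j; decide
  obtain ⟨k, h1, h2⟩ := this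
  exact ⟨k, fun h => h1 (hσ h), fun h => h2 (hσ h)⟩

theorem conj_pow_inv {w κ : ℂ} {n : ℕ} (hκ : ‖κ‖ = 1) (h : w ^ n = κ⁻¹) : (conj w) ^ n = κ := by
  rw [← map_pow, h, map_inv₀, Complex.inv_eq_conj (by rw [Complex.norm_conj, hκ]),
    Complex.conj_conj]

theorem dual_false {P Q : Set ℂ} {x y : Fin 3 → ℂ} (hP : HC P Q x) (hQ : HC Q P y) : False := by
  classical
  have hPne : P.Nonempty := ⟨x 0, hP.mem 0⟩
  have hQne : Q.Nonempty := ⟨y 0, hQ.mem 0⟩
  have hx0 : ∀ i, x i ≠ 0 := fun i h => hP.zero (by rw [← h]; exact hP.mem i)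
  have hy0 : ∀ i, y i ≠ 0 := fun i h => hQ.zero (by rw [← h]; exact hQ.mem i)
  obtain ⟨m, c, hm, hc, hA, hB⟩ := Grp.grp P Q hP.fin hPne hP.zero
  have hG : GD P Q m c := ⟨hm, hc, hA, hB⟩
  have hc0 := hG.c_ne
  have hinc : ∀ i j, ∃ p ∈ P, ‖p‖ = ‖x i‖ ∧ Inc p (y j) := fun i j => hP.inc_ex (hQ.mem j) i
  choose X hXP hXn hXi using hinc
  obtain ⟨r, hr⟩ : ∃ r : Fin 3 → ℝ, r = fun i => ‖x i‖ := ⟨_, rfl⟩
  obtain ⟨s, hs⟩ : ∃ s : Fin 3 → ℝ, s = fun j => ‖y j‖ := ⟨_, rfl⟩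
  have hri : ∀ i, ‖x i‖ = r i := fun i => by rw [hr]
  have hsi : ∀ i, ‖y i‖ = s i := fun i => by rw [hs]
  have hrinj : Function.Injective r := by rw [hr]; exact hP.inj hQne
  have hsinj : Function.Injective s := by rw [hs]; exact hQ.inj hPne
  have hrpos : ∀ i, 0 < r i := fun i => by rw [← hri]; exact norm_pos_iff.2 (hx0 i)
  have hspos : ∀ i, 0 < s i := fun i => by rw [← hsi]; exact norm_pos_iff.2 (hy0 i)
  have hX0 : ∀ i j, X i j ≠ 0 := fun i j => Inc_ne_left (hXi i j)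
  have htr : ∀ i j, ∃ f, IsG P Q f ∧ f (x i) = X i j := fun i j =>
    hP.trans hQne (hP.mem i) (hXP i j) (hXn i j).symm
  have hle : ∀ i j, 1 ≤ r i * s j := by
    intro i j
    have := one_le_of_Inc (hXi i j)
    rwa [hXn, hri, hsi] at this
  -- the combinatorial data
  have hSpX : ∀ i j, Spec P Q (X i j) ↔ Spec P Q (x i) := by
    intro i j
    obtain ⟨f, hf, h⟩ := htr i j
    rw [← h]
    exact hG.spec_inv hf (hx0 i)
  have hB' : ∀ i j, nn Q (x i) (s j) = nn Q (X i j) (s j) := by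
    intro i j
    obtain ⟨f, hf, h⟩ := htr i j
    rw [← h]
    exact (nn_inv hf.swap (x i) (s j)).symm
  have hA2 : ∀ i j, nn P (y j) (r i) = 2 ↔ sp (X i j) (y j) ∈ P ∧ sp (X i j) (y j) ≠ X i j := by
    intro i j
    have := nn_two hP.fin (hXP i j) (hXi i j)
    rwa [hXn, hri] at this
  have hA1 : ∀ i j, 1 ≤ nn P (y j) (r i) := by
    intro i j
    have := nn_pos hP.fin (hXP i j) (hXi i j)
    rwa [hXn, hri] at this
  have hB2 : ∀ i j, nn Q (x i) (s j) = 2 ↔ sp (y j) (X i j) ∈ Q ∧ sp (y j) (X i j) ≠ y j := by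
    intro i j
    have := nn_two hQ.fin (hQ.mem j) (Inc_comm.1 (hXi i j))
    rwa [hsi, ← hB'] at this
  have hB1 : ∀ i j, 1 ≤ nn Q (x i) (s j) := by
    intro i j
    have := nn_pos hQ.fin (hQ.mem j) (Inc_comm.1 (hXi i j))
    rwa [hsi, ← hB'] at this
  have hf3 : ∀ i j i' j', r i * s j = 1 → r i' * s j' = 1 → i = i' ∧ j = j' := by
    intro i j i' j' h1 h2
    have h3 := hle i j'
    have h4 := hle i' j
    have h5 : (r i * s j') * (r i' * s j) = 1 := by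
      calc (r i * s j') * (r i' * s j) = (r i * s j) * (r i' * s j') := by ring
        _ = 1 := by rw [h1, h2, one_mul]
    have h6 : r i * s j' = 1 := by nlinarith
    have h7 : r i' * s j = 1 := by rw [h6, one_mul] at h5; exact h5
    constructor
    · apply hrinj
      apply mul_right_cancel₀ (hspos j).ne'
      rw [h1, h7]
    · apply hsinj
      apply mul_left_cancel₀ (hrpos i).ne'
      rw [h1, h6]
  have key := comb (fun i j => nn P (y j) (r i)) (fun i j => nn Q (x i) (s j))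
    (fun i j => r i * s j = 1) (fun i j => chi m (X i j) = chi m (y j))
    (fun i => Spec P Q (x i)) (fun j => Spec P Q (y j))
    (fun i j => nn_le _ _ _)
    (fun j => by
      have := hP.sum5 (hQ.mem j)
      simpa [hri] using this)
    (fun i j => nn_le _ _ _)
    (fun i => by
      have := hQ.sum5 (hP.mem i)
      simpa [hsi] using this)
    (fun i j h => by
      have h' : ‖X i j‖ * ‖y j‖ = 1 := by rw [hXn, hri, hsi]; exact h
      have h'' : ‖y j‖ * ‖X i j‖ = 1 := by rw [mul_comm]; exact h'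
      have n1 : nn P (y j) (r i) ≠ 2 := by
        intro h2
        exact ((hA2 i j).1 h2).2 ((foot_iff (hXi i j)).1 h')
      have n2 : nn Q (x i) (s j) ≠ 2 := by
        intro h2
        exact ((hB2 i j).1 h2).2 ((foot_iff (Inc_comm.1 (hXi i j))).1 h'')
      have l1 := nn_le P (y j) (r i)
      have l2 := nn_le Q (x i) (s j)
      have l3 := hA1 i j
      have l4 := hB1 i j
      exact ⟨by omega, by omega, foot_chi (hXi i j) h'⟩)
    (fun i j h => by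
      have h1 : sp (X i j) (y j) ≠ X i j := by
        intro h2
        apply h
        have := (foot_iff (hXi i j)).2 h2
        rwa [hXn, hri, hsi] at this
      have h1' : sp (y j) (X i j) ≠ y j := by
        intro h2
        apply h
        have := (foot_iff (Inc_comm.1 (hXi i j))).2 h2
        rwa [hXn, hri, hsi, mul_comm] at this
      have m1 := mirror hP hG (hXP i j) (hQ.mem j) (hXi i j)
      have m2 := mirror hQ hG.swap (hQ.mem j) (hXP i j) (Inc_comm.1 (hXi i j))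
      rw [← Spec_swap, hSpX] at m2
      constructor
      · rw [hA2, ← m1]
        exact ⟨fun h => h.1, fun h => ⟨h, h1⟩⟩
      · rw [hB2, eq_comm (a := chi m (X i j)), ← m2]
        exact ⟨fun h => h.1, fun h => ⟨h, h1'⟩⟩)
    (fun i j h => by
      rw [← hSpX i j]
      exact hG.spec_congr (hX0 i j) (hy0 j) h)
    (fun i j h1 h2 => by
      rw [← hSpX i j] at h1
      show chi m (X i j) = chi m (y j)
      rw [hG.spec_chi (hX0 i j) h1, hG.spec_chi (hy0 j) h2])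
    (fun i j i' j' => hf3 i j i' j')
  -- extraction of the equations
  have hN : 0 < 2 * m := by omega
  have hev : Even (2 * m) := even_two_mul m
  have hlt : ∀ i j, r i * s j ≠ 1 → 1 < r i * s j := fun i j h => lt_of_le_of_ne (hle i j) (Ne.symm h)
  have hw : ∀ i j (κ : ℂ), ‖κ‖ = 1 → (chi m (X i j) / chi m (y j) = κ ∨
      chi m (X i j) / chi m (y j) = κ⁻¹) →
      ∃ w : ℂ, ‖w‖ = 1 ∧ w.re = 1 / (r i * s j) ∧ w ^ (2 * m) = κ := by
    intro i j κ hκ h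
    obtain ⟨w, a1, a2, a3⟩ := unit_of_Inc (m := m) (hXi i j)
    rw [hXn, hri, hsi] at a2
    rcases h with h | h
    · exact ⟨w, a1, a2, by rw [a3, h]⟩
    · exact ⟨conj w, by rw [Complex.norm_conj, a1], by rw [Complex.conj_re, a2],
        conj_pow_inv hκ (by rw [a3, h])⟩
  have hcos : ∀ i j, chi m (X i j) = chi m (y j) → NCos (2 * m) (1 / (r i * s j)) := by
    intro i j h
    obtain ⟨w, a1, a2, a3⟩ := hw i j 1 (by simp) (Or.inl (by
      rw [h]; exact div_self (chi_ne (hy0 j))))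
    rw [← a2]
    exact ncos_of_pow hN a3
  -- invariance of the pair of values
  have hV : ∀ χ₀ : ℂ, χ₀ ≠ 0 → ∀ f, IsG P Q f → ∀ z, z ≠ 0 →
      (chi m z = χ₀ ∨ ((∀ b : ℂ, ‖b‖ = 1 → (IsG P Q (refl b) ↔ b ^ m = c)) ∧ chi m z = c ^ 2 / χ₀)) →
      (chi m (f z) = χ₀ ∨ ((∀ b : ℂ, ‖b‖ = 1 → (IsG P Q (refl b) ↔ b ^ m = c)) ∧
        chi m (f z) = c ^ 2 / χ₀)) := by
    intro χ₀ hχ f hf z hz h
    rcases hG.chi_cases hf hz with h1 | ⟨h0, h1⟩
    · rw [h1]; exact h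
    · rcases h with h2 | ⟨_, h2⟩
      · right
        exact ⟨h0, by rw [h1, h2]⟩
      · left
        rw [h1, h2]
        field_simp
  have hVX : ∀ χ₀ : ℂ, χ₀ ≠ 0 → ∀ i j,
      ((chi m (x i) = χ₀ ∨ ((∀ b : ℂ, ‖b‖ = 1 → (IsG P Q (refl b) ↔ b ^ m = c)) ∧ chi m (x i) = c ^ 2 / χ₀))
      ↔
      (chi m (X i j) = χ₀ ∨ ((∀ b : ℂ, ‖b‖ = 1 → (IsG P Q (refl b) ↔ b ^ m = c)) ∧
        chi m (X i j) = c ^ 2 / χ₀))) := by
    intro χ₀ hχ i j
    obtain ⟨f, hf, h⟩ := htr i j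
    obtain ⟨g, hg, h1, _⟩ := hf.inv
    constructor
    · intro h2
      have := hV χ₀ hχ f hf (x i) (hx0 i) h2
      rwa [h] at this
    · intro h2
      have := hV χ₀ hχ g hg (X i j) (hX0 i j) h2
      rwa [← h, h1] at this
  rcases key with ⟨σ, hσ, hT, hS, hE, hF⟩ | ⟨i₀, j₀, hT, hS, hF, hE⟩
  · -- no special classes
    set χ₀ := chi m (x 0) with hχ₀
    have hχ0 : χ₀ ≠ 0 := chi_ne (hx0 0)
    set V : ℂ → Prop := fun z => (chi m z = χ₀ ∨
      ((∀ b : ℂ, ‖b‖ = 1 → (IsG P Q (refl b) ↔ b ^ m = c)) ∧ chi m z = c ^ 2 / χ₀)) with hVdef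
    have hVE : ∀ i j, j ≠ σ i → (V (x i) ↔ V (y j)) := by
      intro i j hij
      have h1 : V (x i) ↔ V (X i j) := hVX χ₀ hχ0 i j
      rw [h1]
      simp only [hVdef]
      rw [(hE i j hij).1]
    have hV0 : V (x 0) := Or.inl rfl
    have hVx : ∀ i, V (x i) := by
      intro i
      obtain ⟨k, h1, h2⟩ := two_other σ 0 i hσ
      exact (hVE i (σ k) h2).2 ((hVE 0 (σ k) h1).1 hV0)
    have hσs : Function.Surjective σ := Finite.surjective_of_injective hσ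
    have hVy : ∀ j, V (y j) := by
      intro j
      obtain ⟨i, rfl⟩ := hσs j
      obtain ⟨k, h1, _⟩ := two_other σ i i hσ
      exact (hVE k (σ i) h1.symm).1 (hVx k)
    have hVXX : ∀ i j, V (X i j) := fun i j => (hVX χ₀ hχ0 i j).1 (hVx i)
    have hχn : ‖χ₀‖ = 1 := norm_chi (hx0 0)
    have hκn : ‖χ₀ ^ 2 / c ^ 2‖ = 1 := by
      rw [norm_div, norm_pow, norm_pow, hχn, hc]; norm_num
    have hd : ∀ i, ¬ (r i * s (σ i) = 1) → χ₀ ^ 2 / c ^ 2 ≠ 1 ∧
        ∃ w : ℂ, ‖w‖ = 1 ∧ w.re = 1 / (r i * s (σ i)) ∧ w ^ (2 * m) = χ₀ ^ 2 / c ^ 2 := by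
      intro i hi
      have hne : chi m (X i (σ i)) ≠ chi m (y (σ i)) := by
        rcases hF i with h | h
        · exact absurd h hi
        · exact h
      have h1 : (chi m (X i (σ i)) / chi m (y (σ i)) = χ₀ ^ 2 / c ^ 2 ∨
          chi m (X i (σ i)) / chi m (y (σ i)) = (χ₀ ^ 2 / c ^ 2)⁻¹) := by
        rcases hVXX i (σ i) with h1 | ⟨_, h1⟩ <;> rcases hVy (σ i) with h2 | ⟨_, h2⟩
        · exact absurd (h1.trans h2.symm) hne
        · left
          rw [h1, h2]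
          field_simp
        · right
          rw [h1, h2]
          field_simp
        · exact absurd (h1.trans h2.symm) hne
      refine ⟨?_, hw i (σ i) _ hκn h1⟩
      intro h2
      apply hne
      rw [h2, inv_one, or_self] at h1
      exact (div_eq_one_iff_eq (chi_ne (hy0 _))).1 h1
    have hm' : ∀ i j, j ≠ i → 1 < r i * s (σ j) ∧ NCos (2 * m) (1 / (r i * s (σ j))) := by
      intro i j hij
      have h1 := hE i (σ j) (fun h => hij (hσ h))
      exact ⟨hlt _ _ h1.2, hcos _ _ h1.1⟩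
    have n01 : (0 : Fin 3) ≠ 1 := by decide
    have n02 : (0 : Fin 3) ≠ 2 := by decide
    have n12 : (1 : Fin 3) ≠ 2 := by decide
    by_cases h0 : r 0 * s (σ 0) = 1
    · exact sys_foot hN hev (hrpos 1) (hrpos 2) (hrpos 0) (hspos (σ 1)) (hspos (σ 2)) (hspos (σ 0))
        (fun h => n12 (hrinj h))
        (hm' 1 2 n12.symm) (hm' 2 1 n12) (hm' 1 0 n01) (hm' 0 1 n01.symm) (hm' 2 0 n02)
        (hm' 0 2 n02.symm) h0
    by_cases h1 : r 1 * s (σ 1) = 1
    · exact sys_foot hN hev (hrpos 0) (hrpos 2) (hrpos 1) (hspos (σ 0)) (hspos (σ 2)) (hspos (σ 1))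
        (fun h => n02 (hrinj h))
        (hm' 0 2 n02.symm) (hm' 2 0 n02) (hm' 0 1 n01.symm) (hm' 1 0 n01) (hm' 2 1 n12)
        (hm' 1 2 n12.symm) h1
    by_cases h2 : r 2 * s (σ 2) = 1
    · exact sys_foot hN hev (hrpos 0) (hrpos 1) (hrpos 2) (hspos (σ 0)) (hspos (σ 1)) (hspos (σ 2))
        (fun h => n01 (hrinj h))
        (hm' 0 1 n01.symm) (hm' 1 0 n01) (hm' 0 2 n02.symm) (hm' 2 0 n02) (hm' 1 2 n12.symm)
        (hm' 2 1 n12) h2
    exact sys_nofoot hN hev (hrpos 0) (hrpos 1) (hrpos 2) (hspos (σ 0)) (hspos (σ 1)) (hspos (σ 2))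
      (fun h => n01 (hrinj h)) (fun h => n02 (hrinj h)) (fun h => n12 (hrinj h)) (hd 0 h0).1
      (hm' 0 1 n01.symm) (hm' 1 0 n01) (hm' 0 2 n02.symm) (hm' 2 0 n02) (hm' 1 2 n12.symm)
      (hm' 2 1 n12) (hd 0 h0).2 (hd 1 h1).2 (hd 2 h2).2
  · -- one special class on each side
    have hex1 : ∀ i : Fin 3, ∃ k : Fin 3, k ≠ i := by decide
    have hex2 : ∀ j : Fin 3, ∃ k l : Fin 3, k ≠ j ∧ l ≠ j ∧ k ≠ l := by decide
    obtain ⟨i₁, hi₁⟩ := hex1 i₀
    obtain ⟨j₁, j₂, hj₁, hj₂, hj₁₂⟩ := hex2 j₀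
    have hSi : Spec P Q (x i₀) := (hT i₀).2 rfl
    have hSj : Spec P Q (y j₀) := (hS j₀).2 rfl
    have hrefl : ∀ b : ℂ, ‖b‖ = 1 → (IsG P Q (refl b) ↔ b ^ m = c) := by
      rcases hG.B with h | h
      · exact absurd hSi (h _ (norm_div_conj (hx0 i₀)))
      · exact h
    set χ₀ := chi m (x i₁) with hχ₀
    have hχ0 : χ₀ ≠ 0 := chi_ne (hx0 i₁)
    have hχn : ‖χ₀‖ = 1 := norm_chi (hx0 i₁)
    have hκn : ‖χ₀ / c‖ = 1 := by
      rw [norm_div, hχn, hc]; norm_num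
    have hX1 : ∀ j, chi m (X i₁ j) = χ₀ ∨ chi m (X i₁ j) = c ^ 2 / χ₀ := by
      intro j
      rcases (hVX χ₀ hχ0 i₁ j).1 (Or.inl rfl) with h | h
      · exact Or.inl h
      · exact Or.inr h.2
    have hY : ∀ j, j ≠ j₀ → chi m (y j) = χ₀ ∨ chi m (y j) = c ^ 2 / χ₀ := by
      intro j hj
      rw [← hE i₁ j hi₁ hj]
      exact hX1 j
    have hYc : chi m (y j₀) = c := hG.spec_chi (hy0 j₀) hSj
    have hXc : ∀ j, chi m (X i₀ j) = c := fun j =>
      hG.spec_chi (hX0 i₀ j) ((hSpX i₀ j).2 hSi)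
    have hnf : ∀ i j, ¬ (i = i₀ ∧ j = j₀) → 1 < r i * s j := by
      intro i j h
      apply hlt
      intro h'
      exact h (hf3 i j i₀ j₀ h' hF)
    have d13 := hw i₁ j₀ (χ₀ / c) hκn (by
      rw [hYc]
      rcases hX1 j₀ with h | h
      · left; rw [h]
      · right; rw [h]; field_simp)
    have d3 : ∀ j, j ≠ j₀ → ∃ w : ℂ, ‖w‖ = 1 ∧ w.re = 1 / (r i₀ * s j) ∧ w ^ (2 * m) = χ₀ / c := by
      intro j hj
      apply hw i₀ j (χ₀ / c) hκn
      rw [hXc]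
      rcases hY j hj with h | h
      · right; rw [h]; field_simp
      · left; rw [h]; field_simp
    exact sys_special hN hev (hrpos i₁) (hrpos i₁) (hrpos i₀) (hspos j₁) (hspos j₂) (hspos j₀)
      (fun h => hj₁₂ (hsinj h))
      ⟨hnf _ _ (fun h => hi₁ h.1), hcos _ _ (hE i₁ j₁ hi₁ hj₁)⟩
      ⟨hnf _ _ (fun h => hi₁ h.1), hcos _ _ (hE i₁ j₂ hi₁ hj₂)⟩
      (hnf _ _ (fun h => hi₁ h.1)) (hnf _ _ (fun h => hj₁ h.2)) (hnf _ _ (fun h => hj₂ h.2))
      hF d13 (d3 j₁ hj₁) (d3 j₂ hj₂)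

end Pool.Agent.Helper644.FC
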