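import Mathlib
import Pool.Agent.Helper644.FC3

set_option autoImplicit false

namespace Pool.Agent.Helper644.FC

open ComplexConjugate

namespace Red



/-- the polar line of a pole -/
def pol (q : ℂ) : Set ℂ := {z | Inc z q}

theorem inc_symm (p q : ℂ) : Inc p q ↔ Inc q p := by
  unfold Inc
  have : (p * conj q).re = (q * conj p).re := by
    simp [Complex.mul_re]
    ring
  rw [this]

theorem pol_zero : pol 0 = ∅ := by
  ext z
  simp [pol, Inc]

theorem normsq_eq (q : ℂ) (h : q ≠ 0) (q1 : ℂ) (hq : pol q = pol q1) :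
    (q * conj q1).re = q.re ^ 2 + q.im ^ 2 := by
  have hn : q.re ^ 2 + q.im ^ 2 ≠ 0 := by
    intro h0
    apply h
    apply Complex.ext
    · simp only [Complex.zero_re]; nlinarith [sq_nonneg q.re, sq_nonneg q.im]
    · simp only [Complex.zero_im]; nlinarith [sq_nonneg q.re, sq_nonneg q.im]
  have hz : (((q.re ^ 2 + q.im ^ 2 : ℝ)⁻¹ : ℝ) : ℂ) * q ∈ pol q := by
    show (_ * conj q).re = 1
    rw [mul_assoc, Complex.re_ofReal_mul]
    have : (q * conj q).re = q.re ^ 2 + q.im ^ 2 := by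
      simp [Complex.mul_re]; ring
    rw [this]
    exact inv_mul_cancel₀ hn
  rw [hq] at hz
  have hz' : ((((q.re ^ 2 + q.im ^ 2 : ℝ)⁻¹ : ℝ) : ℂ) * q * conj q1).re = 1 := hz
  rw [mul_assoc, Complex.re_ofReal_mul] at hz'
  field_simp at hz'
  exact hz'

theorem pol_inj {q q1 : ℂ} (h : q ≠ 0) (h1 : q1 ≠ 0) (hq : pol q = pol q1) : q = q1 := by
  have e1 := normsq_eq q h q1 hq
  have e2 := normsq_eq q1 h1 q hq.symm
  simp only [Complex.mul_re, Complex.conj_re, Complex.conj_im] at e1 e2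
  have e3 : (q.re - q1.re) ^ 2 + (q.im - q1.im) ^ 2 = 0 := by nlinarith
  apply Complex.ext
  · nlinarith [sq_nonneg (q.re - q1.re), sq_nonneg (q.im - q1.im)]
  · nlinarith [sq_nonneg (q.re - q1.re), sq_nonneg (q.im - q1.im)]

theorem mul_conj_one {a : ℂ} (ha : ‖a‖ = 1) : a * conj a = 1 := by
  rw [Complex.mul_conj, Complex.normSq_eq_norm_sq, ha]; simp

theorem ne_zero_of_norm {a : ℂ} (ha : ‖a‖ = 1) : a ≠ 0 := by
  intro h; rw [h] at ha; simp at ha

/-- isometries fixing the origin -/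
theorem iso_facts {f : ℂ → ℂ} (hf : ∃ a : ℂ, ‖a‖ = 1 ∧ (f = rot a ∨ f = refl a)) :
    Function.Injective f ∧ Function.Surjective f ∧ (∀ z q, Inc (f z) (f q) ↔ Inc z q) ∧
      (∀ q, q ≠ 0 → f q ≠ 0) := by
  obtain ⟨a, ha, rfl | rfl⟩ := hf
  · have h1 := mul_conj_one ha
    have h0 := ne_zero_of_norm ha
    refine ⟨fun x y h => mul_left_cancel₀ h0 h, fun w => ⟨a⁻¹ * w, ?_⟩, ?_, ?_⟩
    · show a * (a⁻¹ * w) = w
      rw [← mul_assoc, mul_inv_cancel₀ h0, one_mul]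
    · intro z q
      unfold Inc
      have : rot a z * conj (rot a q) = z * conj q := by
        simp only [rot, map_mul]
        calc a * z * (conj a * conj q) = (a * conj a) * (z * conj q) := by ring
          _ = _ := by rw [h1, one_mul]
      rw [this]
    · intro q hq
      exact mul_ne_zero h0 hq
  · have h1 := mul_conj_one ha
    have h0 := ne_zero_of_norm ha
    refine ⟨fun x y h => ?_, fun w => ⟨conj (a⁻¹ * w), ?_⟩, ?_, ?_⟩
    · have := mul_left_cancel₀ h0 h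
      exact (starRingEnd ℂ).injective this
    · show a * conj (conj (a⁻¹ * w)) = w
      rw [Complex.conj_conj, ← mul_assoc, mul_inv_cancel₀ h0, one_mul]
    · intro z q
      unfold Inc
      have : refl a z * conj (refl a q) = conj (z * conj q) := by
        simp only [refl, map_mul, Complex.conj_conj]
        calc a * conj z * (conj a * q) = (a * conj a) * (conj z * q) := by ring
          _ = _ := by rw [h1, one_mul]
      rw [this, Complex.conj_re]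
    · intro q hq
      exact mul_ne_zero h0 (by simpa using hq)

theorem image_pol {f : ℂ → ℂ} (hf : ∃ a : ℂ, ‖a‖ = 1 ∧ (f = rot a ∨ f = refl a)) (q : ℂ) :
    f '' pol q = pol (f q) := by
  obtain ⟨-, hs, hi, -⟩ := iso_facts hf
  ext w
  constructor
  · rintro ⟨z, hz, rfl⟩
    exact (hi z q).2 hz
  · intro hw
    obtain ⟨z, rfl⟩ := hs w
    exact ⟨z, (hi z q).1 hw, rfl⟩

/-- TARGET: passing to the poles `Q = {q | {z | Inc z q} ∈ L}` -/
theorem red (P : Set ℂ) (L : Set (Set ℂ)) (hC : Conf P L)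
    (hP : ∃ p₁ ∈ P, ∃ p₂ ∈ P, ∃ p₃ ∈ P, ∀ p ∈ P, ∃ f, IsSym P L f ∧ (f p₁ = p ∨ f p₂ = p ∨ f p₃ = p))
    (hL : ∃ l₁ ∈ L, ∃ l₂ ∈ L, ∃ l₃ ∈ L, ∀ l ∈ L, ∃ f, IsSym P L f ∧
        (f '' l₁ = l ∨ f '' l₂ = l ∨ f '' l₃ = l))
    (h0 : (0 : ℂ) ∉ P) (h0L : ∀ l ∈ L, (0 : ℂ) ∉ l) :
    ∃ (Q : Set ℂ) (x y : Fin 3 → ℂ), HC P Q x ∧ HC Q P y := by
  classical
  have hQ0 : ∀ q, pol q ∈ L → q ≠ 0 := by
    rintro q hq rfl
    have := hC.five' _ hq
    rw [pol_zero] at this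
    simp at this
  have hex : ∀ l ∈ L, ∃ q, pol q = l := by
    intro l hl
    obtain ⟨n, k, hn, hk, rfl⟩ := hC.isLine l hl
    have hk0 : k ≠ 0 := by
      intro h
      apply h0L _ hl
      simp [ln, h]
    refine ⟨((k⁻¹ : ℝ) : ℂ) * n, ?_⟩
    ext z
    show (z * conj (((k⁻¹ : ℝ) : ℂ) * n)).re = 1 ↔ (z * (starRingEnd ℂ) n).re = k
    have : z * conj (((k⁻¹ : ℝ) : ℂ) * n) = ((k⁻¹ : ℝ) : ℂ) * (z * conj n) := by
      rw [map_mul, Complex.conj_ofReal]; ring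
    rw [this, Complex.re_ofReal_mul]
    constructor
    · intro h
      field_simp at h
      exact h
    · intro h
      rw [h]
      exact inv_mul_cancel₀ hk0
  let Q : Set ℂ := {q | pol q ∈ L}
  have hinj : Set.InjOn pol Q := fun q hq q1 hq1 h => pol_inj (hQ0 q hq) (hQ0 q1 hq1) h
  have hQfin : Q.Finite := by
    have : Q = pol ⁻¹' L := rfl
    rw [this]
    exact Set.Finite.preimage hinj hC.finL
  have hsymQ : ∀ f, IsSym P L f → f '' Q = Q := by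
    intro f hf
    obtain ⟨hi, -, -, -⟩ := iso_facts hf.2
    apply Set.eq_of_subset_of_ncard_le _ _ hQfin
    · rintro _ ⟨q, hq, rfl⟩
      show pol (f q) ∈ L
      rw [← image_pol hf.2]
      exact hf.1.2 _ hq
    · rw [Set.ncard_image_of_injective _ hi]
  obtain ⟨p₁, hp₁, p₂, hp₂, p₃, hp₃, hPo⟩ := hP
  obtain ⟨l₁, hl₁, l₂, hl₂, l₃, hl₃, hLo⟩ := hL
  obtain ⟨y₁, hy₁⟩ := hex l₁ hl₁
  obtain ⟨y₂, hy₂⟩ := hex l₂ hl₂
  obtain ⟨y₃, hy₃⟩ := hex l₃ hl₃
  have hy₁Q : y₁ ∈ Q := by show pol y₁ ∈ L; rw [hy₁]; exact hl₁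
  have hy₂Q : y₂ ∈ Q := by show pol y₂ ∈ L; rw [hy₂]; exact hl₂
  have hy₃Q : y₃ ∈ Q := by show pol y₃ ∈ L; rw [hy₃]; exact hl₃
  refine ⟨Q, ![p₁, p₂, p₃], ![y₁, y₂, y₃], ⟨hC.finP, h0, ?_, ?_, ?_⟩, ⟨hQfin, ?_, ?_, ?_, ?_⟩⟩
  · intro q hq
    exact hC.five' _ hq
  · intro i
    fin_cases i
    · exact hp₁
    · exact hp₂
    · exact hp₃
  · intro p hp
    obtain ⟨f, hf, h⟩ := hPo p hp
    have hG : IsG P Q f := ⟨⟨hf.1.1, hsymQ f hf⟩, hf.2⟩
    rcases h with h | h | h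
    · exact ⟨0, f, hG, h⟩
    · exact ⟨1, f, hG, h⟩
    · exact ⟨2, f, hG, h⟩
  · intro h
    exact hQ0 0 h rfl
  · intro p hp
    have h5 := hC.five p hp
    rw [← h5]
    have himg : pol '' {q ∈ Q | Inc q p} = {l ∈ L | p ∈ l} := by
      ext l
      constructor
      · rintro ⟨q, ⟨hq, hi⟩, rfl⟩
        exact ⟨hq, (inc_symm q p).1 hi⟩
      · rintro ⟨hl, hpl⟩
        obtain ⟨q, rfl⟩ := hex l hl
        exact ⟨q, ⟨hl, (inc_symm p q).1 hpl⟩, rfl⟩
    rw [← himg]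
    symm
    apply Set.ncard_image_of_injOn
    intro a ha b hb hab
    exact hinj ha.1 hb.1 hab
  · intro i
    fin_cases i
    · exact hy₁Q
    · exact hy₂Q
    · exact hy₃Q
  · intro q hq
    obtain ⟨f, hf, h⟩ := hLo (pol q) hq
    have hG : IsG Q P f := ⟨⟨hsymQ f hf, hf.1.1⟩, hf.2⟩
    have key : ∀ y, y ∈ Q → f '' pol y = pol q → f y = q := by
      intro y hy h
      rw [image_pol hf.2] at h
      exact pol_inj ((iso_facts hf.2).2.2.2 y (hQ0 y hy)) (hQ0 q hq) h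
    rcases h with h | h | h
    · rw [← hy₁] at h
      exact ⟨0, f, hG, key y₁ hy₁Q h⟩
    · rw [← hy₂] at h
      exact ⟨1, f, hG, key y₂ hy₂Q h⟩
    · rw [← hy₃] at h
      exact ⟨2, f, hG, key y₃ hy₃Q h⟩

end Red

end Pool.Agent.Helper644.FC
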