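import Mathlib
import Pool.Agent.Helper644.FC1

set_option autoImplicit false

namespace Pool.Agent.Helper644.FC

/-- a line in the complex plane given by a point and a direction -/
theorem line_ln (z0 D : ℂ) (hD : D ≠ 0) : ∃ n : ℂ, ∃ k : ℝ, ‖n‖ = 1 ∧ 0 ≤ k ∧
    {z : ℂ | ∃ t : ℝ, z = z0 + t * D} = ln n k := by
  have hD' : (‖D‖ : ℂ) ≠ 0 := by
    rw [Ne, Complex.ofReal_eq_zero, norm_eq_zero]; exact hD
  have hDr : (‖D‖ : ℝ) ≠ 0 := norm_ne_zero_iff.mpr hD
  have main : ∀ ε : ℝ, ε ^ 2 = 1 → {z : ℂ | ∃ t : ℝ, z = z0 + t * D} =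
      ln ((ε : ℂ) * (Complex.I * (D / ‖D‖))) ((z0 * (starRingEnd ℂ) ((ε : ℂ) * (Complex.I * (D / ‖D‖)))).re) := by
    intro ε hε
    have hε0 : ε ≠ 0 := by rintro rfl; norm_num at hε
    have hconj : (starRingEnd ℂ) ((ε : ℂ) * (Complex.I * (D / ‖D‖))) =
        (ε : ℂ) * (-Complex.I * ((starRingEnd ℂ) D / ‖D‖)) := by
      simp only [map_mul, map_div₀, Complex.conj_ofReal, Complex.conj_I]
    have hre : ∀ w : ℂ, (w * (starRingEnd ℂ) ((ε : ℂ) * (Complex.I * (D / ‖D‖)))).re =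
        ε / ‖D‖ * (w * (starRingEnd ℂ) D).im := by
      intro w
      rw [hconj]
      have : w * ((ε : ℂ) * (-Complex.I * ((starRingEnd ℂ) D / ‖D‖))) =
          ((ε / ‖D‖ : ℝ) : ℂ) * (-Complex.I * (w * (starRingEnd ℂ) D)) := by
        push_cast
        field_simp
      rw [this, Complex.re_ofReal_mul]
      congr 1
      simp [Complex.mul_re]
    ext z
    simp only [ln, Set.mem_setOf_eq]
    rw [hre, hre]
    constructor
    · rintro ⟨t, rfl⟩
      congr 1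
      have : (z0 + t * D) * (starRingEnd ℂ) D = z0 * (starRingEnd ℂ) D + ((t * Complex.normSq D : ℝ) : ℂ) := by
        push_cast
        rw [← Complex.mul_conj]
        ring
      rw [this, Complex.add_im, Complex.ofReal_im, add_zero]
    · intro h
      have h1 : (z * (starRingEnd ℂ) D).im = (z0 * (starRingEnd ℂ) D).im :=
        mul_left_cancel₀ (div_ne_zero hε0 hDr) h
      have h2 : ((z - z0) * (starRingEnd ℂ) D).im = 0 := by
        rw [sub_mul, Complex.sub_im, h1, sub_self]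
      have h3 : (z - z0) * (starRingEnd ℂ) D = (((z - z0) * (starRingEnd ℂ) D).re : ℂ) := by
        apply Complex.ext
        · simp
        · rw [h2, Complex.ofReal_im]
      have h4 : (Complex.normSq D : ℂ) ≠ 0 := by
        rw [Ne, Complex.ofReal_eq_zero, Complex.normSq_eq_zero]; exact hD
      refine ⟨((z - z0) * (starRingEnd ℂ) D).re / Complex.normSq D, ?_⟩
      have h5 : (z - z0) * (Complex.normSq D : ℂ) = (((z - z0) * (starRingEnd ℂ) D).re : ℂ) * D := by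
        rw [← h3, ← Complex.mul_conj]; ring
      have h6 : z - z0 = (((z - z0) * (starRingEnd ℂ) D).re : ℂ) * D / (Complex.normSq D : ℂ) := by
        rw [eq_div_iff h4]; exact h5
      have h7 : z = z0 + (z - z0) := by ring
      rw [h7]
      nth_rewrite 1 [h6]
      push_cast
      ring
  have hnorm : ∀ ε : ℝ, |ε| = 1 → ‖(ε : ℂ) * (Complex.I * (D / ‖D‖))‖ = 1 := by
    intro ε hε
    rw [norm_mul, norm_mul, norm_div, Complex.norm_I, Complex.norm_real, Complex.norm_real, norm_norm,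
      Real.norm_eq_abs, hε, div_self hDr]
    norm_num
  rcases le_total 0 ((z0 * (starRingEnd ℂ) (((1 : ℝ) : ℂ) * (Complex.I * (D / ‖D‖)))).re) with h | h
  · exact ⟨_, _, hnorm 1 (by norm_num), h, main 1 (by norm_num)⟩
  · refine ⟨_, _, hnorm (-1) (by norm_num), ?_, main (-1) (by norm_num)⟩
    have h1 : (((-1 : ℝ) : ℂ) * (Complex.I * (D / ‖D‖))) = -((((1 : ℝ) : ℂ) * (Complex.I * (D / ‖D‖)))) := by
      push_cast; ring
    rw [h1, map_neg, mul_neg, Complex.neg_re]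
    linarith

/-- the complex coordinate -/
noncomputable def Phi : EuclideanSpace ℝ (Fin 2) ≃ₗᵢ[ℝ] ℂ := Complex.orthonormalBasisOneI.repr.symm

/-- the coordinate with origin `c` -/
noncomputable def ec (c : EuclideanSpace ℝ (Fin 2)) : EuclideanSpace ℝ (Fin 2) → ℂ := fun x => Phi (x - c)

theorem ec_bij (c : EuclideanSpace ℝ (Fin 2)) : Function.Bijective (ec c) := by
  constructor
  · intro x y h
    have := Phi.injective h
    exact sub_left_injective this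
  · intro z
    exact ⟨Phi.symm z + c, by simp [ec]⟩

/-- the centroid -/
noncomputable def cen (P : Finset (EuclideanSpace ℝ (Fin 2))) : EuclideanSpace ℝ (Fin 2) :=
  (P.card : ℝ)⁻¹ • ∑ p ∈ P, p

theorem cen_fixed (P : Finset (EuclideanSpace ℝ (Fin 2))) (hP : P.Nonempty)
    (g : EuclideanSpace ℝ (Fin 2) ≃ᵢ EuclideanSpace ℝ (Fin 2)) (hg : (⇑g) '' (P : Set (EuclideanSpace ℝ (Fin 2))) = P) :
    g (cen P) = cen P := by
  classical
  have hlin : ∀ x, g x = g.toRealLinearIsometryEquiv x + g 0 := by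
    intro x
    rw [IsometryEquiv.toRealLinearIsometryEquiv_apply]; abel
  have hcard : (P.card : ℝ) ≠ 0 := by
    exact_mod_cast hP.card_pos.ne'
  have hsum : ∑ p ∈ P, g p = ∑ p ∈ P, p := by
    have h1 : P.image g = P := by
      apply Finset.coe_injective
      rw [Finset.coe_image, hg]
    nth_rewrite 2 [← h1]
    rw [Finset.sum_image (fun x _ y _ h => g.injective h)]
  have h2 : ∑ p ∈ P, g p = g.toRealLinearIsometryEquiv (∑ p ∈ P, p) + (P.card : ℝ) • g 0 := by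
    rw [map_sum, Finset.sum_congr rfl fun p _ => hlin p, Finset.sum_add_distrib, Finset.sum_const,
      Nat.cast_smul_eq_nsmul]
  rw [hlin, cen, map_smul]
  have h3 : (P.card : ℝ)⁻¹ • g.toRealLinearIsometryEquiv (∑ p ∈ P, p) + g 0 =
      (P.card : ℝ)⁻¹ • (g.toRealLinearIsometryEquiv (∑ p ∈ P, p) + (P.card : ℝ) • g 0) := by
    rw [smul_add, smul_smul, inv_mul_cancel₀ hcard, one_smul]
  rw [h3, ← h2, hsum]

/-- the transported isometry -/
noncomputable def tr (g : EuclideanSpace ℝ (Fin 2) ≃ᵢ EuclideanSpace ℝ (Fin 2)) : ℂ ≃ₗᵢ[ℝ] ℂ :=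
  Phi.symm.trans (g.toRealLinearIsometryEquiv.trans Phi)

theorem tr_ec (g : EuclideanSpace ℝ (Fin 2) ≃ᵢ EuclideanSpace ℝ (Fin 2)) {c : EuclideanSpace ℝ (Fin 2)}
    (hc : g c = c) (x : EuclideanSpace ℝ (Fin 2)) : tr g (ec c x) = ec c (g x) := by
  unfold tr ec
  rw [LinearIsometryEquiv.trans_apply, LinearIsometryEquiv.trans_apply,
    LinearIsometryEquiv.symm_apply_apply]
  congr 1
  rw [map_sub, IsometryEquiv.toRealLinearIsometryEquiv_apply, IsometryEquiv.toRealLinearIsometryEquiv_apply,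
    hc]
  abel

theorem tr_form (g : EuclideanSpace ℝ (Fin 2) ≃ᵢ EuclideanSpace ℝ (Fin 2)) :
    ∃ a : ℂ, ‖a‖ = 1 ∧ (⇑(tr g) = rot a ∨ ⇑(tr g) = refl a) := by
  obtain ⟨a, h | h⟩ := linear_isometry_complex (tr g)
  · refine ⟨a, Circle.norm_coe a, Or.inl ?_⟩
    funext z
    rw [h, rotation_apply]; rfl
  · refine ⟨a, Circle.norm_coe a, Or.inr ?_⟩
    funext z
    rw [h, LinearIsometryEquiv.trans_apply, rotation_apply]; rfl

theorem image_tr (g : EuclideanSpace ℝ (Fin 2) ≃ᵢ EuclideanSpace ℝ (Fin 2)) {c : EuclideanSpace ℝ (Fin 2)}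
    (hc : g c = c) (X : Set (EuclideanSpace ℝ (Fin 2))) : (⇑(tr g)) '' (ec c '' X) = ec c '' ((⇑g) '' X) := by
  rw [Set.image_image, Set.image_image]
  exact Set.image_congr fun x _ => tr_ec g hc x

/-- TARGET: transfer of the frozen statement to the complex plane (centroid of `P` at `0`).
`geom` is the main geometric theorem (proved elsewhere). -/
theorem transfer
    (geom : ∀ (P : Set ℂ) (L : Set (Set ℂ)), Conf P L →
      (∃ p₁ ∈ P, ∃ p₂ ∈ P, ∃ p₃ ∈ P, ∀ p ∈ P, ∃ f, IsSym P L f ∧ (f p₁ = p ∨ f p₂ = p ∨ f p₃ = p)) →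
      (∃ l₁ ∈ L, ∃ l₂ ∈ L, ∃ l₃ ∈ L, ∀ l ∈ L, ∃ f, IsSym P L f ∧
        (f '' l₁ = l ∨ f '' l₂ = l ∨ f '' l₃ = l)) → False) :
    ∀ (P : Set (EuclideanSpace ℝ (Fin 2)))
      (Ls : Set (AffineSubspace ℝ (EuclideanSpace ℝ (Fin 2))))
      (G : Set (EuclideanSpace ℝ (Fin 2) ≃ᵢ EuclideanSpace ℝ (Fin 2))),
      P.Finite → Ls.Finite →
      (∀ L ∈ Ls, Module.finrank ℝ L.direction = 1) →
      (∀ p ∈ P, {L ∈ Ls | p ∈ L}.ncard = 5) →
      (∀ L ∈ Ls, {p ∈ P | p ∈ L}.ncard = 5) →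
      (∀ g : EuclideanSpace ℝ (Fin 2) ≃ᵢ EuclideanSpace ℝ (Fin 2),
        g ∈ G ↔ ((⇑g) '' P = P ∧
          ∀ L ∈ Ls, ∃ M ∈ Ls, (⇑g) '' (L : Set (EuclideanSpace ℝ (Fin 2))) =
            (M : Set (EuclideanSpace ℝ (Fin 2))))) →
      ¬ ((∃ p₁ ∈ P, ∃ p₂ ∈ P, ∃ p₃ ∈ P,
            ∀ p ∈ P, ∃ g : EuclideanSpace ℝ (Fin 2) ≃ᵢ EuclideanSpace ℝ (Fin 2),
                g ∈ G ∧ (g p₁ = p ∨ g p₂ = p ∨ g p₃ = p)) ∧
         (∃ L₁ ∈ Ls, ∃ L₂ ∈ Ls, ∃ L₃ ∈ Ls,
            ∀ L ∈ Ls, ∃ g : EuclideanSpace ℝ (Fin 2) ≃ᵢ EuclideanSpace ℝ (Fin 2),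
              g ∈ G ∧
              ((⇑g) '' (L₁ : Set (EuclideanSpace ℝ (Fin 2))) =
                  (L : Set (EuclideanSpace ℝ (Fin 2))) ∨
               (⇑g) '' (L₂ : Set (EuclideanSpace ℝ (Fin 2))) =
                  (L : Set (EuclideanSpace ℝ (Fin 2))) ∨
               (⇑g) '' (L₃ : Set (EuclideanSpace ℝ (Fin 2))) =
                  (L : Set (EuclideanSpace ℝ (Fin 2)))))) := by
  intro P Ls G hP hLs hdim hfive hfive' hG ⟨⟨p₁, hp₁, p₂, hp₂, p₃, hp₃, hporb⟩, ⟨L₁, hL₁, L₂, hL₂, L₃, hL₃, hLorb⟩⟩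
  set c := cen hP.toFinset with hc
  have hPne : hP.toFinset.Nonempty := ⟨p₁, hP.mem_toFinset.mpr hp₁⟩
  have hfix : ∀ g ∈ G, g c = c := by
    intro g hg
    apply cen_fixed _ hPne
    rw [hP.coe_toFinset]
    exact ((hG g).mp hg).1
  have hinjL : Function.Injective (fun L : AffineSubspace ℝ (EuclideanSpace ℝ (Fin 2)) =>
      ec c '' (L : Set (EuclideanSpace ℝ (Fin 2)))) := by
    intro L L' h
    exact SetLike.coe_injective ((ec_bij c).1.image_injective h)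
  have hmem : ∀ (x : EuclideanSpace ℝ (Fin 2)) (L : AffineSubspace ℝ (EuclideanSpace ℝ (Fin 2))),
      ec c x ∈ ec c '' (L : Set (EuclideanSpace ℝ (Fin 2))) ↔ x ∈ L := by
    intro x L
    exact (ec_bij c).1.mem_set_image
  have hsym : ∀ g ∈ G, IsSym (ec c '' P) ((fun L : AffineSubspace ℝ (EuclideanSpace ℝ (Fin 2)) =>
      ec c '' (L : Set (EuclideanSpace ℝ (Fin 2)))) '' Ls) (tr g) := by
    intro g hg
    have h := (hG g).mp hg
    refine ⟨⟨?_, ?_⟩, tr_form g⟩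
    · rw [image_tr g (hfix g hg), h.1]
    · rintro _ ⟨L, hL, rfl⟩
      obtain ⟨M, hM, hLM⟩ := h.2 L hL
      refine ⟨M, hM, ?_⟩
      show ec c '' (M : Set _) = (⇑(tr g)) '' (ec c '' (L : Set _))
      rw [image_tr g (hfix g hg), hLM]
  refine geom (ec c '' P) ((fun L : AffineSubspace ℝ (EuclideanSpace ℝ (Fin 2)) =>
      ec c '' (L : Set (EuclideanSpace ℝ (Fin 2)))) '' Ls) ?_ ?_ ?_
  · refine ⟨hP.image _, hLs.image _, ?_, ?_, ?_⟩
    · rintro _ ⟨L, hL, rfl⟩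
      have hne : (L : Set (EuclideanSpace ℝ (Fin 2))).Nonempty := by
        rw [AffineSubspace.nonempty_iff_ne_bot]
        rintro rfl
        have := hdim _ hL
        rw [AffineSubspace.direction_bot, finrank_bot] at this
        exact zero_ne_one this
      obtain ⟨x0, hx0⟩ := hne
      obtain ⟨⟨d, hd⟩, hd0, hspan⟩ := finrank_eq_one_iff'.mp (hdim L hL)
      have hd0' : d ≠ 0 := fun h => hd0 (Subtype.ext h)
      have hset : ec c '' (L : Set (EuclideanSpace ℝ (Fin 2))) = {z : ℂ | ∃ t : ℝ, z = ec c x0 + t * Phi d} := by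
        ext z
        constructor
        · rintro ⟨x, hx, rfl⟩
          have h1 : x - x0 ∈ L.direction := by
            rw [← vsub_eq_sub]
            exact AffineSubspace.vsub_mem_direction hx hx0
          obtain ⟨t, ht⟩ := hspan ⟨x - x0, h1⟩
          refine ⟨t, ?_⟩
          have h2 : t • d = x - x0 := congrArg Subtype.val ht
          have h3 : x - c = (x0 - c) + t • d := by rw [h2]; abel
          show Phi (x - c) = Phi (x0 - c) + t * Phi d
          rw [h3, map_add, map_smul, Complex.real_smul]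
        · rintro ⟨t, rfl⟩
          refine ⟨t • d +ᵥ x0, AffineSubspace.vadd_mem_of_mem_direction (L.direction.smul_mem t hd) hx0, ?_⟩
          show Phi (t • d + x0 - c) = Phi (x0 - c) + t * Phi d
          have h3 : t • d + x0 - c = (x0 - c) + t • d := by abel
          rw [h3, map_add, map_smul, Complex.real_smul]
      show ∃ n : ℂ, ∃ k : ℝ, ‖n‖ = 1 ∧ 0 ≤ k ∧ ec c '' (L : Set _) = ln n k
      rw [hset]
      exact line_ln _ _ (fun h => hd0' ((map_eq_zero_iff _ Phi.injective).mp h))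
    · rintro _ ⟨p, hp, rfl⟩
      rw [← hfive p hp, ← Set.ncard_image_of_injective _ hinjL]
      congr 1
      ext l
      constructor
      · rintro ⟨⟨L, hL, rfl⟩, h⟩
        exact ⟨L, ⟨hL, (hmem p L).mp h⟩, rfl⟩
      · rintro ⟨L, ⟨hL, h⟩, rfl⟩
        exact ⟨⟨L, hL, rfl⟩, (hmem p L).mpr h⟩
    · rintro _ ⟨L, hL, rfl⟩
      rw [← hfive' L hL, ← Set.ncard_image_of_injective _ (ec_bij c).1]
      congr 1
      ext z
      constructor
      · rintro ⟨⟨p, hp, rfl⟩, h⟩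
        exact ⟨p, ⟨hp, (hmem p L).mp h⟩, rfl⟩
      · rintro ⟨p, ⟨hp, h⟩, rfl⟩
        exact ⟨⟨p, hp, rfl⟩, (hmem p L).mpr h⟩
  · refine ⟨_, ⟨p₁, hp₁, rfl⟩, _, ⟨p₂, hp₂, rfl⟩, _, ⟨p₃, hp₃, rfl⟩, ?_⟩
    rintro _ ⟨p, hp, rfl⟩
    obtain ⟨g, hg, h⟩ := hporb p hp
    refine ⟨tr g, hsym g hg, ?_⟩
    rw [tr_ec g (hfix g hg), tr_ec g (hfix g hg), tr_ec g (hfix g hg)]
    rcases h with h | h | h
    · exact Or.inl (by rw [h])
    · exact Or.inr (Or.inl (by rw [h]))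
    · exact Or.inr (Or.inr (by rw [h]))
  · refine ⟨_, ⟨L₁, hL₁, rfl⟩, _, ⟨L₂, hL₂, rfl⟩, _, ⟨L₃, hL₃, rfl⟩, ?_⟩
    rintro _ ⟨L, hL, rfl⟩
    obtain ⟨g, hg, h⟩ := hLorb L hL
    refine ⟨tr g, hsym g hg, ?_⟩
    simp only [image_tr g (hfix g hg)]
    rcases h with h | h | h
    · exact Or.inl (by rw [h])
    · exact Or.inr (Or.inl (by rw [h]))
    · exact Or.inr (Or.inr (by rw [h]))

end Pool.Agent.Helper644.FC
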