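import Mathlib
import Pool.Agent.Helper644.FC1

set_option autoImplicit false

namespace Pool.Agent.Helper644.FC

namespace Red0


theorem circ_585 (n p p1 : ℂ) (hn : ‖n‖ = 1)
    (hre : (p * (starRingEnd ℂ) n).re = (p1 * (starRingEnd ℂ) n).re) (hnorm : ‖p‖ = ‖p1‖) :
    p1 = p ∨ p1 = n * n * (starRingEnd ℂ) p := by
  have hnn : n * (starRingEnd ℂ) n = 1 := by
    rw [Complex.mul_conj, Complex.normSq_eq_norm_sq, hn]; norm_num
  have hnn' : (starRingEnd ℂ) n * n = 1 := by rw [mul_comm]; exact hnn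
  set w := p * (starRingEnd ℂ) n with hw
  set w1 := p1 * (starRingEnd ℂ) n with hw1
  have hp : p = w * n := by rw [hw, mul_assoc, hnn', mul_one]
  have hp1 : p1 = w1 * n := by rw [hw1, mul_assoc, hnn', mul_one]
  have hN : ‖w‖ = ‖w1‖ := by
    rw [hw, hw1, norm_mul, norm_mul, hnorm]
  have hsq : Complex.normSq w = Complex.normSq w1 := by
    rw [Complex.normSq_eq_norm_sq, Complex.normSq_eq_norm_sq, hN]
  rw [Complex.normSq_apply, Complex.normSq_apply, hre] at hsq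
  have him : (w1.im - w.im) * (w1.im + w.im) = 0 := by nlinarith
  rcases mul_eq_zero.mp him with h | h
  · left
    have : w1 = w := Complex.ext hre.symm (by linarith)
    rw [hp, hp1, this]
  · right
    have : w1 = (starRingEnd ℂ) w := by
      apply Complex.ext
      · rw [Complex.conj_re]; exact hre.symm
      · rw [Complex.conj_im]; linarith
    rw [hp1, this, hw, map_mul, Complex.conj_conj]
    ring

theorem line0_585 (n p : ℂ) (hn : ‖n‖ = 1) (hp : p ≠ 0) (hpl : p ∈ ln n 0) :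
    ln n 0 = {z | (z * (starRingEnd ℂ) p).im = 0} := by
  have hnn : n * (starRingEnd ℂ) n = 1 := by
    rw [Complex.mul_conj, Complex.normSq_eq_norm_sq, hn]; norm_num
  have hnn' : (starRingEnd ℂ) n * n = 1 := by rw [mul_comm]; exact hnn
  have h0 : (p * (starRingEnd ℂ) n).re = 0 := hpl
  set w := p * (starRingEnd ℂ) n with hw
  have hpw : p = w * n := by rw [hw, mul_assoc, hnn', mul_one]
  have hw0 : w ≠ 0 := by
    intro h; apply hp; rw [hpw, h, zero_mul]
  have him : w.im ≠ 0 := by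
    intro h; exact hw0 (Complex.ext h0 h)
  ext z
  simp only [ln, Set.mem_ofPred_eq]
  have e : z * (starRingEnd ℂ) p = (z * (starRingEnd ℂ) n) * (starRingEnd ℂ) w := by
    rw [hpw, map_mul]; ring
  rw [e, Complex.mul_im, Complex.conj_re, Complex.conj_im, h0]
  constructor
  · intro h; rw [h]; ring
  · intro h
    have : (z * (starRingEnd ℂ) n).re * w.im = 0 := by linarith
    rcases mul_eq_zero.mp this with h1 | h1
    · exact h1
    · exact absurd h1 him

theorem lin0_585 (n p q : ℂ) (hn : ‖n‖ = 1) (hq : q ≠ 0) (hpl : p ∈ ln n 0) (hql : q ∈ ln n 0) :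
    ∃ s : ℝ, p = s * q := by
  have hnn : n * (starRingEnd ℂ) n = 1 := by
    rw [Complex.mul_conj, Complex.normSq_eq_norm_sq, hn]; norm_num
  have hnn' : (starRingEnd ℂ) n * n = 1 := by rw [mul_comm]; exact hnn
  have h0 : (p * (starRingEnd ℂ) n).re = 0 := hpl
  have h1 : (q * (starRingEnd ℂ) n).re = 0 := hql
  set w := p * (starRingEnd ℂ) n with hw
  set v := q * (starRingEnd ℂ) n with hv
  have hpw : p = w * n := by rw [hw, mul_assoc, hnn', mul_one]
  have hqv : q = v * n := by rw [hv, mul_assoc, hnn', mul_one]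
  have hv0 : v ≠ 0 := by
    intro h; apply hq; rw [hqv, h, zero_mul]
  have him : v.im ≠ 0 := by
    intro h; exact hv0 (Complex.ext h1 h)
  refine ⟨w.im / v.im, ?_⟩
  have : w = ((w.im / v.im : ℝ) : ℂ) * v := by
    apply Complex.ext
    · rw [Complex.re_ofReal_mul, h0, h1, mul_zero]
    · rw [Complex.im_ofReal_mul]; field_simp
  rw [hpw, hqv, this]
  simp only [Complex.im_ofReal_mul]
  rw [div_mul_cancel₀ _ him]
  ring

theorem isSym_norm_585 {P : Set ℂ} {L : Set (Set ℂ)} {f : ℂ → ℂ} (hf : IsSym P L f) (z : ℂ) :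
    ‖f z‖ = ‖z‖ := by
  obtain ⟨-, a, ha, rfl | rfl⟩ := hf
  · simp [rot, ha]
  · simp [refl, ha]

theorem isSym_smul_585 {P : Set ℂ} {L : Set (Set ℂ)} {f : ℂ → ℂ} (hf : IsSym P L f) (s : ℝ) (z : ℂ) :
    f (s * z) = s * f z := by
  obtain ⟨-, a, ha, rfl | rfl⟩ := hf
  · simp only [rot]; ring
  · simp only [refl, map_mul, Complex.conj_ofReal]; ring

theorem isSym_inj_585 {P : Set ℂ} {L : Set (Set ℂ)} {f : ℂ → ℂ} (hf : IsSym P L f) :
    Function.Injective f := by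
  obtain ⟨-, a, ha, h⟩ := hf
  have ha0 : a ≠ 0 := by intro h; rw [h, norm_zero] at ha; exact zero_ne_one ha
  rcases h with rfl | rfl
  · intro x y hxy
    exact mul_left_cancel₀ ha0 hxy
  · intro x y hxy
    exact (starRingEnd ℂ).injective (mul_left_cancel₀ ha0 hxy)

open Classical in
theorem count_585 (P : Set ℂ) (L : Set (Set ℂ)) (hC : Conf P L) (x : Fin 3 → ℂ)
    (hx : ∀ p ∈ P, ∃ i, ‖p‖ = ‖x i‖) (l : Set ℂ) (hl : l ∈ L) :
    (∀ i j, ‖x i‖ = ‖x j‖ → i = j) ∧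
    (∀ i, ∃ p ∈ P, p ∈ l ∧ ‖p‖ = ‖x i‖) ∧
    (∃ i, ∃ p0 ∈ P, p0 ∈ l ∧ ‖p0‖ = ‖x i‖ ∧ ∀ p ∈ P, p ∈ l → ‖p‖ = ‖x i‖ → p = p0) ∧
    (∃ i, ∃ q ∈ P, ∃ q' ∈ P, q ∈ l ∧ q' ∈ l ∧ ‖q‖ = ‖x i‖ ∧ ‖q'‖ = ‖x i‖ ∧ q ≠ q') := by
  obtain ⟨n, k, hn, hk, hlk⟩ := hC.isLine l hl
  have h5 := hC.five' l hl
  have hfin : {p ∈ P | p ∈ l}.Finite := hC.finP.subset (fun p hp => hp.1)
  set T : Finset ℂ := hfin.toFinset with hT
  have hmem : ∀ p, p ∈ T ↔ p ∈ P ∧ p ∈ l := by
    intro p; rw [hT, Set.Finite.mem_toFinset]; rfl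
  have hcard : T.card = 5 := by
    rw [hT, ← Set.ncard_eq_toFinset_card _ hfin, h5]
  set t : Finset ℝ := Finset.univ.image (fun i : Fin 3 => ‖x i‖) with ht
  have hsum : T.card = ∑ b ∈ t, (T.filter (fun p => ‖p‖ = b)).card := by
    apply Finset.card_eq_sum_card_fiberwise
    intro p hp
    obtain ⟨i, hi⟩ := hx p ((hmem p).mp hp).1
    simp only [ht, Finset.coe_image, Finset.coe_univ, Set.image_univ, Set.mem_range]
    exact ⟨i, hi.symm⟩
  have hle2 : ∀ b : ℝ, (T.filter (fun p => ‖p‖ = b)).card ≤ 2 := by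
    intro b
    by_cases hne : (T.filter (fun p => ‖p‖ = b)).Nonempty
    · obtain ⟨p, hp⟩ := hne
      rw [Finset.mem_filter, hmem] at hp
      have hsub : T.filter (fun p => ‖p‖ = b) ⊆ {p, n * n * (starRingEnd ℂ) p} := by
        intro p1 hp1
        rw [Finset.mem_filter, hmem] at hp1
        have e1 : (p * (starRingEnd ℂ) n).re = k := by
          have := hp.1.2; rw [hlk] at this; exact this
        have e2 : (p1 * (starRingEnd ℂ) n).re = k := by
          have := hp1.1.2; rw [hlk] at this; exact this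
        rcases circ_585 n p p1 hn (e1.trans e2.symm) (hp.2.trans hp1.2.symm) with h | h
        · simp [h]
        · simp [h]
      exact (Finset.card_le_card hsub).trans Finset.card_le_two
    · rw [Finset.not_nonempty_iff_eq_empty.mp hne]; simp
  have hle : T.card ≤ 2 * t.card := by
    rw [hsum]
    calc _ ≤ ∑ b ∈ t, 2 := Finset.sum_le_sum (fun b _ => hle2 b)
      _ = 2 * t.card := by rw [Finset.sum_const, smul_eq_mul, mul_comm]
  have ht3 : t.card = 3 := by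
    have h1 : t.card ≤ 3 := by
      rw [ht]; exact (Finset.card_image_le).trans (by simp)
    omega
  have hinj : Set.InjOn (fun i : Fin 3 => ‖x i‖) (Finset.univ : Finset (Fin 3)) := by
    rw [← Finset.card_image_iff, ← ht, ht3]; simp
  have hinj' : ∀ i j, ‖x i‖ = ‖x j‖ → i = j := by
    intro i j h
    exact hinj (by simp) (by simp) h
  have hsum3 : T.card = ∑ i : Fin 3, (T.filter (fun p => ‖p‖ = ‖x i‖)).card := by
    rw [hsum, ht, Finset.sum_image]
    exact hinj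
  rw [hcard, Fin.sum_univ_three] at hsum3
  have a0 := hle2 ‖x 0‖
  have a1 := hle2 ‖x 1‖
  have a2 := hle2 ‖x 2‖
  refine ⟨hinj', ?_, ?_, ?_⟩
  · intro i
    have hpos : 0 < (T.filter (fun p => ‖p‖ = ‖x i‖)).card := by
      fin_cases i
      · show 0 < (T.filter (fun p => ‖p‖ = ‖x 0‖)).card
        omega
      · show 0 < (T.filter (fun p => ‖p‖ = ‖x 1‖)).card
        omega
      · show 0 < (T.filter (fun p => ‖p‖ = ‖x 2‖)).card
        omega
    obtain ⟨p, hp⟩ := Finset.card_pos.mp hpos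
    rw [Finset.mem_filter, hmem] at hp
    exact ⟨p, hp.1.1, hp.1.2, hp.2⟩
  · have : ∃ i : Fin 3, (T.filter (fun p => ‖p‖ = ‖x i‖)).card = 1 := by
      by_contra hcon
      push Not at hcon
      have b0 := hcon 0
      have b1 := hcon 1
      have b2 := hcon 2
      omega
    obtain ⟨i, hi⟩ := this
    obtain ⟨p0, hp0⟩ := Finset.card_eq_one.mp hi
    have hm : p0 ∈ T.filter (fun p => ‖p‖ = ‖x i‖) := by rw [hp0]; simp
    rw [Finset.mem_filter, hmem] at hm
    refine ⟨i, p0, hm.1.1, hm.1.2, hm.2, ?_⟩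
    intro p h1 h2 h3
    have : p ∈ T.filter (fun p => ‖p‖ = ‖x i‖) := by
      rw [Finset.mem_filter, hmem]; exact ⟨⟨h1, h2⟩, h3⟩
    rw [hp0] at this
    simpa using this
  · have : ∃ i : Fin 3, 1 < (T.filter (fun p => ‖p‖ = ‖x i‖)).card := by
      by_contra hcon
      push Not at hcon
      have b0 := hcon 0
      have b1 := hcon 1
      have b2 := hcon 2
      omega
    obtain ⟨i, hi⟩ := this
    obtain ⟨q, hq, q', hq', hne⟩ := Finset.one_lt_card.mp hi
    rw [Finset.mem_filter, hmem] at hq hq'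
    exact ⟨i, q, hq.1.1, q', hq'.1.1, hq.1.2, hq'.1.2, hq.2, hq'.2, hne⟩

/-- TARGET: neither a point nor a line of the configuration is at the origin. -/
theorem red0 (P : Set ℂ) (L : Set (Set ℂ)) (hC : Conf P L)
    (hP : ∃ p₁ ∈ P, ∃ p₂ ∈ P, ∃ p₃ ∈ P, ∀ p ∈ P, ∃ f, IsSym P L f ∧ (f p₁ = p ∨ f p₂ = p ∨ f p₃ = p))
    (hL : ∃ l, l ∈ L) : (0 : ℂ) ∉ P ∧ ∀ l ∈ L, (0 : ℂ) ∉ l := by
  obtain ⟨p₁, hp₁, p₂, hp₂, p₃, hp₃, hcov⟩ := hP
  obtain ⟨l0, hl0⟩ := hL
  obtain ⟨x, hxP, hx⟩ : ∃ x : Fin 3 → ℂ, (∀ i, x i ∈ P) ∧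
      ∀ p ∈ P, ∃ i, ∃ f, IsSym P L f ∧ f (x i) = p := by
    refine ⟨![p₁, p₂, p₃], ?_, ?_⟩
    · intro i; fin_cases i
      · exact hp₁
      · exact hp₂
      · exact hp₃
    · intro p hp
      obtain ⟨f, hf, h | h | h⟩ := hcov p hp
      · exact ⟨0, f, hf, h⟩
      · exact ⟨1, f, hf, h⟩
      · exact ⟨2, f, hf, h⟩
  have hxn : ∀ p ∈ P, ∃ i, ‖p‖ = ‖x i‖ := by
    intro p hp
    obtain ⟨i, f, hf, h⟩ := hx p hp
    exact ⟨i, by rw [← h, isSym_norm_585 hf]⟩
  have hk0 : ∀ (n : ℂ) (k : ℝ), (0 : ℂ) ∈ ln n k → k = 0 := by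
    intro n k h
    have : ((0 : ℂ) * (starRingEnd ℂ) n).re = k := h
    rw [zero_mul, Complex.zero_re] at this
    exact this.symm
  have h0P : (0 : ℂ) ∉ P := by
    intro h0
    obtain ⟨i0, hi0⟩ := hxn 0 h0
    rw [norm_zero] at hi0
    have hinj := (count_585 P L hC x hxn l0 hl0).1
    have hall : ∀ l ∈ L, (0 : ℂ) ∈ l := by
      intro l hl
      obtain ⟨p, _, hpl, hpn⟩ := (count_585 P L hC x hxn l hl).2.1 i0
      rw [← hi0, norm_eq_zero] at hpn
      rw [← hpn]; exact hpl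
    obtain ⟨i1, hi1⟩ : ∃ i1 : Fin 3, i1 ≠ i0 := exists_ne i0
    have hx0 : x i1 ≠ 0 := by
      intro h
      apply hi1
      apply hinj
      rw [← hi0, h, norm_zero]
    have h5 := hC.five (x i1) (hxP i1)
    have h1 : {l ∈ L | x i1 ∈ l}.ncard ≤ 1 := by
      rw [Set.ncard_le_one (hC.finL.subset (fun l hl => hl.1))]
      intro a ha b hb
      have key : ∀ c ∈ L, x i1 ∈ c → c = {z | (z * (starRingEnd ℂ) (x i1)).im = 0} := by
        intro c hc hxc
        obtain ⟨n, k, hn, -, hck⟩ := hC.isLine c hc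
        have hk : k = 0 := hk0 n k (hck ▸ hall c hc)
        rw [hk] at hck
        rw [hck] at hxc ⊢
        exact line0_585 n (x i1) hn hx0 hxc
      rw [key a ha.1 ha.2, key b hb.1 hb.2]
    omega
  refine ⟨h0P, ?_⟩
  intro l hl h0l
  obtain ⟨n, k, hn, -, hlk⟩ := hC.isLine l hl
  have hk : k = 0 := hk0 n k (hlk ▸ h0l)
  rw [hk] at hlk
  obtain ⟨hinj, -, ⟨i0, p0, hp0P, hp0l, hp0n, hp0u⟩, ⟨i1, q, hqP, q', hq'P, hql, hq'l, hqn, hq'n, hne⟩⟩ :=
    count_585 P L hC x hxn l hl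
  have hq0 : q ≠ 0 := fun h => h0P (h ▸ hqP)
  have hp00 : p0 ≠ 0 := fun h => h0P (h ▸ hp0P)
  have hnn : n * (starRingEnd ℂ) n = 1 := by
    rw [Complex.mul_conj, Complex.normSq_eq_norm_sq, hn]; norm_num
  have e1 : (q * (starRingEnd ℂ) n).re = 0 := by
    have := hql; rw [hlk] at this; exact this
  have e2 : (q' * (starRingEnd ℂ) n).re = 0 := by
    have := hq'l; rw [hlk] at this; exact this
  have hq' : q' = -q := by
    rcases circ_585 n q q' hn (e1.trans e2.symm) (hqn.trans hq'n.symm) with h | h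
    · exact absurd h.symm hne
    · have e3 : (starRingEnd ℂ) (q * (starRingEnd ℂ) n) = - (q * (starRingEnd ℂ) n) := by
        apply Complex.ext
        · rw [Complex.conj_re, Complex.neg_re, e1, neg_zero]
        · rw [Complex.conj_im, Complex.neg_im]
      rw [map_mul, Complex.conj_conj] at e3
      calc q' = n * ((starRingEnd ℂ) q * n) := by rw [h]; ring
        _ = -(n * (starRingEnd ℂ) n) * q := by rw [e3]; ring
        _ = -q := by rw [hnn]; ring
  obtain ⟨j, f, hf, hfq⟩ := hx q hqP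
  obtain ⟨j', g, hg, hgq⟩ := hx q' hq'P
  have hj : j = i1 := by
    apply hinj
    rw [← hqn, ← hfq, isSym_norm_585 hf]
  have hj' : j' = i1 := by
    apply hinj
    rw [← hq'n, ← hgq, isSym_norm_585 hg]
  rw [hj] at hfq
  rw [hj'] at hgq
  have hp0l' : p0 ∈ ln n 0 := hlk ▸ hp0l
  have hql' : q ∈ ln n 0 := hlk ▸ hql
  obtain ⟨s, hs⟩ := lin0_585 n p0 q hn hq0 hp0l' hql'
  have hp0im : p0 ∈ f '' P := by rw [hf.1.1]; exact hp0P
  obtain ⟨y, hyP, hy⟩ := hp0im
  have hyx : y = s * x i1 := by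
    apply isSym_inj_585 hf
    rw [hy, isSym_smul_585 hf, hfq, hs]
  have hgy : g y = -p0 := by
    rw [hyx, isSym_smul_585 hg, hgq, hq', hs]; ring
  have hmem : -p0 ∈ P := by
    rw [← hgy, ← hg.1.1]; exact ⟨y, hyP, rfl⟩
  have hneg : -p0 ∈ l := by
    rw [hlk]
    have : (p0 * (starRingEnd ℂ) n).re = 0 := hp0l'
    show ((-p0) * (starRingEnd ℂ) n).re = 0
    rw [neg_mul, Complex.neg_re, this, neg_zero]
  have := hp0u (-p0) hmem hneg (by rw [norm_neg]; exact hp0n)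
  apply hp00
  have h2 : (2 : ℂ) * p0 = 0 := by linear_combination (-1 : ℂ) * this
  simpa using h2

end Red0

end Pool.Agent.Helper644.FC
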