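import Mathlib
import Pool.Agent.Helper644.FC6
import Pool.Agent.Helper644.FCR
import Pool.Agent.Helper644.FCZ
import Pool.Agent.Helper644.FCT

set_option autoImplicit false

namespace Pool.Agent.Helper644.FC

theorem geom : ∀ (P : Set ℂ) (L : Set (Set ℂ)), Conf P L →
      (∃ p₁ ∈ P, ∃ p₂ ∈ P, ∃ p₃ ∈ P, ∀ p ∈ P, ∃ f, IsSym P L f ∧ (f p₁ = p ∨ f p₂ = p ∨ f p₃ = p)) →
      (∃ l₁ ∈ L, ∃ l₂ ∈ L, ∃ l₃ ∈ L, ∀ l ∈ L, ∃ f, IsSym P L f ∧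
        (f '' l₁ = l ∨ f '' l₂ = l ∨ f '' l₃ = l)) → False := by
  intro P L hC hP hL
  have hLne : ∃ l, l ∈ L := by
    obtain ⟨l, hl, _⟩ := hL
    exact ⟨l, hl⟩
  obtain ⟨h0, h0L⟩ := Red0.red0 P L hC hP hLne
  obtain ⟨Q, x, y, h1, h2⟩ := Red.red P L hC hP hL h0 h0L
  exact dual_false h1 h2

end Pool.Agent.Helper644.FC
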