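import Mathlib

set_option autoImplicit false

/-!
A connected bipartite graph on `92 = 46 + 46` vertices with exactly four distinct eigenvalues
`±3, ±20` and five distinct valencies `10, 13, 18, 34, 45`.

Construction.  Let `B` be the `45 × 45` collinearity matrix of the generalized quadrangle `GQ(4,2)`
(the points of the Hermitian surface `H(3,4)`), so `B` is the incidence matrix of a symmetric
`2-(45,12,3)` design, and let `S` be the union of two disjoint lines (a `2`-tight set: ten points such
that every point of `S` is collinear with `5` others in `S` and every point off `S` with `2` points
of `S`).  Complement the ten rows of `B` indexed by `S`, add a column of ones, and then add a first row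
equal to the indicator vector of `S` (with `0` in the new column).  The resulting `46 × 46` matrix `N`
satisfies `N Nᵀ = 9 I + α αᵀ` and `Nᵀ N = 9 I + β βᵀ`, where `α` has entries `1, 5 (10 times), 2
(35 times)` and `β` has entries `2 (10 times), 3 (35 times), 6`.  The graph is the bipartite graph
with biadjacency matrix `N`.
-/

namespace Pool.Agent.Helper644.FourEig

/-- The `92 × 92` adjacency matrix, written as one natural number: the entry `(i, j)` is the bit
number `92 i + j`. -/
def big : ℕ := 11762604625437044303947362104458486706199108127445337269212246200131233778893949904114275343607594024388802280757133373652591645839724480773580627449587056455919300551303791177754731389047162607164228287109507736086819665723317998443450363773418338155509529355039223941792400425621289633511484633646445443858007127503901237477486341532635986461166932314277400574025216149586006134973233621963604257998794770740875732364503109756408821454034326701484285331526638225624293433848069120423384147790384124048433151219017687037886952800255514365050242116866253944544497701303810226500042306724392564160923032683323180908428838340962712744760128399781928400434203890974788443176916178041856927918300102664068842867531452291642696549646665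9123449539343911767674077393509762907202298263788857149429767659919523116080208845469659976060418411910406469299987753876126291785449065060638782754460213400031533445637834777230035062796368663795535067080229481845887580330927490177075855208076303828907435580062349609588746939727582020795776784865694024040338422203841890379992446001163893324478440708243841136799604124158953279896565821331574590401399802599397553887151584054420995091392921936902243284726015071236686249059112679712112058126745130818072862651631548087468277019725503110845737131108383456202077453802453137941011325658489190274518624458642072285447160317093584267845175634147117534112169004782118052576416139441664726562117775828172033912987780387846440908467505083754915899142026641626927656222972281169456196343469842838339032817479443978853232846645384339793470898153995320788216326383404374895716711812701852901840705326522142821991893120702253567176241857592922439735903101092091644670686827469264992143457452774426136185664890477124154574938325106121812418443622392631973874689573646075471595790001750975628508342389945424179195299224005961936164743108885145548782787919424656227646208762464672656429120492089954882817650124740094690145532854169512530862986605767503865483696494535384600243891822566089526715764897389028126076084491691590300128401127592400699141131847386802595750310884286488102674508736015167290602561766022412230159218316834863505932727971821004765814883736718394325620575365903487830886831338064941850442407469903932325697979963040833356420453389514562251215635663849411425782650782007673065528671868341309649919815812577050021081708269646471578326304441102906607598402575933300269080976522693783029028188464980514350951006737189395120739687352857200641158427767464846415370406577020279511815976906064882827264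

/-- The adjacency relation. -/
def adjb (i j : ℕ) : Bool := big.testBit (92 * i + j)

/-- Row `i` of the adjacency matrix as a natural number with `92` bits. -/
def mask (i : ℕ) : ℕ := (big >>> (92 * i)) % 2 ^ 92

/-- Number of ones among the lowest `n` bits. -/
def pc : ℕ → ℕ → ℕ
  | 0, _ => 0
  | n + 1, x => if x = 0 then 0 else x % 2 + pc n (x / 2)

/-- The vector `α`, extended by `0` to the second part. -/
def w1 (i : ℕ) : ℕ := if i = 0 then 1 else if i < 11 then 5 else if i < 46 then 2 else 0

/-- The vector `β`, extended by `0` to the first part. -/
def w2 (i : ℕ) : ℕ := if i < 46 then 0 else if i < 56 then 2 else if i < 91 then 3 else 6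

/-- Parents in a spanning tree with root `91`. -/
def parents : List ℕ := [46, 91, 91, 91, 91, 91, 91, 91, 91, 91, 91, 91, 91, 91, 91, 91, 91, 91, 91, 91, 91, 91, 91, 91, 91, 91, 91, 91, 91, 91, 91, 91, 91, 91, 91, 91, 91, 91, 91, 91, 91, 91, 91, 91, 91, 91, 1, 1, 3, 2, 2, 2, 3, 1, 1, 1, 1, 1, 1, 1, 1, 1, 1, 1, 1, 1, 1, 1, 1, 1, 1, 1, 1, 1, 1, 2, 1, 1, 2, 1, 2, 3, 2, 1, 1, 1, 2, 1, 1, 1, 2, 91]

def par (v : ℕ) : ℕ := parents.getD v 0

end Pool.Agent.Helper644.FourEig

namespace Pool.Agent.Helper644.FourEig

/-! ### Finite checks -/

theorem check : ∀ i < 92, ∀ j < 92, pc 92 (mask i &&& mask j)
    = (if i = j then 9 else 0) + w1 i * w1 j + w2 i * w2 j := by decide +kernel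

theorem symm_check : ∀ i : Fin 92, ∀ j : Fin 92, adjb i j = adjb j i := by decide +kernel

theorem bip_check : ∀ i : Fin 92, ∀ j : Fin 92, adjb i j = true →
    ((decide (i.val < 46)) ≠ decide (j.val < 46)) := by decide +kernel

theorem par_check : ∀ i : Fin 92, par i < 92 ∧ (i.val = 91 ∨ adjb i (par i) = true) ∧
    par (par (par i)) = 91 := by decide +kernel

/-! ### The graph -/

/-- The graph. -/
def G : SimpleGraph (Fin 92) where
  Adj i j := adjb i j = true
  symm := ⟨fun i j h => by rw [symm_check j i]; exact h⟩
  loopless := ⟨fun i h => bip_check i i h rfl⟩

instance : DecidableRel G.Adj := fun i j => inferInstanceAs (Decidable (adjb i j = true))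

theorem connected : G.Connected := by
  have hstep : ∀ v : Fin 92, G.Reachable v ⟨par v, (par_check v).1⟩ := by
    intro v
    rcases (par_check v).2.1 with h | h
    · have : (⟨par v, (par_check v).1⟩ : Fin 92) = v := by
        apply Fin.ext
        simp only [h]
        decide +kernel
      rw [this]
    · have h' : G.Adj v ⟨par v, (par_check v).1⟩ := h
      exact h'.reachable
  have hroot : ∀ v : Fin 92, G.Reachable v ⟨91, by norm_num⟩ := by
    intro v
    have h1 := hstep v
    have h2 := hstep ⟨par v, (par_check v).1⟩
    have h3 := hstep ⟨par (par v), (par_check ⟨par v, (par_check v).1⟩).1⟩
    have h := (h1.trans h2).trans h3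
    have he : (⟨par (par (par v)), (par_check ⟨par (par v), (par_check ⟨par v, (par_check v).1⟩).1⟩).1⟩ :
        Fin 92) = ⟨91, by norm_num⟩ := Fin.ext (par_check v).2.2
    rw [← he]
    exact h
  have : Nonempty (Fin 92) := ⟨0⟩
  exact ⟨fun u v => (hroot u).trans (hroot v).symm⟩

theorem colorable : G.Colorable 2 := by
  have c : G.Coloring Bool := SimpleGraph.Coloring.mk (fun v : Fin 92 => decide (v.val < 46))
    (fun {v w} h => bip_check v w h)
  simpa using c.colorable

theorem degrees : 4 < (Finset.univ.image (fun v => G.degree v)).card := by
  have h : ({10, 13, 18, 34, 45} : Finset ℕ) ⊆ Finset.univ.image (fun v => G.degree v) := by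
    decide +kernel
  exact lt_of_lt_of_le (by decide) (Finset.card_le_card h)

/-! ### The square of the adjacency matrix -/

theorem pc_eq (n x : ℕ) : pc n x = ∑ k ∈ Finset.range n, (if x.testBit k then 1 else 0) := by
  induction n generalizing x with
  | zero => simp [pc]
  | succ n ih =>
    rw [Finset.sum_range_succ', pc]
    split_ifs with h h' h'
    · subst h; simp at h'
    · subst h; simp
    · rw [ih, add_comm]
      congr 1
      · apply Finset.sum_congr rfl
        intro k _
        rw [Nat.testBit_succ]
      · simp [Nat.testBit_zero] at h'
        exact h'
    · rw [ih, add_comm]
      congr 1
      · apply Finset.sum_congr rfl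
        intro k _
        rw [Nat.testBit_succ]
      · simp [Nat.testBit_zero] at h'
        exact h'

theorem testBit_mask (i k : ℕ) (hk : k < 92) : (mask i).testBit k = adjb i k := by
  unfold mask adjb
  rw [Nat.testBit_mod_two_pow, Nat.testBit_shiftRight]
  simp [hk]

theorem common (i j : Fin 92) :
    ∑ k : Fin 92, (if adjb i k then (1 : ℝ) else 0) * (if adjb k j then (1 : ℝ) else 0)
      = (if i = j then 9 else 0) + (w1 i : ℝ) * w1 j + (w2 i : ℝ) * w2 j := by
  have h := check i i.2 j j.2
  rw [pc_eq] at h
  rw [Finset.sum_range (fun k => if (mask i &&& mask j).testBit k then 1 else 0)] at h
  have h2 : ∑ k : Fin 92, (if adjb i k then (1 : ℝ) else 0) * (if adjb k j then (1 : ℝ) else 0)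
      = ((∑ k : Fin 92, (if (mask i &&& mask j).testBit k then 1 else 0) : ℕ) : ℝ) := by
    push_cast
    apply Finset.sum_congr rfl
    intro k _
    rw [Nat.testBit_and, testBit_mask i k k.2, testBit_mask j k k.2, symm_check k j]
    cases adjb i k <;> cases adjb j k <;> simp
  rw [h2, h]
  push_cast
  simp [Fin.ext_iff]

end Pool.Agent.Helper644.FourEig
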