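import Mathlib

set_option autoImplicit false

namespace Pool.Agent.Helper644.Quad1

/-- coprime integers whose product is a fourth power -/
lemma fourth_of_mul {m n b : ℤ} (h : IsCoprime m n) (hmn : m * n = b ^ 4) :
    ∃ p, m = p ^ 4 ∨ m = - p ^ 4 := by
  have hu : IsUnit (gcd m n) := by
    rw [Int.isCoprime_iff_gcd_eq_one] at h
    rw [← Int.coe_gcd, h]; simp
  obtain ⟨d, hd⟩ := exists_associated_pow_of_mul_eq_pow hu hmn
  refine ⟨d, ?_⟩
  rcases Int.associated_iff.1 hd with h1 | h1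
  · left; exact h1.symm
  · right; linarith

lemma fourth_of_mul' {m n b : ℤ} (hb : b ≠ 0) (h : IsCoprime m n) (hmn : m * n = b ^ 4) :
    ∃ p q, ((m = p ^ 4 ∧ n = q ^ 4) ∨ (m = - p ^ 4 ∧ n = - q ^ 4)) ∧ b ^ 2 = p ^ 2 * q ^ 2 := by
  have hb4 : 0 < b ^ 4 := by positivity
  obtain ⟨p, hp⟩ := fourth_of_mul h hmn
  obtain ⟨q, hq⟩ := fourth_of_mul h.symm (by rw [mul_comm]; exact hmn)
  have hp0 : 0 ≤ p ^ 4 := by positivity
  have hq0 : 0 ≤ q ^ 4 := by positivity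
  have hm0 : m ≠ 0 := by rintro rfl; rw [eq_comm] at hmn; simp at hmn; exact hb hmn
  have hn0 : n ≠ 0 := by rintro rfl; rw [eq_comm] at hmn; simp at hmn; exact hb hmn
  have key : b ^ 4 = p ^ 4 * q ^ 4 → b ^ 2 = p ^ 2 * q ^ 2 := by
    intro h4
    have h5 : (b ^ 2) ^ 2 = (p ^ 2 * q ^ 2) ^ 2 := by rw [← pow_mul, mul_pow, ← pow_mul, ← pow_mul]; exact h4
    exact (pow_left_inj₀ (by positivity) (by positivity) (by norm_num)).1 h5
  rcases hp with hp | hp <;> rcases hq with hq | hq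
  · exact ⟨p, q, Or.inl ⟨hp, hq⟩, key (by rw [← hmn, hp, hq])⟩
  · exfalso
    have : m * n ≤ 0 := by rw [hp, hq]; nlinarith [mul_nonneg hp0 hq0]
    linarith
  · exfalso
    have : m * n ≤ 0 := by rw [hp, hq]; nlinarith [mul_nonneg hp0 hq0]
    linarith
  · exact ⟨p, q, Or.inr ⟨hp, hq⟩, key (by rw [← hmn, hp, hq]; ring)⟩

lemma sq_mod_eight (c : ℤ) : c ^ 2 % 8 = 0 ∨ c ^ 2 % 8 = 1 ∨ c ^ 2 % 8 = 4 := by
  have h : c % 8 = 0 ∨ c % 8 = 1 ∨ c % 8 = 2 ∨ c % 8 = 3 ∨ c % 8 = 4 ∨ c % 8 = 5 ∨ c % 8 = 6 ∨ c % 8 = 7 := by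
    omega
  rcases h with h | h | h | h | h | h | h | h <;> simp [pow_two, Int.mul_emod, h]

lemma odd_sq {a : ℤ} (h : a % 2 = 1) : a ^ 2 % 8 = 1 := by
  have h : a % 8 = 1 ∨ a % 8 = 3 ∨ a % 8 = 5 ∨ a % 8 = 7 := by
    omega
  rcases h with h | h | h | h <;> simp [pow_two, Int.mul_emod, h]

lemma odd_four {a : ℤ} (h : a % 2 = 1) : a ^ 4 % 8 = 1 := by
  have h2 := odd_sq h
  have : a ^ 4 = a ^ 2 * a ^ 2 := by ring
  rw [this, Int.mul_emod, h2]; rfl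

/-- second half of the descent -/
lemma half2 {p q a : ℤ} (hp : p ≠ 0) (hpq : IsCoprime p q) (hq : q % 2 = 1)
    (h : a ^ 2 = q ^ 4 + 8 * p ^ 2 * q ^ 2 + 8 * p ^ 4) :
    ∃ r s : ℤ, IsCoprime s r ∧ q ^ 2 = s ^ 4 - 4 * s ^ 2 * r ^ 2 + 2 * r ^ 4 ∧ p ^ 2 = r ^ 2 * s ^ 2 := by
  have hq4 := odd_four hq
  have ha : a % 2 = 1 := by
    by_contra hne
    have h0 : a % 2 = 0 := by omega
    obtain ⟨k, hk⟩ : ∃ k, a = 2 * k := ⟨a / 2, by omega⟩
    rw [hk] at h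
    have : (2 * k) ^ 2 = 2 * (2 * k ^ 2) := by ring
    have h3 : q ^ 4 = 2 * (2 * k ^ 2 - 4 * p ^ 2 * q ^ 2 - 4 * p ^ 4) := by linarith
    omega
  obtain ⟨k, hk⟩ : ∃ k, a = 2 * k + 1 := ⟨a / 2, by omega⟩
  have hq2 := odd_sq hq
  obtain ⟨j, hj⟩ : ∃ j, q ^ 2 = 2 * j + 1 := ⟨q ^ 2 / 2, by omega⟩
  -- M = (q^2+4p^2-a)/2, N = (q^2+4p^2+a)/2
  obtain ⟨M, hM⟩ : ∃ M, 2 * M = q ^ 2 + 4 * p ^ 2 - a := ⟨j - k + 2 * p ^ 2, by rw [hj, hk]; ring⟩
  obtain ⟨N, hN⟩ : ∃ N, 2 * N = q ^ 2 + 4 * p ^ 2 + a := ⟨j + k + 1 + 2 * p ^ 2, by rw [hj, hk]; ring⟩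
  have hsum : M + N = q ^ 2 + 4 * p ^ 2 := by linarith
  have hprod : M * N = 2 * p ^ 4 := by
    have : (2 * M) * (2 * N) = 4 * (2 * p ^ 4) := by
      rw [hM, hN]
      have : (q ^ 2 + 4 * p ^ 2 - a) * (q ^ 2 + 4 * p ^ 2 + a) = (q ^ 2 + 4 * p ^ 2) ^ 2 - a ^ 2 := by ring
      rw [this, h]; ring
    linarith
  have hp4 : 0 < p ^ 4 := by positivity
  have hsumpos : 0 < M + N := by
    rw [hsum]
    have : 0 < p ^ 2 := by positivity
    nlinarith [sq_nonneg q]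
  have hMpos : 0 < M := by
    by_contra hle
    push Not at hle
    nlinarith
  have hNpos : 0 < N := by
    by_contra hle
    push Not at hle
    nlinarith
  have hcop : IsCoprime M N := by
    rw [Int.isCoprime_iff_gcd_eq_one]
    by_contra hg
    obtain ⟨l, hl, hld⟩ := Nat.exists_prime_and_dvd hg
    have hlM : (l : ℤ) ∣ M := (Int.natCast_dvd_natCast.2 hld).trans (Int.gcd_dvd_left ..)
    have hlN : (l : ℤ) ∣ N := (Int.natCast_dvd_natCast.2 hld).trans (Int.gcd_dvd_right ..)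
    have hlp : Prime (l : ℤ) := Nat.prime_iff_prime_int.1 hl
    have h1 : (l : ℤ) ∣ q ^ 2 + 4 * p ^ 2 := hsum ▸ dvd_add hlM hlN
    have h2 : (l : ℤ) ∣ 2 * p ^ 4 := hprod ▸ (hlM.mul_right N)
    rcases hlp.dvd_or_dvd h2 with h3 | h3
    · have : l = 2 := by
        have := (Nat.prime_dvd_prime_iff_eq hl Nat.prime_two).1 (by exact_mod_cast h3)
        exact this
      subst this
      have : (2 : ℤ) ∣ q ^ 2 + 4 * p ^ 2 := by exact_mod_cast h1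
      omega
    · have h4 : (l : ℤ) ∣ p := hlp.dvd_of_dvd_pow h3
      have h5 : (l : ℤ) ∣ q ^ 2 := by
        have : (l : ℤ) ∣ 4 * p ^ 2 := (dvd_pow h4 (by norm_num)).mul_left 4
        exact (dvd_add_left this).1 h1
      have h6 : (l : ℤ) ∣ q := hlp.dvd_of_dvd_pow h5
      have h7 := hpq.isUnit_of_dvd' h4 h6
      exact hlp.not_isUnit h7
  -- parity
  have hpar : M % 2 = 0 ∨ N % 2 = 0 := by
    by_contra hne
    push Not at hne
    have h1 : M % 2 = 1 := by omega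
    have h2 : N % 2 = 1 := by omega
    have h3 : (M * N) % 2 = 1 := by rw [Int.mul_emod, h1, h2]; rfl
    rw [hprod] at h3
    omega
  have main : ∀ M N : ℤ, 0 < M → 0 < N → M + N = q ^ 2 + 4 * p ^ 2 → M * N = 2 * p ^ 4 → IsCoprime M N →
      M % 2 = 0 →
      ∃ r s : ℤ, IsCoprime s r ∧ q ^ 2 = s ^ 4 - 4 * s ^ 2 * r ^ 2 + 2 * r ^ 4 ∧ p ^ 2 = r ^ 2 * s ^ 2 := by
    intro M N hM0 hN0 hsum hprod hcop hpar
    obtain ⟨M', hM'⟩ : ∃ M', M = 2 * M' := ⟨M / 2, by omega⟩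
    subst hM'
    have hprod' : M' * N = p ^ 4 := by linarith
    have hcop' : IsCoprime M' N := hcop.of_mul_left_right
    obtain ⟨r, s, hrs, hp2⟩ := fourth_of_mul' hp hcop' hprod'
    rcases hrs with ⟨h1, h2⟩ | ⟨h1, h2⟩
    · refine ⟨r, s, ?_, ?_, hp2⟩
      · rw [h1, h2] at hcop'
        exact ((IsCoprime.pow_iff (by norm_num) (by norm_num)).1 hcop').symm
      · rw [h1, h2, hp2] at hsum
        linarith
    · exfalso
      have : 0 ≤ s ^ 4 := by positivity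
      linarith
  rcases hpar with hpar | hpar
  · exact main M N hMpos hNpos hsum hprod hcop hpar
  · exact main N M hNpos hMpos (by rw [add_comm]; exact hsum) (by rw [mul_comm]; exact hprod) hcop.symm hpar

/-- first half of the descent -/
lemma half1 {a b c : ℤ} (hb : b ≠ 0) (hab : IsCoprime a b)
    (h : c ^ 2 = a ^ 4 - 4 * a ^ 2 * b ^ 2 + 2 * b ^ 4) :
    ∃ p q a' : ℤ, p ≠ 0 ∧ IsCoprime p q ∧ q % 2 = 1 ∧
      a' ^ 2 = q ^ 4 + 8 * p ^ 2 * q ^ 2 + 8 * p ^ 4 ∧ b ^ 2 = 4 * (p ^ 2 * q ^ 2) := by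
  -- a is odd
  have ha : a % 2 = 1 := by
    by_contra hne
    have h0 : a % 2 = 0 := by omega
    obtain ⟨k, hk⟩ : ∃ k, a = 2 * k := ⟨a / 2, by omega⟩
    have hbodd : b % 2 = 1 := by
      by_contra hb2
      have h2a : (2 : ℤ) ∣ a := by omega
      have h2b : (2 : ℤ) ∣ b := by omega
      have := hab.isUnit_of_dvd' h2a h2b
      exact Int.prime_two.not_isUnit this
    have hb4 := odd_four hbodd
    have h1 : c ^ 2 = 8 * (2 * k ^ 4 - 2 * k ^ 2 * b ^ 2) + 2 * b ^ 4 := by rw [h, hk]; ring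
    have := sq_mod_eight c
    omega
  have ha2 := odd_sq ha
  have ha4 := odd_four ha
  have hbe : b % 2 = 0 := by
    by_contra hne
    have hb1 : b % 2 = 1 := by omega
    have hb2 := odd_sq hb1
    have hb4 := odd_four hb1
    have hab2 : (a ^ 2 * b ^ 2) % 8 = 1 := by rw [Int.mul_emod, ha2, hb2]; rfl
    have := sq_mod_eight c
    have h1 : c ^ 2 = a ^ 4 - 4 * (a ^ 2 * b ^ 2) + 2 * b ^ 4 := by rw [h]; ring
    omega
  obtain ⟨b', hb'⟩ : ∃ b', b = 2 * b' := ⟨b / 2, by omega⟩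
  have hb'0 : b' ≠ 0 := by rintro rfl; simp at hb'; exact hb hb'
  have h1 : c ^ 2 = (a ^ 2 - 8 * b' ^ 2) ^ 2 - 32 * b' ^ 4 := by rw [h, hb']; ring
  have hc : c % 2 = 1 := by
    by_contra hne
    obtain ⟨k, hk⟩ : ∃ k, c = 2 * k := ⟨c / 2, by omega⟩
    have h2 : a ^ 4 = 2 * (2 * k ^ 2 + 8 * a ^ 2 * b' ^ 2 - 16 * b' ^ 4) := by
      have : (2 * k) ^ 2 = (a ^ 2 - 8 * b' ^ 2) ^ 2 - 32 * b' ^ 4 := by rw [← hk]; exact h1
      linarith
    omega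
  obtain ⟨k, hk⟩ : ∃ k, c = 2 * k + 1 := ⟨c / 2, by omega⟩
  obtain ⟨j, hj⟩ : ∃ j, a ^ 2 = 2 * j + 1 := ⟨a ^ 2 / 2, by omega⟩
  obtain ⟨m, hm⟩ : ∃ m, 2 * m = a ^ 2 - 8 * b' ^ 2 - c := ⟨j - k - 4 * b' ^ 2, by rw [hj, hk]; ring⟩
  obtain ⟨n, hn⟩ : ∃ n, 2 * n = a ^ 2 - 8 * b' ^ 2 + c := ⟨j + k + 1 - 4 * b' ^ 2, by rw [hj, hk]; ring⟩
  have hsum : m + n = a ^ 2 - 8 * b' ^ 2 := by linarith
  have hprod : m * n = 8 * b' ^ 4 := by
    have : (2 * m) * (2 * n) = 4 * (8 * b' ^ 4) := by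
      rw [hm, hn]
      have : (a ^ 2 - 8 * b' ^ 2 - c) * (a ^ 2 - 8 * b' ^ 2 + c) = (a ^ 2 - 8 * b' ^ 2) ^ 2 - c ^ 2 := by ring
      rw [this, h1]; ring
    linarith
  have hcop : IsCoprime m n := by
    rw [Int.isCoprime_iff_gcd_eq_one]
    by_contra hg
    obtain ⟨l, hl, hld⟩ := Nat.exists_prime_and_dvd hg
    have hlM : (l : ℤ) ∣ m := (Int.natCast_dvd_natCast.2 hld).trans (Int.gcd_dvd_left ..)
    have hlN : (l : ℤ) ∣ n := (Int.natCast_dvd_natCast.2 hld).trans (Int.gcd_dvd_right ..)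
    have hlp : Prime (l : ℤ) := Nat.prime_iff_prime_int.1 hl
    have h1 : (l : ℤ) ∣ a ^ 2 - 8 * b' ^ 2 := hsum ▸ dvd_add hlM hlN
    have h2 : (l : ℤ) ∣ 8 * b' ^ 4 := hprod ▸ (hlM.mul_right n)
    rcases hlp.dvd_or_dvd h2 with h3 | h3
    · have h3' : (l : ℤ) ∣ 2 ^ 3 := by norm_num; exact h3
      have h4 := hlp.dvd_of_dvd_pow h3'
      have : l = 2 := (Nat.prime_dvd_prime_iff_eq hl Nat.prime_two).1 (by exact_mod_cast h4)
      subst this
      have : (2 : ℤ) ∣ a ^ 2 - 8 * b' ^ 2 := by exact_mod_cast h1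
      omega
    · have h4 : (l : ℤ) ∣ b' := hlp.dvd_of_dvd_pow h3
      have h5 : (l : ℤ) ∣ a ^ 2 := by
        have : (l : ℤ) ∣ 8 * b' ^ 2 := (dvd_pow h4 (by norm_num)).mul_left 8
        exact (dvd_sub_left this).1 h1
      have h6 : (l : ℤ) ∣ a := hlp.dvd_of_dvd_pow h5
      have h7 := hab.isUnit_of_dvd' h6 (hb' ▸ h4.mul_left 2)
      exact hlp.not_isUnit h7
  have hpar : m % 2 = 0 ∨ n % 2 = 0 := by
    by_contra hne
    push Not at hne
    have h1 : m % 2 = 1 := by omega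
    have h2 : n % 2 = 1 := by omega
    have h3 : (m * n) % 2 = 1 := by rw [Int.mul_emod, h1, h2]; rfl
    rw [hprod] at h3
    omega
  have main : ∀ m n : ℤ, m + n = a ^ 2 - 8 * b' ^ 2 → m * n = 8 * b' ^ 4 → IsCoprime m n →
      m % 2 = 0 →
      ∃ p q a' : ℤ, p ≠ 0 ∧ IsCoprime p q ∧ q % 2 = 1 ∧
      a' ^ 2 = q ^ 4 + 8 * p ^ 2 * q ^ 2 + 8 * p ^ 4 ∧ b ^ 2 = 4 * (p ^ 2 * q ^ 2) := by
    intro m n hsum hprod hcop hpar
    have hn2 : IsCoprime (8 : ℤ) n := by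
      have h2n : IsCoprime (2 : ℤ) n := by
        obtain ⟨m', hm'⟩ : ∃ m', m = 2 * m' := ⟨m / 2, by omega⟩
        rw [hm'] at hcop
        exact hcop.of_mul_left_left
      have := h2n.pow_left (m := 3)
      norm_num at this
      exact this
    have h8 : (8 : ℤ) ∣ m := by
      have : (8 : ℤ) ∣ m * n := ⟨b' ^ 4, hprod⟩
      exact hn2.dvd_of_dvd_mul_right this
    obtain ⟨m', hm'⟩ := h8
    subst hm'
    have hprod' : m' * n = b' ^ 4 := by linarith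
    have hcop' : IsCoprime m' n := hcop.of_mul_left_right
    obtain ⟨p, q, hpq, hb2⟩ := fourth_of_mul' hb'0 hcop' hprod'
    have hnodd : n % 2 = 1 := by
      by_contra hne
      have h2 : (2 : ℤ) ∣ n := by omega
      have h28 : (2 : ℤ) ∣ 8 := by norm_num
      exact Int.prime_two.not_isUnit (hn2.isUnit_of_dvd' h28 h2)
    have hqodd : q % 2 = 1 := by
      by_contra hne
      obtain ⟨k, hk⟩ : ∃ k, q = 2 * k := ⟨q / 2, by omega⟩
      have : q ^ 4 = 2 * (8 * k ^ 4) := by rw [hk]; ring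
      rcases hpq with ⟨_, h2⟩ | ⟨_, h2⟩ <;> omega
    have hp0 : p ≠ 0 := by
      rintro rfl
      have : b' ^ 2 = 0 := by rw [hb2]; ring
      exact hb'0 (by simpa using this)
    rcases hpq with ⟨h1, h2⟩ | ⟨h1, h2⟩
    · refine ⟨p, q, a, hp0, ?_, hqodd, ?_, ?_⟩
      · rw [h1, h2] at hcop'
        exact (IsCoprime.pow_iff (by norm_num) (by norm_num)).1 hcop'
      · rw [h1, h2] at hsum
        have : a ^ 2 = 8 * p ^ 4 + q ^ 4 + 8 * b' ^ 2 := by linarith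
        rw [this, hb2]; ring
      · rw [hb', ← hb2]; ring
    · exfalso
      rw [h1, h2] at hsum
      have h3 : a ^ 2 = 8 * (b' ^ 2 - p ^ 4) - q ^ 4 := by linarith
      have hq4 := odd_four hqodd
      omega
  rcases hpar with hpar | hpar
  · exact main m n hsum hprod hcop hpar
  · exact main n m (by rw [add_comm]; exact hsum) (by rw [mul_comm]; exact hprod) hcop.symm hpar

lemma descent_aux : ∀ n : ℕ, ∀ a b c : ℤ, b.natAbs = n → b ≠ 0 → IsCoprime a b →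
    c ^ 2 ≠ a ^ 4 - 4 * a ^ 2 * b ^ 2 + 2 * b ^ 4 := by
  intro n
  induction n using Nat.strong_induction_on with
  | _ n ih =>
    intro a b c hn hb hab h
    obtain ⟨p, q, a', hp, hpq, hq, ha', hb2⟩ := half1 hb hab h
    obtain ⟨r, s, hsr, hq2, hp2⟩ := half2 hp hpq hq ha'
    have hr : r ≠ 0 := by
      rintro rfl
      have : p ^ 2 = 0 := by rw [hp2]; ring
      exact hp (by simpa using this)
    have hs : s ≠ 0 := by
      rintro rfl
      have : p ^ 2 = 0 := by rw [hp2]; ring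
      exact hp (by simpa using this)
    have hq0 : q ≠ 0 := by rintro rfl; simp at hq
    have hlt : r.natAbs < n := by
      rw [← hn]
      apply Int.natAbs_lt_iff_sq_lt.2
      have h1 : 1 ≤ s ^ 2 := by
        have : 0 < s ^ 2 := by positivity
        linarith
      have h2 : 1 ≤ q ^ 2 := by
        have : 0 < q ^ 2 := by positivity
        linarith
      have h3 : 0 < r ^ 2 := by positivity
      rw [hb2, hp2]
      have h4 : r ^ 2 ≤ r ^ 2 * s ^ 2 := by nlinarith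
      have h5 : r ^ 2 * s ^ 2 ≤ r ^ 2 * s ^ 2 * q ^ 2 := by nlinarith
      nlinarith
    exact ih r.natAbs hlt s r q rfl hr hsr hq2

/-- The curve `w² = s⁴ - 4s² + 2` has no rational point. -/
theorem no_rat (s w : ℚ) : w ^ 2 ≠ s ^ 4 - 4 * s ^ 2 + 2 := by
  intro h
  have hden : (s.den : ℚ) ≠ 0 := by exact_mod_cast s.den_nz
  have hs : s = s.num / s.den := (Rat.num_div_den s).symm
  have h1 : (w * s.den ^ 2) ^ 2 = ((s.num ^ 4 - 4 * s.num ^ 2 * (s.den : ℤ) ^ 2 + 2 * (s.den : ℤ) ^ 4 : ℤ) : ℚ) := by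
    have key : ∀ x y : ℚ, y ≠ 0 → s = x / y → (w * y ^ 2) ^ 2 = x ^ 4 - 4 * x ^ 2 * y ^ 2 + 2 * y ^ 4 := by
      intro x y hy hxy
      rw [mul_pow, h, hxy]
      field_simp
    push_cast
    exact key _ _ hden hs
  have h2 : IsSquare ((s.num ^ 4 - 4 * s.num ^ 2 * (s.den : ℤ) ^ 2 + 2 * (s.den : ℤ) ^ 4 : ℤ)) := by
    rw [← Rat.isSquare_intCast_iff, ← h1]
    exact ⟨_, by rw [pow_two]⟩
  obtain ⟨c, hc⟩ := h2
  refine descent_aux _ s.num s.den c rfl (by exact_mod_cast s.den_nz) ?_ (by rw [pow_two, ← hc])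
  rw [Int.isCoprime_iff_gcd_eq_one]
  have := s.reduced
  simpa [Int.gcd, Nat.Coprime] using this

/-- `c² = A⁴ + 1` over the rationals forces `A = 0`. -/
theorem fermat_rat (A c : ℚ) (h : c ^ 2 = A ^ 4 + 1) : A = 0 := by
  have hden : (A.den : ℚ) ≠ 0 := by exact_mod_cast A.den_nz
  have hs : A = A.num / A.den := (Rat.num_div_den A).symm
  have h1 : (c * A.den ^ 2) ^ 2 = ((A.num ^ 4 + (A.den : ℤ) ^ 4 : ℤ) : ℚ) := by
    have key : ∀ x y : ℚ, y ≠ 0 → A = x / y → (c * y ^ 2) ^ 2 = x ^ 4 + y ^ 4 := by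
      intro x y hy hxy
      rw [mul_pow, h, hxy]
      field_simp
    push_cast
    exact key _ _ hden hs
  have h2 : IsSquare ((A.num ^ 4 + (A.den : ℤ) ^ 4 : ℤ)) := by
    rw [← Rat.isSquare_intCast_iff, ← h1]
    exact ⟨_, by rw [pow_two]⟩
  obtain ⟨d, hd⟩ := h2
  by_contra hA
  have hnum : A.num ≠ 0 := by simpa using hA
  exact not_fermat_42 hnum (by exact_mod_cast A.den_nz : (A.den : ℤ) ≠ 0) (c := d) (by rw [hd, pow_two])

end Pool.Agent.Helper644.Quad1
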