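import Mathlib
import Pool.Agent.Helper644.Quad1

set_option autoImplicit false

namespace Pool.Agent.Helper644.Quad2
open Pool.Agent.Helper644.Quad1

/-- rational form of the key lemma. -/
theorem key (a b c e D : ℚ) (hD : D < 0)
    (h1 : c ^ 2 + D * e ^ 2 =
      ((a ^ 2 + D * b ^ 2) ^ 2 + D * (2 * a * b) ^ 2) ^ 2
        + D * (2 * (a ^ 2 + D * b ^ 2) * (2 * a * b)) ^ 2 + 1)
    (h2 : c * e = ((a ^ 2 + D * b ^ 2) ^ 2 + D * (2 * a * b) ^ 2) *
      (2 * (a ^ 2 + D * b ^ 2) * (2 * a * b))) :
    a = 0 ∧ b = 0 := by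
  obtain ⟨A, hA⟩ : ∃ A, A = a ^ 2 + D * b ^ 2 := ⟨_, rfl⟩
  obtain ⟨B, hB⟩ : ∃ B, B = 2 * a * b := ⟨_, rfl⟩
  rw [← hA, ← hB] at h1 h2
  by_cases hB0 : B = 0
  · rw [hB0] at h1 h2
    have hce : c * e = 0 := by rw [h2]; ring
    have he : e = 0 := by
      by_contra he
      have hc : c = 0 := by
        rcases mul_eq_zero.1 hce with h | h
        · exact h
        · exact absurd h he
      rw [hc] at h1
      have h3 : 0 < e ^ 2 := by positivity
      have h4 : D * e ^ 2 < 0 := mul_neg_of_neg_of_pos hD h3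
      have h5 : 0 ≤ A ^ 4 := by positivity
      nlinarith
    rw [he] at h1
    have hA0 : A = 0 := fermat_rat A c (by linear_combination h1)
    have hab : a = 0 ∨ b = 0 := by
      rw [hB0] at hB
      have : a * b = 0 := by linarith
      exact mul_eq_zero.1 this
    rw [hA0] at hA
    rcases hab with h | h
    · subst h
      have : D * b ^ 2 = 0 := by linarith
      rcases mul_eq_zero.1 this with h | h
      · exact absurd h hD.ne
      · exact ⟨rfl, by simpa using h⟩
    · subst h
      have : a ^ 2 = 0 := by linarith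
      exact ⟨by simpa using this, rfl⟩
  · exfalso
    obtain ⟨P, hP⟩ : ∃ P, P = A ^ 2 + D * B ^ 2 := ⟨_, rfl⟩
    obtain ⟨Q, hQ⟩ : ∃ Q, Q = 2 * A * B := ⟨_, rfl⟩
    rw [← hP, ← hQ] at h1 h2
    obtain ⟨β, hβ⟩ : ∃ β, β = (e - Q) / B := ⟨_, rfl⟩
    obtain ⟨α, hα⟩ : ∃ α, α = c - P - β * A := ⟨_, rfl⟩
    have hc : c = P + β * A + α := by rw [hα]; ring
    have he : e = Q + β * B := by rw [hβ]; field_simp; ring
    obtain ⟨t, ht⟩ : ∃ t, t = 2 * A := ⟨_, rfl⟩
    obtain ⟨n, hn⟩ : ∃ n, n = A ^ 2 - D * B ^ 2 := ⟨_, rfl⟩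
    have hnpos : 0 < n := by
      have h3 : 0 < B ^ 2 := by positivity
      have h4 : D * B ^ 2 < 0 := mul_neg_of_neg_of_pos hD h3
      have h5 : 0 ≤ A ^ 2 := by positivity
      rw [hn]; linarith
    have hX : 2 * β * (t ^ 2 - n) + (β ^ 2 + 2 * α) * t + 2 * α * β = 0 := by
      have : B * (2 * β * (t ^ 2 - n) + (β ^ 2 + 2 * α) * t + 2 * α * β) = 0 := by
        rw [hc, he] at h2
        rw [ht, hn]
        rw [hP, hQ] at h2
        linear_combination 2 * h2
      rcases mul_eq_zero.1 this with h | h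
      · exact absurd h hB0
      · exact h
    have hc0 : -2 * β * t * n - (β ^ 2 + 2 * α) * n + α ^ 2 - 1 = 0 := by
      rw [hc, he] at h1
      rw [ht, hn] at hX ⊢
      rw [hP, hQ] at h1
      linear_combination h1 - A * hX
    by_cases hβ0 : β = 0
    · rw [hβ0] at hX hc0
      have hα0 : α ≠ 0 := by
        rintro rfl
        norm_num at hc0
      have ht0 : t = 0 := by
        have : α * t = 0 := by linear_combination (1 / 2) * hX
        rcases mul_eq_zero.1 this with h | h
        · exact absurd h hα0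
        · exact h
      have hA0 : A = 0 := by linarith
      have he0 : e = 0 := by rw [he, hQ, hA0, hβ0]; ring
      have hDa : D * b ^ 2 = - a ^ 2 := by linarith
      have hP4 : P = - (4 * a ^ 4) := by
        rw [hP, hA0, hB]
        linear_combination (4 * a ^ 2) * hDa
      rw [he0, hP4, hQ, hA0] at h1
      have h6 : (2 * a ^ 2) = 0 := fermat_rat (2 * a ^ 2) c (by linear_combination h1)
      have ha0 : a = 0 := by
        have : a ^ 2 = 0 := by linarith
        simpa using this
      exact hB0 (by rw [hB, ha0]; ring)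
    · -- the third point
      obtain ⟨κ, hκ⟩ : ∃ κ, κ = (α ^ 2 - 1) / n := ⟨_, rfl⟩
      have hκn : κ * n = α ^ 2 - 1 := by rw [hκ]; field_simp
      have hκ2 : κ = 2 * β * t + β ^ 2 + 2 * α := by
        have : n * (κ - (2 * β * t + β ^ 2 + 2 * α)) = 0 := by linear_combination hc0 + hκn
        rcases mul_eq_zero.1 this with h | h
        · exact absurd h hnpos.ne'
        · linarith
      have hκt : κ * t = 2 * β * n - 2 * α * β := by
        rw [hκ2]; linear_combination hX
      obtain ⟨X, hX3⟩ : ∃ X, X = - κ / (2 * β) := ⟨_, rfl⟩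
      have hXβ : 2 * β * X = - κ := by rw [hX3]; field_simp
      have hy : (X ^ 2 + β * X + α) ^ 2 = X ^ 4 + 1 := by
        have : (X ^ 2 + β * X + α) ^ 2 - (X ^ 4 + 1) = (X ^ 2 - t * X + n) * (2 * β * X + κ) := by
          linear_combination (-(X ^ 2)) * hκ2 + X * hκt - hκn
        have h0 : 2 * β * X + κ = 0 := by linarith
        rw [h0, mul_zero] at this
        linarith
      have hX0 : X = 0 := fermat_rat X _ hy
      have hκ0 : κ = 0 := by rw [hX0] at hXβ; linarith
      rw [hκ0] at hκn hκt hκ2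
      have hnα : n = α := by
        have : β * (n - α) = 0 := by linarith
        rcases mul_eq_zero.1 this with h | h
        · exact absurd h hβ0
        · linarith
      have hn1 : n = 1 := by
        have : (n - 1) * (n + 1) = 0 := by rw [hnα]; linarith
        rcases mul_eq_zero.1 this with h | h
        · linarith
        · linarith
      have hα1 : α = 1 := by linarith
      have hN : a ^ 2 - D * b ^ 2 = 1 := by
        have h3 : (a ^ 2 - D * b ^ 2 - 1) * (a ^ 2 - D * b ^ 2 + 1) = 0 := by
          rw [hn, hA, hB] at hn1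
          linear_combination hn1
        have h4 : 0 ≤ a ^ 2 := by positivity
        have h5 : D * b ^ 2 ≤ 0 := mul_nonpos_of_nonpos_of_nonneg hD.le (by positivity)
        rcases mul_eq_zero.1 h3 with h | h
        · linarith
        · linarith
      have ht2 : t = (2 * a) ^ 2 - 2 := by
        rw [ht, hA]; linear_combination (-2) * hN
      refine no_rat (2 * a) (β + t) ?_
      rw [hα1] at hκ2
      have : (β + t) ^ 2 = t ^ 2 - 2 := by linear_combination - hκ2
      rw [this, ht2]; ring

end Pool.Agent.Helper644.Quad2
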