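import Mathlib
import Pool.Agent.Helper644.Quad2

set_option autoImplicit false

namespace Pool.Agent.Helper644.Quad3
open Pool.Agent.Helper644.Quad2

/-- a quadratic field is `ℚ(δ)` with `δ² ∈ ℚ`. -/
lemma exists_delta (K : Type*) [Field K] [Algebra ℚ K] (hK : Module.finrank ℚ K = 2) :
    ∃ (δ : K) (D : ℚ), δ ^ 2 = algebraMap ℚ K D ∧
      ∀ x : K, ∃ a b : ℚ, x = algebraMap ℚ K a + algebraMap ℚ K b * δ := by
  haveI : CharZero K := algebraRat.charZero K
  have hfin : FiniteDimensional ℚ K := FiniteDimensional.of_finrank_pos (by rw [hK]; norm_num)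
  -- an element outside ℚ
  obtain ⟨θ, hθ⟩ : ∃ θ : K, ∀ a : ℚ, algebraMap ℚ K a ≠ θ := by
    by_contra hcon
    push Not at hcon
    have : Module.finrank ℚ K = 1 := by
      rw [finrank_eq_one_iff_of_nonzero' (1 : K) one_ne_zero]
      intro w
      obtain ⟨a, ha⟩ := hcon w
      exact ⟨a, by rw [← ha, Algebra.smul_def, mul_one]⟩
    omega
  have hli : LinearIndependent ℚ ![(1 : K), θ] := by
    rw [LinearIndependent.pair_iff]
    intro s t hst
    have ht : t = 0 := by
      by_contra ht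
      apply hθ (-s / t)
      rw [Algebra.smul_def, Algebra.smul_def, mul_one] at hst
      rw [map_div₀, map_neg]
      have ht' : algebraMap ℚ K t ≠ 0 := (map_ne_zero _).2 ht
      field_simp
      linear_combination -hst
    subst ht
    simpa using hst
  have hspan : Submodule.span ℚ (Set.range ![(1 : K), θ]) = ⊤ :=
    hli.span_eq_top_of_card_eq_finrank (by simp [hK])
  have hrep : ∀ x : K, ∃ a b : ℚ, x = algebraMap ℚ K a + algebraMap ℚ K b * θ := by
    intro x
    have hx : x ∈ Submodule.span ℚ (Set.range ![(1 : K), θ]) := by rw [hspan]; trivial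
    rw [show Set.range ![(1 : K), θ] = {1, θ} by simp [Set.pair_comm]] at hx
    rw [Submodule.mem_span_pair] at hx
    obtain ⟨a, b, hab⟩ := hx
    exact ⟨a, b, by rw [← hab, Algebra.smul_def, Algebra.smul_def, mul_one]⟩
  obtain ⟨q, p, hpq⟩ := hrep (θ ^ 2)
  refine ⟨2 * θ - algebraMap ℚ K p, p ^ 2 + 4 * q, ?_, ?_⟩
  · rw [map_add, map_mul, map_pow]
    have h4 : algebraMap ℚ K 4 = 4 := by simp
    rw [h4]
    linear_combination 4 * hpq
  · intro x
    obtain ⟨a, b, hab⟩ := hrep x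
    refine ⟨a + b * p / 2, b / 2, ?_⟩
    rw [hab]
    simp only [map_add, map_div₀, map_mul]
    have h2 : algebraMap ℚ K 2 = 2 := by simp
    rw [h2]
    have h20 : (2 : K) ≠ 0 := two_ne_zero
    field_simp
    ring

/-- no real embedding -/
lemma D_neg (K : Type*) [Field K] [Algebra ℚ K] (hK : Module.finrank ℚ K = 2)
    (δ : K) (D : ℚ) (hδ : δ ^ 2 = algebraMap ℚ K D)
    (hrep : ∀ x : K, ∃ a b : ℚ, x = algebraMap ℚ K a + algebraMap ℚ K b * δ)
    (z w : K) (hzw : w ^ 2 = - (z ^ 6 + 1)) : D < 0 := by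
  have hfin : FiniteDimensional ℚ K := FiniteDimensional.of_finrank_pos (by rw [hK]; norm_num)
  by_contra hD
  push Not at hD
  let φ : K →ₐ[ℚ] ℂ := IsAlgClosed.lift
  have hδ' : (φ δ) ^ 2 = (D : ℂ) := by
    rw [← map_pow, hδ, AlgHom.commutes]; simp
  have him : (φ δ).im = 0 := by
    have h1 := congrArg Complex.re hδ'
    have h2 := congrArg Complex.im hδ'
    simp only [pow_two, Complex.mul_re, Complex.mul_im, Complex.ratCast_re, Complex.ratCast_im] at h1 h2
    have hD' : (0 : ℝ) ≤ D := by exact_mod_cast hD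
    have h3 : (φ δ).re * (φ δ).im = 0 := by linarith
    rcases mul_eq_zero.1 h3 with h | h
    · rw [h] at h1
      nlinarith
    · exact h
  have hreal : ∀ x : K, ∃ r : ℝ, φ x = (r : ℂ) := by
    intro x
    obtain ⟨a, b, hab⟩ := hrep x
    refine ⟨a + b * (φ δ).re, ?_⟩
    rw [hab, map_add, map_mul, AlgHom.commutes, AlgHom.commutes]
    apply Complex.ext
    · simp
    · simp [him]
  obtain ⟨r, hr⟩ := hreal z
  obtain ⟨s, hs⟩ := hreal w
  have h := congrArg φ hzw
  rw [map_pow, map_neg, map_add, map_pow, map_one, hr, hs] at h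
  have h' : s ^ 2 = - (r ^ 6 + 1) := by exact_mod_cast h
  have : 0 ≤ s ^ 2 := sq_nonneg s
  have : 0 ≤ r ^ 6 := by positivity
  linarith

/-- The main statement about quadratic fields. -/
theorem main (K : Type*) [Field K] [Algebra ℚ K] (hK : Module.finrank ℚ K = 2)
    (x y z w : K) (hxy : y ^ 2 = x ^ 8 + 1) (hzw : w ^ 2 = - (z ^ 6 + 1)) : x = 0 := by
  obtain ⟨δ, D, hδ, hrep⟩ := exists_delta K hK
  have hD := D_neg K hK δ D hδ hrep z w hzw
  have hind : ∀ u v : ℚ, algebraMap ℚ K u + algebraMap ℚ K v * δ = 0 → u = 0 ∧ v = 0 := by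
    intro u v huv
    have h1 : algebraMap ℚ K (u ^ 2) = algebraMap ℚ K (v ^ 2 * D) := by
      rw [map_pow, map_mul, map_pow, ← hδ]
      linear_combination (algebraMap ℚ K u - algebraMap ℚ K v * δ) * huv
    have h2 : u ^ 2 = v ^ 2 * D := (algebraMap ℚ K).injective h1
    have hv : v = 0 := by
      by_contra hv
      have : 0 < v ^ 2 := by positivity
      nlinarith [sq_nonneg u]
    subst hv
    refine ⟨?_, rfl⟩
    simpa using h2
  obtain ⟨a, b, hab⟩ := hrep x
  obtain ⟨c, e, hce⟩ := hrep y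
  have hmain := hind
    (c ^ 2 + D * e ^ 2 - (((a ^ 2 + D * b ^ 2) ^ 2 + D * (2 * a * b) ^ 2) ^ 2
        + D * (2 * (a ^ 2 + D * b ^ 2) * (2 * a * b)) ^ 2 + 1))
    (2 * (c * e - ((a ^ 2 + D * b ^ 2) ^ 2 + D * (2 * a * b) ^ 2) *
      (2 * (a ^ 2 + D * b ^ 2) * (2 * a * b)))) (by
      have h2 : algebraMap ℚ K 2 = 2 := by simp
      simp only [map_sub, map_add, map_mul, map_pow, map_one, h2]
      rw [← hδ]
      rw [hab, hce] at hxy
      linear_combination hxy)
  obtain ⟨ha, hb⟩ := key a b c e D hD (by linarith [hmain.1]) (by linarith [hmain.2])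
  rw [hab, ha, hb]; simp

end Pool.Agent.Helper644.Quad3
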