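import Mathlib

set_option autoImplicit false

namespace Pool.Agent.Helper644.ToricCount

open Finset

/-- The exponents `(2a + kq + b, p + 2q)` with `a ≤ p ≤ s`, `b ≤ q ≤ t`. -/
def E (k s t : ℕ) : Finset (ℕ × ℕ) :=
  (((range (s + 1)) ×ˢ (range (s + 1))) ×ˢ ((range (t + 1)) ×ˢ (range (t + 1)))).filter
    (fun x => x.1.2 ≤ x.1.1 ∧ x.2.2 ≤ x.2.1) |>.image
    (fun x => (2 * x.1.2 + k * x.2.1 + x.2.2, x.1.1 + 2 * x.2.1))

lemma mem_E {k s t U V : ℕ} : (U, V) ∈ E k s t ↔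
    ∃ p a q b, a ≤ p ∧ p ≤ s ∧ b ≤ q ∧ q ≤ t ∧ U = 2 * a + k * q + b ∧ V = p + 2 * q := by
  unfold E
  simp only [mem_image, mem_filter, mem_product, mem_range, Prod.exists, Prod.mk.injEq]
  constructor
  · rintro ⟨p, a, q, b, ⟨⟨⟨h1, h2⟩, h3, h4⟩, h5, h6⟩, h7, h8⟩
    exact ⟨p, a, q, b, h5, by omega, h6, by omega, h7.symm, h8.symm⟩
  · rintro ⟨p, a, q, b, h1, h2, h3, h4, h5, h6⟩
    exact ⟨p, a, q, b, ⟨⟨⟨by omega, by omega⟩, by omega, by omega⟩, h1, h3⟩, h5.symm, h6.symm⟩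

lemma mem_E' {k s t U V : ℕ} : (U, V) ∈ E k s t ↔
    ∃ q, q ≤ t ∧ 2 * q ≤ V ∧ V - 2 * q ≤ s ∧ k * q ≤ U ∧ U ≤ k * q + q + 2 * (V - 2 * q) ∧
      (q = 0 → U % 2 = 0) := by
  rw [mem_E]
  constructor
  · rintro ⟨p, a, q, b, h1, h2, h3, h4, h5, h6⟩
    refine ⟨q, h4, by omega, by omega, by omega, by omega, ?_⟩
    rintro rfl
    simp at h5
    omega
  · rintro ⟨q, h1, h2, h3, h4, h5, h6⟩
    obtain ⟨W, hW⟩ : ∃ W, U = k * q + W := ⟨U - k * q, by omega⟩
    obtain ⟨p, hp⟩ : ∃ p, V = p + 2 * q := ⟨V - 2 * q, by omega⟩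
    subst hp hW
    by_cases hW2 : W / 2 ≤ p
    · refine ⟨p, W / 2, q, W % 2, hW2, by omega, ?_, h1, by omega, rfl⟩
      rcases Nat.eq_zero_or_pos q with h | h
      · subst h
        have := h6 rfl
        simp at this
        omega
      · omega
    · exact ⟨p, p, q, W - 2 * p, le_rfl, by omega, by omega, h1, by omega, rfl⟩

/-- the three sets of new points when `s` grows -/
def N1 (k s : ℕ) : Finset (ℕ × ℕ) := (range ((k + 1) / 2)).image (fun r => (2 * r, s + 1))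
def N2 (k s t : ℕ) : Finset (ℕ × ℕ) :=
  (Ico 1 t ×ˢ range k).image (fun x => (k * x.1 + x.2, s + 1 + 2 * x.1))
def N3 (k s t : ℕ) : Finset (ℕ × ℕ) :=
  (range (t + 2 * s + 3)).image (fun r => (k * t + r, s + 1 + 2 * t))

lemma card_N1 (k s : ℕ) : (N1 k s).card = (k + 1) / 2 := by
  unfold N1
  rw [card_image_of_injective, card_range]
  intro a b h
  simp only [Prod.mk.injEq] at h
  omega

lemma card_N2 (k s t : ℕ) : (N2 k s t).card = (t - 1) * k := by
  unfold N2
  rw [card_image_of_injective, card_product, Nat.card_Ico, card_range]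
  rintro ⟨a, b⟩ ⟨c, d⟩ h
  simp only [Prod.mk.injEq] at h
  obtain ⟨h1, h2⟩ := h
  have : a = c := by omega
  subst this
  simp at h1
  rw [h1]

lemma card_N3 (k s t : ℕ) : (N3 k s t).card = t + 2 * s + 3 := by
  unfold N3
  rw [card_image_of_injective, card_range]
  intro a b h
  simp only [Prod.mk.injEq] at h
  omega

lemma E_succ_s {k s t : ℕ} (hk : 4 ≤ k) (hs : k ≤ s) (ht : 1 ≤ t) :
    E k (s + 1) t = E k s t ∪ (N1 k s ∪ (N2 k s t ∪ N3 k s t)) := by
  ext ⟨U, V⟩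
  rw [mem_union, mem_union, mem_union, mem_E', mem_E']
  unfold N1 N2 N3
  simp only [mem_image, mem_range, mem_product, mem_Ico, Prod.exists, Prod.mk.injEq]
  constructor
  · rintro ⟨q, h1, h2, h3, h4, h5, h6⟩
    by_cases hp : V - 2 * q ≤ s
    · left; exact ⟨q, h1, h2, hp, h4, h5, h6⟩
    · have hV : V = s + 1 + 2 * q := by omega
      subst hV
      rcases Nat.lt_or_ge q t with hqt | hqt
      · rcases Nat.eq_zero_or_pos q with hq | hq
        · subst hq
          have hU := h6 rfl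
          by_cases hUk : U < k
          · right; left
            exact ⟨U / 2, by omega, by omega, by omega⟩
          · left
            refine ⟨1, ht, by omega, by omega, by omega, by omega, by omega⟩
        · by_cases hUk : U < k * q + k
          · right; right; left
            exact ⟨q, U - k * q, ⟨⟨hq, hqt⟩, by omega⟩, by omega, rfl⟩
          · left
            have hmul : k * (q + 1) = k * q + k := by ring
            refine ⟨q + 1, by omega, by omega, by omega, by omega, by omega, by omega⟩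
      · have hqt' : q = t := by omega
        subst hqt'
        right; right; right
        exact ⟨U - k * q, by omega, by omega, rfl⟩
  · rintro (⟨q, h1, h2, h3, h4, h5, h6⟩ | ⟨r, hr, h1, h2⟩ | ⟨q, r, ⟨⟨h1, h2⟩, h3⟩, h4, h5⟩ | ⟨r, hr, h1, h2⟩)
    · exact ⟨q, h1, h2, by omega, h4, h5, h6⟩
    · refine ⟨0, by omega, by omega, by omega, by omega, by omega, by omega⟩
    · refine ⟨q, by omega, by omega, by omega, by omega, by omega, by omega⟩
    · refine ⟨t, by omega, by omega, by omega, by omega, by omega, by omega⟩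

lemma disj_s {k s t : ℕ} (hk : 4 ≤ k) :
    Disjoint (E k s t) (N1 k s ∪ (N2 k s t ∪ N3 k s t)) := by
  rw [Finset.disjoint_left]
  rintro ⟨U, V⟩ hE hN
  rw [mem_E'] at hE
  obtain ⟨q, h1, h2, h3, h4, h5, h6⟩ := hE
  unfold N1 N2 N3 at hN
  simp only [mem_union, mem_image, mem_range, mem_product, mem_Ico, Prod.exists, Prod.mk.injEq] at hN
  rcases hN with (⟨r, hr, g1, g2⟩ | ⟨q', r, ⟨⟨g1, g2⟩, g3⟩, g4, g5⟩ | ⟨r, hr, g1, g2⟩)
  · have hq : 1 ≤ q := by omega
    have : k * 1 ≤ k * q := Nat.mul_le_mul_left k hq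
    omega
  · have hq : q' + 1 ≤ q := by omega
    have : k * (q' + 1) ≤ k * q := Nat.mul_le_mul_left k hq
    have hmul : k * (q' + 1) = k * q' + k := by ring
    omega
  · omega

lemma disj_N {k s t : ℕ} (ht : 1 ≤ t) :
    Disjoint (N1 k s) (N2 k s t ∪ N3 k s t) := by
  rw [Finset.disjoint_left]
  rintro ⟨U, V⟩ hE hN
  unfold N1 at hE
  unfold N2 N3 at hN
  simp only [mem_union, mem_image, mem_range, mem_product, mem_Ico, Prod.exists, Prod.mk.injEq] at hN hE
  obtain ⟨r', hr', e1, e2⟩ := hE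
  rcases hN with (⟨q', r, ⟨⟨g1, g2⟩, g3⟩, g4, g5⟩ | ⟨r, hr, g1, g2⟩) <;> omega

lemma disj_N' {k s t : ℕ} :
    Disjoint (N2 k s t) (N3 k s t) := by
  rw [Finset.disjoint_left]
  rintro ⟨U, V⟩ hE hN
  unfold N2 at hE
  unfold N3 at hN
  simp only [mem_image, mem_range, mem_product, mem_Ico, Prod.exists, Prod.mk.injEq] at hN hE
  obtain ⟨q', r, ⟨⟨g1, g2⟩, g3⟩, g4, g5⟩ := hE
  obtain ⟨r', hr', e1, e2⟩ := hN
  omega

lemma card_succ_s {k s t : ℕ} (hk : 4 ≤ k) (hs : k ≤ s) (ht : 1 ≤ t) :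
    (E k (s + 1) t).card = (E k s t).card + ((k + 1) / 2 + ((t - 1) * k + (t + 2 * s + 3))) := by
  rw [E_succ_s hk hs ht, card_union_of_disjoint (disj_s hk), card_union_of_disjoint (disj_N ht),
    card_union_of_disjoint disj_N', card_N1, card_N2, card_N3]

/-- the sets of new points when `t` grows -/
def M1 (k s t : ℕ) : Finset (ℕ × ℕ) :=
  (range (2 * s + t + 2)).image (fun r => (k * (t + 1) + r, s + 2 * (t + 1)))
def M2 (k s t : ℕ) : Finset (ℕ × ℕ) :=
  (range (2 * s + t)).image (fun r => (k * (t + 1) + r, s - 1 + 2 * (t + 1)))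
def M3 (k s t : ℕ) : Finset (ℕ × ℕ) :=
  (range (s - 1) ×ˢ range (k - 3)).image (fun x => (2 * x.1 + 5 + k * t + t + x.2, x.1 + 2 * (t + 1)))

lemma card_M1 (k s t : ℕ) : (M1 k s t).card = 2 * s + t + 2 := by
  unfold M1
  rw [card_image_of_injective, card_range]
  intro a b h
  simp only [Prod.mk.injEq] at h
  omega

lemma card_M2 (k s t : ℕ) : (M2 k s t).card = 2 * s + t := by
  unfold M2
  rw [card_image_of_injective, card_range]
  intro a b h
  simp only [Prod.mk.injEq] at h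
  omega

lemma card_M3 (k s t : ℕ) : (M3 k s t).card = (s - 1) * (k - 3) := by
  unfold M3
  rw [card_image_of_injective, card_product, card_range, card_range]
  rintro ⟨a, b⟩ ⟨c, d⟩ h
  simp only [Prod.mk.injEq] at h ⊢
  omega

lemma E_succ_t {k s t : ℕ} (hk : 4 ≤ k) (hs : 2 ≤ s) (ht : k ≤ t) :
    E k s (t + 1) = E k s t ∪ (M1 k s t ∪ (M2 k s t ∪ M3 k s t)) := by
  ext ⟨U, V⟩
  rw [mem_union, mem_union, mem_union, mem_E', mem_E']
  unfold M1 M2 M3
  simp only [mem_image, mem_range, mem_product, Prod.exists, Prod.mk.injEq]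
  have hmul : k * (t + 1) = k * t + k := by ring
  constructor
  · rintro ⟨q, h1, h2, h3, h4, h5, h6⟩
    by_cases hp : q ≤ t
    · left; exact ⟨q, hp, h2, h3, h4, h5, h6⟩
    · have hq : q = t + 1 := by omega
      subst hq
      obtain ⟨p, hV⟩ : ∃ p, V = p + 2 * (t + 1) := ⟨V - 2 * (t + 1), by omega⟩
      subst hV
      rcases Nat.lt_or_ge p (s - 1) with hps | hps
      · by_cases hU : U ≤ 2 * p + 4 + k * t + t
        · left
          exact ⟨t, le_rfl, by omega, by omega, by omega, by omega, by omega⟩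
        · right; right; right
          exact ⟨p, U - (2 * p + 5 + k * t + t), ⟨hps, by omega⟩, by omega, rfl⟩
      · rcases Nat.eq_or_lt_of_le hps with h | h
        · right; right; left
          exact ⟨U - k * (t + 1), by omega, by omega, by omega⟩
        · right; left
          exact ⟨U - k * (t + 1), by omega, by omega, by omega⟩
  · rintro (⟨q, h1, h2, h3, h4, h5, h6⟩ | ⟨r, hr, h1, h2⟩ | ⟨r, hr, h1, h2⟩ | ⟨p, r, ⟨h1, h2⟩, h4, h5⟩)
    · exact ⟨q, by omega, h2, by omega, h4, h5, h6⟩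
    · exact ⟨t + 1, by omega, by omega, by omega, by omega, by omega, by omega⟩
    · exact ⟨t + 1, by omega, by omega, by omega, by omega, by omega, by omega⟩
    · exact ⟨t + 1, by omega, by omega, by omega, by omega, by omega, by omega⟩

lemma disj_t {k s t : ℕ} (hk : 4 ≤ k) (hs : 2 ≤ s) :
    Disjoint (E k s t) (M1 k s t ∪ (M2 k s t ∪ M3 k s t)) := by
  rw [Finset.disjoint_left]
  rintro ⟨U, V⟩ hE hN
  rw [mem_E'] at hE
  obtain ⟨q, h1, h2, h3, h4, h5, h6⟩ := hE
  unfold M1 M2 M3 at hN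
  simp only [mem_union, mem_image, mem_range, mem_product, Prod.exists, Prod.mk.injEq] at hN
  rcases hN with (⟨r, hr, g1, g2⟩ | ⟨r, hr, g1, g2⟩ | ⟨p, r, ⟨g1, g2⟩, g4, g5⟩)
  · omega
  · omega
  · -- U ≤ 2V + (k-3) q
    obtain ⟨j, hj⟩ : ∃ j, k = j + 3 := ⟨k - 3, by omega⟩
    subst hj
    have e1 : (j + 3) * q = j * q + 3 * q := by ring
    have e2 : (j + 3) * t = j * t + 3 * t := by ring
    have : j * q ≤ j * t := Nat.mul_le_mul_left j h1
    omega

lemma disj_M {k s t : ℕ} (hs : 2 ≤ s) :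
    Disjoint (M1 k s t) (M2 k s t ∪ M3 k s t) := by
  rw [Finset.disjoint_left]
  rintro ⟨U, V⟩ hE hN
  unfold M1 at hE
  unfold M2 M3 at hN
  simp only [mem_union, mem_image, mem_range, mem_product, Prod.exists, Prod.mk.injEq] at hN hE
  obtain ⟨r', hr', e1, e2⟩ := hE
  rcases hN with (⟨r, hr, g1, g2⟩ | ⟨p, r, ⟨g1, g2⟩, g4, g5⟩) <;> omega

lemma disj_M' {k s t : ℕ} (hs : 2 ≤ s) :
    Disjoint (M2 k s t) (M3 k s t) := by
  rw [Finset.disjoint_left]
  rintro ⟨U, V⟩ hE hN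
  unfold M2 at hE
  unfold M3 at hN
  simp only [mem_image, mem_range, mem_product, Prod.exists, Prod.mk.injEq] at hN hE
  obtain ⟨r', hr', e1, e2⟩ := hE
  obtain ⟨p, r, ⟨g1, g2⟩, g4, g5⟩ := hN
  omega

lemma card_succ_t {k s t : ℕ} (hk : 4 ≤ k) (hs : 2 ≤ s) (ht : k ≤ t) :
    (E k s (t + 1)).card = (E k s t).card + ((2 * s + t + 2) + ((2 * s + t) + (s - 1) * (k - 3))) := by
  rw [E_succ_t hk hs ht, card_union_of_disjoint (disj_t hk hs), card_union_of_disjoint (disj_M hs),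
    card_union_of_disjoint (disj_M' hs), card_M1, card_M2, card_M3]

/-- The counting function is eventually the expected quadratic polynomial. -/
theorem card_E {k : ℕ} (hk : 4 ≤ k) : ∃ a b c : ℚ, ∀ s t : ℕ, k ≤ s → k ≤ t →
    ((E k s t).card : ℚ) = (s : ℚ) ^ 2 + ((k + 1 : ℕ) : ℚ) * s * t + (t : ℚ) ^ 2 + a * s + b * t + c := by
  obtain ⟨κ, hκ⟩ : ∃ κ : ℚ, κ = (((k + 1) / 2 : ℕ) : ℚ) := ⟨_, rfl⟩
  -- E(s+1,t) - E(s,t) = (k+1) t + 2 s + κ - k + 3
  have h1 : ∀ s t : ℕ, k ≤ s → k ≤ t → ((E k (s + 1) t).card : ℚ) =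
      (E k s t).card + ((k + 1) * t + 2 * s + κ - k + 3) := by
    intro s t hs ht
    rw [card_succ_s hk hs (by omega)]
    push_cast [Nat.cast_sub (show 1 ≤ t by omega)]
    rw [hκ]
    push_cast
    ring
  have h2 : ∀ s t : ℕ, k ≤ s → k ≤ t → ((E k s (t + 1)).card : ℚ) =
      (E k s t).card + ((k + 1) * s + 2 * t + 5 - k) := by
    intro s t hs ht
    rw [card_succ_t hk (by omega) ht]
    push_cast [Nat.cast_sub (show 1 ≤ s by omega), Nat.cast_sub (show 3 ≤ k by omega)]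
    ring
  refine ⟨κ - k + 2, 4 - k, (E k k k).card -
    ((k : ℚ) ^ 2 + ((k + 1 : ℕ) : ℚ) * k * k + (k : ℚ) ^ 2 + (κ - k + 2) * k + (4 - k) * k), ?_⟩
  intro s t hs ht
  induction s, hs using Nat.le_induction with
  | base =>
    induction t, ht using Nat.le_induction with
    | base => ring
    | succ t ht ih =>
      rw [h2 k t le_rfl ht, ih]
      push_cast
      ring
  | succ s hs ih =>
    rw [h1 s t hs ht, ih]
    push_cast
    ring

end Pool.Agent.Helper644.ToricCount
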