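import Mathlib
import Pool.Agent.Helper644.ToricCount

set_option autoImplicit false

namespace Pool.Agent.Helper644.ToricIdeal

open MvPolynomial Pool.Agent.Helper644.ToricCount

/-- exponent vector of the image of a monomial -/
noncomputable def F (k : ℕ) (d : Fin 3 ⊕ Fin 3 →₀ ℕ) : Fin 4 →₀ ℕ :=
  Finsupp.equivFunOnFinite.symm
    ![2 * d (Sum.inl 2) + k * d (Sum.inr 1) + (k + 1) * d (Sum.inr 2),
      d (Sum.inl 1) + d (Sum.inl 2) + 2 * d (Sum.inr 1) + 2 * d (Sum.inr 2),
      d (Sum.inl 0) + d (Sum.inl 1) + d (Sum.inl 2),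
      d (Sum.inr 0) + d (Sum.inr 1) + d (Sum.inr 2)]

/-- the exponent vectors of the images of the variables -/
noncomputable def e (k : ℕ) (i : Fin 3 ⊕ Fin 3) : Fin 4 →₀ ℕ := F k (Finsupp.single i 1)

lemma F_add (k : ℕ) (d d' : Fin 3 ⊕ Fin 3 →₀ ℕ) : F k (d + d') = F k d + F k d' := by
  ext i
  fin_cases i <;> simp [F] <;> ring

lemma F_zero (k : ℕ) : F k 0 = 0 := by
  ext i
  fin_cases i <;> simp [F]

/-- the monomial parametrisation -/
noncomputable def φ (k : ℕ) : MvPolynomial (Fin 3 ⊕ Fin 3) ℂ →ₐ[ℂ] MvPolynomial (Fin 4) ℂ :=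
  aeval (fun i => monomial (e k i) 1)

lemma φ_monomial (k : ℕ) (d : Fin 3 ⊕ Fin 3 →₀ ℕ) (c : ℂ) :
    φ k (monomial d c) = monomial (F k d) c := by
  have key : ∀ d : Fin 3 ⊕ Fin 3 →₀ ℕ, φ k (monomial d 1) = monomial (F k d) 1 := by
    intro d
    induction d using Finsupp.induction_linear with
    | zero => simp [F_zero]
    | add f g hf hg =>
      have : (monomial (f + g) (1 : ℂ)) = monomial f 1 * monomial g 1 := by
        rw [monomial_mul, one_mul]
      rw [this, map_mul, hf, hg, monomial_mul, one_mul, F_add]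
    | single i n =>
      induction n with
      | zero => simp [F_zero]
      | succ n ih =>
        have : (monomial (Finsupp.single i (n + 1)) (1 : ℂ)) =
            monomial (Finsupp.single i n) 1 * X i := by
          rw [X, monomial_mul, one_mul, ← Finsupp.single_add]
        rw [this, map_mul, ih, φ, aeval_X, monomial_mul, one_mul, e, ← F_add, ← Finsupp.single_add]
  have : (monomial d c : MvPolynomial (Fin 3 ⊕ Fin 3) ℂ) = c • monomial d 1 := by
    rw [smul_monomial, smul_eq_mul, mul_one]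
  rw [this, map_smul, key, smul_monomial, smul_eq_mul, mul_one]

/-- the weights -/
abbrev w : Fin 3 ⊕ Fin 3 → ℕ × ℕ :=
  Sum.elim (fun _ : Fin 3 => ((1, 0) : ℕ × ℕ)) (fun _ : Fin 3 => ((0, 1) : ℕ × ℕ))

abbrev w' : Fin 4 → ℕ × ℕ := ![(0, 0), (0, 0), (1, 0), (0, 1)]

lemma weight_w (d : Fin 3 ⊕ Fin 3 →₀ ℕ) : Finsupp.weight w d =
    (d (Sum.inl 0) + d (Sum.inl 1) + d (Sum.inl 2), d (Sum.inr 0) + d (Sum.inr 1) + d (Sum.inr 2)) := by
  rw [Finsupp.weight_apply, Finsupp.sum_fintype _ _ (by simp)]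
  simp only [Fintype.sum_sum_type, Fin.sum_univ_three, w, Sum.elim_inl, Sum.elim_inr]
  ext <;> simp

lemma weight_w' (d : Fin 4 →₀ ℕ) : Finsupp.weight w' d = (d 2, d 3) := by
  rw [Finsupp.weight_apply, Finsupp.sum_fintype _ _ (by simp)]
  simp only [Fin.sum_univ_four, w']
  ext <;> simp

lemma weight_F (k : ℕ) (d : Fin 3 ⊕ Fin 3 →₀ ℕ) : Finsupp.weight w' (F k d) = Finsupp.weight w d := by
  rw [weight_w, weight_w']
  simp [F]

lemma comp_monomial {σ : Type*} (v : σ → ℕ × ℕ) (m : ℕ × ℕ) (d : σ →₀ ℕ) (c : ℂ) :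
    weightedHomogeneousComponent v m (monomial d c) =
      if m = Finsupp.weight v d then monomial d c else 0 := by
  apply weightedHomogeneousComponent_of_mem
  rw [mem_weightedHomogeneousSubmodule]
  exact isWeightedHomogeneous_monomial v d c rfl

lemma φ_comp (k : ℕ) (m : ℕ × ℕ) (f : MvPolynomial (Fin 3 ⊕ Fin 3) ℂ) :
    φ k (weightedHomogeneousComponent w m f) = weightedHomogeneousComponent w' m (φ k f) := by
  induction f using MvPolynomial.induction_on' with
  | monomial d c =>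
    rw [comp_monomial, φ_monomial, comp_monomial, weight_F]
    split_ifs
    · exact φ_monomial k d c
    · simp
  | add p q hp hq => rw [map_add, map_add, map_add, map_add, hp, hq]

/-- the toric ideal -/
noncomputable def P (k : ℕ) : Ideal (MvPolynomial (Fin 3 ⊕ Fin 3) ℂ) := RingHom.ker (φ k)

lemma P_prime (k : ℕ) : (P k).IsPrime := RingHom.ker_isPrime _

lemma P_homog (k : ℕ) : ∀ f ∈ P k, ∀ d : ℕ × ℕ, weightedHomogeneousComponent w d f ∈ P k := by
  intro f hf d
  rw [P, RingHom.mem_ker] at hf ⊢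
  rw [φ_comp, hf, map_zero]

/-- the exponent vector with given first coordinates -/
noncomputable def g (s t : ℕ) (x : ℕ × ℕ) : Fin 4 →₀ ℕ :=
  Finsupp.equivFunOnFinite.symm ![x.1, x.2, s, t]

lemma g_inj (s t : ℕ) : Function.Injective (g s t) := by
  intro x y h
  have h0 := DFunLike.congr_fun h 0
  have h1 := DFunLike.congr_fun h 1
  simp [g] at h0 h1
  exact Prod.ext h0 h1

/-- the restriction of `φ` to the graded piece -/
noncomputable def L (k s t : ℕ) :
    ↥(weightedHomogeneousSubmodule ℂ w (s, t)) →ₗ[ℂ] MvPolynomial (Fin 4) ℂ :=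
  (φ k).toLinearMap.comp (weightedHomogeneousSubmodule ℂ w (s, t)).subtype

lemma ker_L (k s t : ℕ) : LinearMap.ker (L k s t) =
    Submodule.comap (weightedHomogeneousSubmodule ℂ w (s, t)).subtype ((P k).restrictScalars ℂ) := by
  ext x
  rw [LinearMap.mem_ker, Submodule.mem_comap, Submodule.restrictScalars_mem, P, RingHom.mem_ker]
  rfl

lemma exists_E {k s t : ℕ} {d : Fin 3 ⊕ Fin 3 →₀ ℕ} (hd : Finsupp.weight w d = (s, t)) :
    ∃ x ∈ E k s t, F k d = g s t x := by
  rw [weight_w, Prod.mk.injEq] at hd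
  obtain ⟨h1, h2⟩ := hd
  refine ⟨(2 * d (Sum.inl 2) + k * (d (Sum.inr 1) + d (Sum.inr 2)) + d (Sum.inr 2),
    (d (Sum.inl 1) + d (Sum.inl 2)) + 2 * (d (Sum.inr 1) + d (Sum.inr 2))), ?_, ?_⟩
  · rw [mem_E]
    exact ⟨d (Sum.inl 1) + d (Sum.inl 2), d (Sum.inl 2), d (Sum.inr 1) + d (Sum.inr 2), d (Sum.inr 2),
      by omega, by omega, by omega, by omega, rfl, rfl⟩
  · ext i
    fin_cases i
    · simp [F, g]; ring
    · simp [F, g]; ring
    · simp [F, g]; omega
    · simp [F, g]; omega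

lemma exists_d {k s t : ℕ} {x : ℕ × ℕ} (hx : x ∈ E k s t) :
    ∃ d : Fin 3 ⊕ Fin 3 →₀ ℕ, Finsupp.weight w d = (s, t) ∧ F k d = g s t x := by
  obtain ⟨U, V⟩ := x
  rw [mem_E] at hx
  obtain ⟨p, a, q, b, h1, h2, h3, h4, h5, h6⟩ := hx
  refine ⟨Finsupp.equivFunOnFinite.symm (Sum.elim ![s - p, p - a, a] ![t - q, q - b, b]), ?_, ?_⟩
  · rw [weight_w]
    simp
    omega
  · obtain ⟨q', hq'⟩ : ∃ q', q = q' + b := ⟨q - b, by omega⟩
    subst hq'
    ext i
    fin_cases i
    · simp [F, g]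
      rw [h5]; ring
    · simp [F, g]
      omega
    · simp [F, g]; omega
    · simp [F, g]; omega

lemma range_L (k s t : ℕ) : LinearMap.range (L k s t) =
    Submodule.span ℂ (Set.range (fun x : E k s t => monomial (g s t x.1) (1 : ℂ))) := by
  apply le_antisymm
  · rintro _ ⟨⟨f, hf⟩, rfl⟩
    rw [mem_weightedHomogeneousSubmodule] at hf
    change φ k f ∈ _
    rw [f.as_sum, map_sum]
    apply Submodule.sum_mem
    intro d hd
    rw [φ_monomial]
    have hd' : coeff d f ≠ 0 := by rwa [MvPolynomial.mem_support_iff] at hd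
    obtain ⟨x, hx, hx'⟩ := exists_E (k := k) (hf hd')
    rw [hx']
    have : monomial (g s t x) (coeff d f) = coeff d f • monomial (g s t x) 1 := by
      rw [smul_monomial, smul_eq_mul, mul_one]
    rw [this]
    apply Submodule.smul_mem
    apply Submodule.subset_span
    exact ⟨⟨x, hx⟩, rfl⟩
  · rw [Submodule.span_le]
    rintro _ ⟨⟨x, hx⟩, rfl⟩
    obtain ⟨d, hd, hd'⟩ := exists_d hx
    refine ⟨⟨monomial d 1, ?_⟩, ?_⟩
    · rw [mem_weightedHomogeneousSubmodule]
      exact isWeightedHomogeneous_monomial w d 1 hd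
    · change φ k (monomial d 1) = _
      rw [φ_monomial, hd']

lemma finrank_quot (k s t : ℕ) : Module.finrank ℂ
    (↥(weightedHomogeneousSubmodule ℂ w (s, t)) ⧸
      Submodule.comap (weightedHomogeneousSubmodule ℂ w (s, t)).subtype
        ((P k).restrictScalars ℂ)) = (E k s t).card := by
  rw [← ker_L, (L k s t).quotKerEquivRange.finrank_eq, range_L, finrank_span_eq_card]
  · simp
  · have := (basisMonomials (Fin 4) ℂ).linearIndependent
    rw [coe_basisMonomials] at this
    exact this.comp (fun x : E k s t => g s t x.1)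
      (fun x y h => Subtype.ext (g_inj s t h))

end Pool.Agent.Helper644.ToricIdeal
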